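import Mathlib

set_option autoImplicit false

/-!
Connected graphs in which the ends of an edge are distinguished by few vertices.
-/

namespace Pool.Agent.Helper51.HI

open Finset

variable {Y : Type*} [Fintype Y] {Φ : SimpleGraph Y}

omit [Fintype Y] in
theorem dist_le_succ (hc : Φ.Connected) {a b : Y} (z : Y) (h : Φ.Adj a b) :
    Φ.dist b z ≤ Φ.dist a z + 1 := by
  have h1 : Φ.dist b a = 1 := SimpleGraph.dist_eq_one_iff_adj.2 h.symm
  have h2 : Φ.dist b z ≤ Φ.dist b a + Φ.dist a z := hc.dist_triangle
  omega

open Classical in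
/-- the ball of radius `r` -/
noncomputable def bl (Φ : SimpleGraph Y) (x : Y) (r : ℕ) : Finset Y :=
  univ.filter fun z => Φ.dist x z ≤ r

theorem mem_bl {x z : Y} {r : ℕ} : z ∈ bl Φ x r ↔ Φ.dist x z ≤ r := by
  classical
  simp [bl]

open Classical in
theorem key (hc : Φ.Connected) (D : Y → Y → Finset Y)
    (hD : ∀ x y z, Φ.dist x z ≠ Φ.dist y z → z ∈ D x y) (M : ℕ)
    (hM : ∀ x y, Φ.Adj x y → (D x y).card ≤ M) (x y : Y) (r : ℕ) :
    (bl Φ x r).card * (Φ.dist x y - 2 * r) ≤ Φ.dist x y * M := by
  obtain ⟨w, hw⟩ := hc.exists_walk_length_eq_dist x y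
  rw [← hw]
  set p : ℕ → Y := fun i => w.getVert i with hp
  have hadj : ∀ i < w.length, Φ.Adj (p i) (p (i + 1)) := fun i hi => w.adj_getVert_succ hi
  have hstep : ∀ z, ∀ j ≤ w.length, Φ.dist (p j) z ≤ Φ.dist x z +
      ((range j).filter fun i => z ∈ D (p i) (p (i + 1))).card := by
    intro z j
    induction j with
    | zero =>
      intro _
      simp [hp]
    | succ j ih =>
      intro hj
      have h1 := ih (by omega)
      rw [range_add_one, filter_insert]
      split_ifs with hz
      · rw [card_insert_of_notMem (by simp)]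
        have h2 := dist_le_succ hc z (hadj j (by omega))
        omega
      · have h2 : Φ.dist (p j) z = Φ.dist (p (j + 1)) z := by
          by_contra h
          exact hz (hD _ _ _ h)
        rw [← h2]
        exact h1
  have hz : ∀ z ∈ bl Φ x r, w.length - 2 * r ≤
      ((range w.length).filter fun i => z ∈ D (p i) (p (i + 1))).card := by
    intro z hz
    rw [mem_bl] at hz
    have h1 := hstep z w.length le_rfl
    have h2 : p w.length = y := w.getVert_length
    rw [h2] at h1
    have h3 : Φ.dist x y ≤ Φ.dist x z + Φ.dist z y := hc.dist_triangle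
    rw [SimpleGraph.dist_comm (u := z)] at h3
    omega
  calc (bl Φ x r).card * (w.length - 2 * r)
      = ∑ _z ∈ bl Φ x r, (w.length - 2 * r) := by rw [sum_const, smul_eq_mul]
    _ ≤ ∑ z ∈ bl Φ x r, ((range w.length).filter fun i => z ∈ D (p i) (p (i + 1))).card :=
        sum_le_sum hz
    _ = ∑ z ∈ bl Φ x r, ∑ i ∈ range w.length, if z ∈ D (p i) (p (i + 1)) then 1 else 0 := by
        refine sum_congr rfl fun z _ => ?_
        rw [card_filter]
    _ = ∑ i ∈ range w.length, ∑ z ∈ bl Φ x r, if z ∈ D (p i) (p (i + 1)) then 1 else 0 :=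
        sum_comm
    _ ≤ ∑ _i ∈ range w.length, M := by
        refine sum_le_sum fun i hi => ?_
        rw [← card_filter]
        refine le_trans (card_le_card ?_) (hM _ _ (hadj i (mem_range.1 hi)))
        intro z hz
        exact (mem_filter.1 hz).2
    _ = w.length * M := by rw [sum_const, card_range, smul_eq_mul]

theorem bl_lower (hc : Φ.Connected) (x y : Y) (r : ℕ) (hr : r ≤ Φ.dist x y) :
    r + 1 ≤ (bl Φ x r).card := by
  classical
  obtain ⟨w, hw⟩ := hc.exists_walk_length_eq_dist x y
  have hdist : ∀ i ≤ w.length, Φ.dist x (w.getVert i) = i := by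
    intro i hi
    have h1 : ∀ j ≤ w.length, Φ.dist x (w.getVert j) ≤ j := by
      intro j
      induction j with
      | zero => intro _; simp
      | succ j ih =>
        intro hj
        have h2 := ih (by omega)
        have h3 := dist_le_succ hc x (w.adj_getVert_succ (i := j) (by omega))
        rw [SimpleGraph.dist_comm, SimpleGraph.dist_comm (v := x)] at h3
        omega
    have h2 : ∀ j ≤ w.length, Φ.dist x (w.getVert (w.length - j)) + j ≥ w.length := by
      intro j
      induction j with
      | zero =>
        intro _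
        rw [Nat.sub_zero, SimpleGraph.Walk.getVert_length]
        omega
      | succ j ih =>
        intro hj
        have h2 := ih (by omega)
        have h3 := dist_le_succ hc x (w.adj_getVert_succ (i := w.length - (j + 1)) (by omega))
        have e : w.length - (j + 1) + 1 = w.length - j := by omega
        rw [e, SimpleGraph.dist_comm, SimpleGraph.dist_comm (v := x)] at h3
        omega
    have h3 := h1 i hi
    have h4 := h2 (w.length - i) (by omega)
    have e : w.length - (w.length - i) = i := by omega
    rw [e] at h4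
    omega
  have hsub : (range (r + 1)).image (fun i => w.getVert i) ⊆ bl Φ x r := by
    intro z hz
    rw [mem_image] at hz
    obtain ⟨i, hi, rfl⟩ := hz
    rw [mem_range] at hi
    rw [mem_bl, hdist i (by omega)]
    omega
  refine le_trans ?_ (card_le_card hsub)
  rw [card_image_of_injOn, card_range]
  intro i hi j hj hij
  rw [mem_coe, mem_range] at hi hj
  simp only at hij
  rw [← hdist i (by omega), ← hdist j (by omega), hij]

open Classical in
theorem bl_growth (hc : Φ.Connected) (k : ℕ) (hk : ∀ x, (univ.filter fun y => Φ.Adj x y).card ≤ k)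
    (x : Y) (r : ℕ) : (bl Φ x r).card ≤ (1 + k) ^ r := by
  induction r with
  | zero =>
    have : bl Φ x 0 ⊆ {x} := by
      intro z hz
      rw [mem_bl, Nat.le_zero, hc.dist_eq_zero_iff] at hz
      rw [mem_singleton, hz]
    simpa using card_le_card this
  | succ r ih =>
    have hsub : bl Φ x (r + 1) ⊆ (bl Φ x r).biUnion
        (fun y => insert y (univ.filter fun z => Φ.Adj y z)) := by
      intro z hz
      rw [mem_bl] at hz
      rw [mem_biUnion]
      by_cases h : Φ.dist x z ≤ r
      · exact ⟨z, mem_bl.2 h, mem_insert_self _ _⟩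
      · obtain ⟨w, hw⟩ := hc.exists_walk_length_eq_dist z x
        rw [SimpleGraph.dist_comm] at hw
        have h1 : 0 < w.length := by omega
        have h2 := w.adj_getVert_succ (i := 0) h1
        rw [SimpleGraph.Walk.getVert_zero] at h2
        refine ⟨w.getVert 1, ?_, ?_⟩
        · rw [mem_bl, SimpleGraph.dist_comm]
          have h3 : Φ.dist (w.getVert 1) x ≤ (w.drop 1).length := SimpleGraph.dist_le _
          have h4 : (w.drop 1).length = w.length - 1 := by simp
          omega
        · rw [mem_insert, mem_filter]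
          exact Or.inr ⟨mem_univ _, h2.symm⟩
    refine (card_le_card hsub).trans (card_biUnion_le.trans ?_)
    calc ∑ y ∈ bl Φ x r, (insert y (univ.filter fun z => Φ.Adj y z)).card
        ≤ ∑ _y ∈ bl Φ x r, (1 + k) := by
          refine sum_le_sum fun y _ => ?_
          refine (card_insert_le _ _).trans ?_
          have := hk y
          omega
      _ = (bl Φ x r).card * (1 + k) := by rw [sum_const, smul_eq_mul]
      _ ≤ (1 + k) ^ r * (1 + k) := Nat.mul_le_mul_right _ ih
      _ = (1 + k) ^ (r + 1) := (pow_succ _ _).symm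

open Classical in
/-- the number of the vertices is bounded by the valency and the number of the vertices which
distinguish the ends of an edge -/
theorem card_le_of_valency (hc : Φ.Connected) (D : Y → Y → Finset Y)
    (hD : ∀ x y z, Φ.dist x z ≠ Φ.dist y z → z ∈ D x y) (M : ℕ)
    (hM : ∀ x y, Φ.Adj x y → (D x y).card ≤ M) (k : ℕ)
    (hk : ∀ x, (univ.filter fun y => Φ.Adj x y).card ≤ k) :
    Fintype.card Y ≤ (1 + k) ^ (15 * M + 2) := by
  have hne : Nonempty Y := hc.nonempty
  obtain ⟨⟨x, y⟩, hxy⟩ := Finite.exists_max (fun p : Y × Y => Φ.dist p.1 p.2)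
  set L := Φ.dist x y with hL
  have hLle : L ≤ 15 * M + 2 := by
    by_contra hlt
    push Not at hlt
    obtain ⟨r, hr⟩ : ∃ r, r = L / 3 := ⟨_, rfl⟩
    have h1 : 3 * r ≤ L := by omega
    have h2 : L ≤ 3 * r + 2 := by omega
    have hr1 : 1 ≤ r := by omega
    have h3 := key hc D hD M hM x y r
    have h4 := bl_lower hc x y r (by omega)
    rw [← hL] at h3
    have h5 : (r + 1) * r ≤ L * M :=
      le_trans (Nat.mul_le_mul h4 (by omega)) h3
    have h6 : L ≤ 5 * r := by omega
    have h7 : (r + 1) * r ≤ (5 * M) * r := by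
      calc (r + 1) * r ≤ L * M := h5
        _ ≤ (5 * r) * M := Nat.mul_le_mul_right _ h6
        _ = (5 * M) * r := by ring
    have h8 : r + 1 ≤ 5 * M := Nat.le_of_mul_le_mul_right h7 hr1
    omega
  have h1 : (bl Φ x L).card = Fintype.card Y := by
    have : bl Φ x L = univ := by
      ext z
      rw [mem_bl]
      simp only [mem_univ, iff_true]
      exact hxy (x, z)
    rw [this, card_univ]
  rw [← h1]
  refine (bl_growth hc k hk x L).trans (Nat.pow_le_pow_right (by omega) hLle)

open Classical in
/-- the valency is bounded if the diameter is at least three -/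
theorem valency_le (hc : Φ.Connected) (D : Y → Y → Finset Y)
    (hD : ∀ x y z, Φ.dist x z ≠ Φ.dist y z → z ∈ D x y) (M : ℕ)
    (hM : ∀ x y, Φ.Adj x y → (D x y).card ≤ M) (x y : Y) (hxy : 3 ≤ Φ.dist x y) :
    (univ.filter fun z => Φ.Adj x z).card ≤ 3 * M := by
  have h1 := key hc D hD M hM x y 1
  have h2 : (univ.filter fun z => Φ.Adj x z) ⊆ bl Φ x 1 := by
    intro z hz
    rw [mem_bl]
    exact (SimpleGraph.dist_eq_one_iff_adj.2 (mem_filter.1 hz).2).le
  refine (card_le_card h2).trans ?_
  obtain ⟨l, hl⟩ : ∃ l, Φ.dist x y = l + 3 := ⟨Φ.dist x y - 3, by omega⟩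
  rw [hl] at h1
  have e : l + 3 - 2 * 1 = l + 1 := by omega
  rw [e] at h1
  have h3 : (bl Φ x 1).card * (l + 1) ≤ (3 * M) * (l + 1) := by
    refine h1.trans ?_
    nlinarith
  exact Nat.le_of_mul_le_mul_right h3 (by omega)

end Pool.Agent.Helper51.HI
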