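import Pool.Agent.Helper51.HI.Esc

set_option autoImplicit false

/-!
Conjugates of the local fields.
-/

namespace Pool.Agent.Helper51.HI

open Polynomial IntermediateField MulAction Module

variable {K : Type*} [Field K] {Ω : Type*} [Field Ω] [Algebra K Ω] [IsAlgClosed Ω]
  [Algebra.IsAlgebraic K Ω]

theorem normal_of_isAlgClosed : Normal K Ω := by
  have : IsAlgClosure K Ω := ⟨inferInstance, inferInstance⟩
  exact IsAlgClosure.normal K Ω

theorem galois_normalClosure (E : IntermediateField K Ω) [FiniteDimensional K E]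
    [Algebra.IsSeparable K E] :
    FiniteDimensional K (IntermediateField.normalClosure K E Ω) ∧
      IsGalois K (IntermediateField.normalClosure K E Ω) := by
  have : Normal K Ω := normal_of_isAlgClosed
  have h1 : E ≤ separableClosure K Ω := le_separableClosure K Ω E
  have h2 : IntermediateField.normalClosure K E Ω ≤ separableClosure K Ω := by
    rw [← separableClosure.normalClosure_eq_self K Ω]
    exact normalClosure_mono _ _ h1
  have h3 : Algebra.IsSeparable K (IntermediateField.normalClosure K E Ω) := by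
    rw [← le_separableClosure_iff]
    exact h2
  exact ⟨inferInstance, ⟨⟩⟩

/-- a Galois extension of `N` inside `L'` is trivial -/
theorem bot_of_conj [Normal K Ω] (N L L' : IntermediateField K Ω) [FiniteDimensional K N]
    [IsGalois K N]
    (hmax : ∀ E : IntermediateField K Ω, FiniteDimensional K E → IsGalois K E → E ≤ L → E ≤ N)
    (hNL' : N ≤ L')
    (hL' : ∀ σ : N ≃ₐ[K] N, ∀ x ∈ L', ∃ y ∈ L, (σ.liftNormal Ω) y = x)
    (E : IntermediateField N Ω) (h1 : FiniteDimensional N E) (h2 : IsGalois N E)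
    (hE : E ≤ extendScalars hNL') : E = ⊥ := by
  set EK : IntermediateField K Ω := E.restrictScalars K with hEK
  have hfd : FiniteDimensional K EK := by
    have : FiniteDimensional K E := FiniteDimensional.trans K N E
    exact this
  have hsep : Algebra.IsSeparable K EK := by
    have : Algebra.IsSeparable K E := Algebra.IsSeparable.trans K N E
    exact this
  obtain ⟨h3, h4⟩ := galois_normalClosure EK
  have h5 : IntermediateField.normalClosure K EK Ω ≤ L := by
    rw [normalClosure_def'']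
    refine iSup_le fun f => ?_
    rintro _ ⟨x, hx, rfl⟩
    -- `f` restricted to `N`
    set σ : N ≃ₐ[K] N := f.restrictNormal N with hσ
    set τ : Ω ≃ₐ[K] Ω := σ⁻¹.liftNormal Ω with hτ
    have hfix : ∀ z : N, τ (f (z : Ω)) = z := by
      intro z
      have h6 : f (z : Ω) = ((σ z : N) : Ω) := (AlgEquiv.restrictNormal_commutes f N z).symm
      have h7 : τ ((σ z : N) : Ω) = ((σ⁻¹ (σ z) : N) : Ω) :=
        AlgEquiv.liftNormal_commutes σ⁻¹ Ω (σ z)
      rw [h6, h7, ← AlgEquiv.mul_apply, inv_mul_cancel, AlgEquiv.one_apply]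
    let g : E →ₐ[N] Ω :=
      { toRingHom := (τ.toAlgHom.comp f.toAlgHom).toRingHom.comp (algebraMap E Ω)
        commutes' := fun z => hfix z }
    have hg : g.fieldRange = E := AlgHom.fieldRange_of_normal g
    have h8 : g (⟨x, hx⟩ : E) ∈ E :=
      (SetLike.ext_iff.1 hg _).1 ⟨(⟨x, hx⟩ : E), rfl⟩
    have h9 : τ (f x) ∈ L' := hE h8
    obtain ⟨y, hy, hyx⟩ := hL' σ⁻¹ _ h9
    have h10 : y = f x := τ.injective hyx
    show f x ∈ L
    rw [← h10]
    exact hy
  have h6 := hmax _ h3 h4 h5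
  rw [eq_bot_iff]
  intro x hx
  have h7 : x ∈ IntermediateField.normalClosure K EK Ω := le_normalClosure EK hx
  rw [IntermediateField.mem_bot]
  exact ⟨⟨x, h6 h7⟩, rfl⟩

/-- the separable irreducible polynomials with a root outside `N` have roots outside `L'`, and
those with a bounded number of roots outside `L'` have bounded degree -/
def EscN (N L' : IntermediateField K Ω) : Prop :=
  (∀ q : K[X], Irreducible q → q.Separable → (∃ a ∈ q.rootSet Ω, a ∉ N) →
    ∃ a ∈ q.rootSet Ω, a ∉ L') ∧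
  ∀ B : ℕ, ∃ D : ℕ, ∀ q : K[X], Irreducible q → q.Separable → (∃ a ∈ q.rootSet Ω, a ∉ N) →
    (q.rootSet Ω \ (L' : Set Ω)).ncard ≤ B → q.natDegree ≤ D

omit [IsAlgClosed Ω] in
theorem natDegree_le_tower (N : IntermediateField K Ω) [FiniteDimensional K N] (a : Ω) :
    (minpoly K a).natDegree ≤ finrank K N * (minpoly N a).natDegree := by
  have hint : IsIntegral N a := (Algebra.IsIntegral.isIntegral (R := K) a).tower_top
  have h1 : FiniteDimensional N N⟮a⟯ := adjoin.finiteDimensional hint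
  have h2 : FiniteDimensional K N⟮a⟯ := FiniteDimensional.trans K N N⟮a⟯
  have h5 : IsScalarTower K N⟮a⟯ Ω := IsScalarTower.of_algebraMap_eq fun x => rfl
  have h3 : minpoly K a = minpoly K (AdjoinSimple.gen N a) := by
    have h4 := minpoly.algebraMap_eq (A := K) (B := N⟮a⟯) (B' := Ω)
      (algebraMap N⟮a⟯ Ω).injective (AdjoinSimple.gen N a)
    rw [← h4, AdjoinSimple.algebraMap_gen]
  rw [h3, ← adjoin.finrank hint, finrank_mul_finrank K N N⟮a⟯]
  exact minpoly.natDegree_le _

theorem escN_of (N L' : IntermediateField K Ω) [FiniteDimensional K N] (hNL' : N ≤ L')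
    (h : Esc (extendScalars hNL')) : EscN N L' := by
  have key : ∀ q : K[X], Irreducible q → q.Separable → ∀ a ∈ q.rootSet Ω, a ∉ N →
      Irreducible (minpoly N a) ∧ (minpoly N a).Separable ∧ 2 ≤ (minpoly N a).natDegree ∧
        (minpoly N a).rootSet Ω ⊆ q.rootSet Ω ∧
        q.natDegree ≤ finrank K N * (minpoly N a).natDegree := by
    intro q hq hsep a ha haN
    have hint : IsIntegral N a := (Algebra.IsIntegral.isIntegral (R := K) a).tower_top
    have ha0 : aeval a q = 0 := aeval_eq_zero_of_mem_rootSet ha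
    have hdvd : minpoly N a ∣ q.map (algebraMap K N) := by
      apply minpoly.dvd
      rw [aeval_map_algebraMap]
      exact ha0
    have hirr := minpoly.irreducible hint
    refine ⟨hirr, (hsep.map).of_dvd hdvd, ?_, ?_, ?_⟩
    · have h1 := minpoly.natDegree_pos hint
      by_contra h2
      have h3 : (minpoly N a).natDegree = 1 := by omega
      obtain ⟨x, hx⟩ := minpoly.natDegree_eq_one_iff.1 h3
      apply haN
      rw [← hx]
      exact x.2
    · intro b hb
      rw [mem_rootSet] at hb ⊢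
      refine ⟨hq.ne_zero, ?_⟩
      obtain ⟨v, hv⟩ := hdvd
      have h1 : aeval b (q.map (algebraMap K N)) = 0 := by
        rw [hv, map_mul, hb.2, zero_mul]
      rwa [aeval_map_algebraMap] at h1
    · have h1 : (minpoly K a).natDegree = q.natDegree := by
        rw [← minpoly.eq_of_irreducible hq ha0, natDegree_mul_C]
        exact inv_ne_zero (leadingCoeff_ne_zero.2 hq.ne_zero)
      rw [← h1]
      exact natDegree_le_tower N a
  constructor
  · rintro q hq hsep ⟨a, ha, haN⟩
    obtain ⟨h1, h2, h3, h4, -⟩ := key q hq hsep a ha haN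
    obtain ⟨b, hb, hbL⟩ := h.1 _ h1 h2 h3
    exact ⟨b, h4 hb, hbL⟩
  · intro B
    obtain ⟨D, hD⟩ := h.2 B
    refine ⟨finrank K N * D, ?_⟩
    rintro q hq hsep ⟨a, ha, haN⟩ hB
    obtain ⟨h1, h2, h3, h4, h5⟩ := key q hq hsep a ha haN
    refine h5.trans (Nat.mul_le_mul_left _ (hD _ h1 h2 h3 ?_))
    refine le_trans (Set.ncard_le_ncard ?_ ((rootSet_finite q Ω).subset Set.sdiff_subset)) hB
    exact Set.sdiff_subset_sdiff_left h4

/-- the family of the conjugates -/
theorem exists_family [Normal K Ω] {ι : Type*} [Finite ι] [Nonempty ι]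
    (F : ι → IntermediateField K Ω) (N : IntermediateField K Ω) [FiniteDimensional K N]
    [IsGalois K N] (hNF : N ≤ ⨅ i, F i)
    (hmax : ∀ E : IntermediateField K Ω, FiniteDimensional K E → IsGalois K E →
      E ≤ ⨅ i, F i → E ≤ N)
    (hA : ∀ B : ℕ, ∃ n₀ : ℕ, ∀ q : N[X], Irreducible q → q.Separable → n₀ ≤ q.natDegree →
      (q.rootSet Ω \ ((⨅ i, F i : IntermediateField K Ω) : Set Ω)).ncard ≤ B →
      ∀ [DecidableEq (q.rootSet Ω)] [Fintype (q.rootSet Ω)],
        ¬ alternatingGroup (q.rootSet Ω) ≤ (toPermHom (Ω ≃ₐ[N] Ω) (q.rootSet Ω)).range) :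
    ∃ F' : ι ⊕ (ι × (N ≃ₐ[K] N)) → IntermediateField K Ω,
      (∀ j, ∃ i, Nonempty (F i ≃ₐ[K] F' j)) ∧ N ≤ ⨅ j, F' j ∧ EscN N (⨅ j, F' j) := by
  classical
  set F' : ι ⊕ (ι × (N ≃ₐ[K] N)) → IntermediateField K Ω :=
    Sum.elim F (fun x => (F x.1).map (x.2.liftNormal Ω).toAlgHom) with hF'
  have hmem : ∀ x : Ω, x ∈ (⨅ j, F' j : IntermediateField K Ω) → ∀ j, x ∈ F' j :=
    fun x hx j => (iInf_le F' j) hx
  have hmemF : ∀ x : Ω, (∀ i, x ∈ F i) → x ∈ (⨅ i, F i : IntermediateField K Ω) := by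
    intro x hx
    rw [← SetLike.mem_coe, IntermediateField.coe_iInf, Set.mem_iInter]
    exact hx
  have hle : (⨅ j, F' j : IntermediateField K Ω) ≤ ⨅ i, F i :=
    fun x hx => hmemF x fun i => hmem x hx (Sum.inl i)
  have hNL' : N ≤ ⨅ j, F' j := by
    refine le_iInf fun j => ?_
    rcases j with i | ⟨i, σ⟩
    · exact hNF.trans (iInf_le F i)
    · intro z hz
      refine ⟨((σ⁻¹ ⟨z, hz⟩ : N) : Ω), hNF.trans (iInf_le F i) (σ⁻¹ ⟨z, hz⟩ : N).2, ?_⟩
      have h1 : (σ.liftNormal Ω) ((σ⁻¹ ⟨z, hz⟩ : N) : Ω) = ((σ (σ⁻¹ ⟨z, hz⟩) : N) : Ω) :=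
        AlgEquiv.liftNormal_commutes σ Ω _
      rw [← AlgEquiv.mul_apply, mul_inv_cancel, AlgEquiv.one_apply] at h1
      exact h1
  refine ⟨F', ?_, hNL', escN_of N _ hNL' (esc_of _ ?_ ?_)⟩
  · rintro (i | ⟨i, σ⟩)
    · exact ⟨i, ⟨AlgEquiv.refl⟩⟩
    · exact ⟨i, ⟨(F i).equivMap (σ.liftNormal Ω).toAlgHom⟩⟩
  · intro E h1 h2 h3
    refine bot_of_conj N (⨅ i, F i) (⨅ j, F' j) hmax hNL' ?_ E h1 h2 h3
    intro σ x hx
    refine ⟨(σ.liftNormal Ω).symm x, hmemF _ fun i => ?_, AlgEquiv.apply_symm_apply _ _⟩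
    obtain ⟨z, hz, hzx⟩ := hmem x hx (Sum.inr (i, σ))
    have h4 : (σ.liftNormal Ω).symm x = z := by
      rw [AlgEquiv.symm_apply_eq]
      exact hzx.symm
    rw [h4]
    exact hz
  · intro B
    obtain ⟨n₀, hn₀⟩ := hA B
    refine ⟨n₀, fun q hq hsep hdeg hB => ?_⟩
    refine hn₀ q hq hsep hdeg (le_trans (Set.ncard_le_ncard ?_
      ((rootSet_finite q Ω).subset Set.sdiff_subset)) hB)
    exact Set.sdiff_subset_sdiff_right (fun x hx => hle hx)

theorem SR.transfer {F F' : Type*} [Field F] [Field F'] [Algebra K F] [Algebra K F']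
    (e : F →ₐ[K] F') {w : K[X]} {r : ℕ} (h : SR F w r) : SR F' w r := by
  classical
  obtain ⟨s, hs, hroot⟩ := h
  refine ⟨s.image e, ?_, ?_⟩
  · have hinj : Function.Injective e := (e : F →+* F').injective
    rw [Finset.card_image_of_injective _ hinj]
    exact hs
  · intro b hb
    rw [Finset.mem_image] at hb
    obtain ⟨a, ha, rfl⟩ := hb
    rw [aeval_algHom_apply, aeval_algHom_apply, (hroot a ha).1, map_zero]
    exact ⟨rfl, (_root_.map_ne_zero e).2 (hroot a ha).2⟩

theorem Pers.transfer {F F' : Type*} [Field F] [Field F'] [Algebra K F] [Algebra K F']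
    {ℱ : Filter K} (e : F ≃ₐ[K] F') (h : Pers ℱ F) : Pers ℱ F' := by
  intro P r hP
  exact (h P r (hP.transfer e.symm.toAlgHom)).mono fun δ hδ => hδ.transfer e.toAlgHom

end Pool.Agent.Helper51.HI
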