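import Pool.Agent.Helper51.HI.Count

set_option autoImplicit false

/-!
Infinitely many rational points.
-/

namespace Pool.Agent.Helper51.HI

open Polynomial Filter

variable {K : Type*} [Field K] {Ω : Type*} [Field Ω] [Algebra K Ω]

theorem infinite_irred [Infinite K] {ι : Type*} [Fintype ι] [Nonempty ι]
    (ℱ : Filter K) [ℱ.NeBot] (hcof : ℱ ≤ cofinite) (L : ι → IntermediateField K Ω)
    (hpers : ∀ i, Pers ℱ (L i)) (ℓ : ℕ) (hM : Moved (⨅ i, L i) ℓ)
    (f : K[X][X]) (n : ℕ) (hirr : Irreducible f)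
    (hf : f.natDegree = n + 1) (hn : 1 ≤ n) (h0 : (f.coeff 0).coeff 0 = 0)
    (h1 : (f.coeff 1).coeff 0 ≠ 0) :
    {x : K | ∃ y : K, (f.map (evalRingHom x)).eval y = 0}.Infinite := by
  classical
  intro hfin
  obtain ⟨A, hA⟩ : ∃ A : ℕ, ∀ i, (f.coeff i).natDegree ≤ A := by
    refine ⟨f.support.sup fun i => (f.coeff i).natDegree, fun i => ?_⟩
    by_cases hi : f.coeff i = 0
    · rw [hi, natDegree_zero]
      exact Nat.zero_le _
    · exact Finset.le_sup (f := fun i => (f.coeff i).natDegree) (mem_support_iff.2 hi)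
  set B := (n + 1) * (n * A + 1) with hB
  set M := hfin.toFinset.card + A + (ℓ + 1) * (Fintype.card ι * B) + 1 with hMdef
  obtain ⟨w, hw0, hwdeg, hwSR, hwpt⟩ := exists_many f n hirr hf hn h0 h1 A hA ℱ hcof
    (fun i => L i) hpers M
  obtain ⟨s, hs, hroot⟩ := count w hw0 ((n + 1) * M + n * A) B ℓ hwdeg L hwSR hM inferInstance
  have hlc : f.coeff (n + 1) ≠ 0 := by
    rw [← hf, coeff_natDegree, Ne, leadingCoeff_eq_zero]
    exact hirr.ne_zero
  have hsub : s ⊆ hfin.toFinset ∪ (f.coeff (n + 1)).roots.toFinset := by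
    intro x hx
    rw [Finset.mem_union]
    by_cases hxl : (f.coeff (n + 1)).eval x = 0
    · right
      rw [Multiset.mem_toFinset, mem_roots hlc]
      exact hxl
    · left
      rw [Set.Finite.mem_toFinset]
      exact hwpt x hxl (hroot x hx).1 (hroot x hx).2
  have h3 : s.card ≤ hfin.toFinset.card + A := by
    refine (Finset.card_le_card hsub).trans ((Finset.card_union_le _ _).trans ?_)
    refine Nat.add_le_add_left ?_ _
    exact (Multiset.toFinset_card_le _).trans ((card_roots' _).trans (hA _))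
  have h4 : M ≤ (n + 1) * M + n * A := by nlinarith
  omega

theorem infinite_linear [Infinite K] (f : K[X][X]) (hf : f.natDegree = 1) :
    {x : K | ∃ y : K, (f.map (evalRingHom x)).eval y = 0}.Infinite := by
  have hlc : f.coeff 1 ≠ 0 := by
    rw [← hf, coeff_natDegree, Ne, leadingCoeff_eq_zero]
    rintro rfl
    simp at hf
  have h1 : {x : K | (f.coeff 1).eval x ≠ 0}.Infinite := by
    have h2 : {x : K | (f.coeff 1).eval x ≠ 0} = {x : K | (f.coeff 1).IsRoot x}ᶜ := rfl
    rw [h2]
    exact (finite_setOfPred_isRoot hlc).infinite_compl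
  refine h1.mono fun x hx => ?_
  refine ⟨-(f.coeff 0).eval x / (f.coeff 1).eval x, ?_⟩
  have h3 : f = C (f.coeff 1) * X + C (f.coeff 0) := eq_X_add_C_of_natDegree_le_one hf.le
  generalize f.coeff 1 = p at h3 hx
  generalize f.coeff 0 = q at h3
  rw [h3, Polynomial.map_add, Polynomial.map_mul, map_C, map_C, map_X, eval_add, eval_mul, eval_C,
    eval_C, eval_X, coe_evalRingHom, mul_div_cancel₀ _ hx]
  exact neg_add_cancel _

/-- all the hypotheses used for `K` -/
def Data (K : Type*) [Field K] : Prop :=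
  ∀ (f : K[X][X]) (n : ℕ), Irreducible f → f.natDegree = n + 1 → 1 ≤ n →
    (f.coeff 0).coeff 0 = 0 → (f.coeff 1).coeff 0 ≠ 0 →
    {x : K | ∃ y : K, (f.map (evalRingHom x)).eval y = 0}.Infinite

theorem eval_map_eq (f : K[X][X]) (x y : K) :
    (f.map (evalRingHom x)).eval y = (f.eval (C y)).eval x := by
  have := Polynomial.eval₂_at_apply (p := f) (evalRingHom x) (C y)
  rw [coe_evalRingHom, eval_C] at this
  rw [eval_map]
  exact this

/-- an irreducible factor through the point `(0, 0)` -/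
theorem exists_factor (f : K[X][X]) (h0 : (f.coeff 0).coeff 0 = 0)
    (h1 : (f.coeff 1).coeff 0 ≠ 0) :
    ∃ g : K[X][X], Irreducible g ∧ g ∣ f ∧ (g.coeff 0).coeff 0 = 0 ∧
      (g.coeff 1).coeff 0 ≠ 0 := by
  have hf : f ≠ 0 := by
    rintro rfl
    simp at h1
  have hprod : ∃ s : Multiset K[X][X], (∀ b ∈ s, Irreducible b) ∧ Associated s.prod f :=
    ⟨UniqueFactorizationMonoid.factors f, UniqueFactorizationMonoid.irreducible_of_factor,
      UniqueFactorizationMonoid.factors_prod hf⟩
  obtain ⟨s, hs, u, hu⟩ := hprod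
  have key : ∀ s : Multiset K[X][X], ((s.prod).coeff 0).coeff 0 = 0 →
      ∃ g ∈ s, (g.coeff 0).coeff 0 = 0 := by
    intro s
    induction s using Multiset.induction_on with
    | empty =>
      intro h
      rw [Multiset.prod_zero, coeff_one_zero, coeff_one_zero] at h
      exact (one_ne_zero h).elim
    | cons a s ih =>
      intro h
      rw [Multiset.prod_cons, mul_coeff_zero, mul_coeff_zero, mul_eq_zero] at h
      rcases h with h | h
      · exact ⟨a, Multiset.mem_cons_self a s, h⟩
      · obtain ⟨g, hg, hg'⟩ := ih h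
        exact ⟨g, Multiset.mem_cons_of_mem hg, hg'⟩
  have hs0 : ((s.prod).coeff 0).coeff 0 = 0 := by
    rw [← hu, mul_coeff_zero, mul_coeff_zero, mul_eq_zero] at h0
    rcases h0 with h | h
    · exact h
    · exfalso
      have h2 : ((u.val * u.inv).coeff 0).coeff 0 = (1 : K) := by
        rw [u.val_inv, coeff_one_zero, coeff_one_zero]
      rw [mul_coeff_zero, mul_coeff_zero, h, zero_mul] at h2
      exact zero_ne_one h2
  obtain ⟨g, hg, hg0⟩ := key s hs0
  have hdvd : g ∣ f := (Multiset.dvd_prod hg).trans ⟨u, hu.symm⟩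
  refine ⟨g, hs g hg, hdvd, hg0, ?_⟩
  obtain ⟨v, hv⟩ := hdvd
  rw [hv] at h1
  intro h2
  apply h1
  have h3 : ((g * v).coeff 1).coeff 0 =
      (g.coeff 0).coeff 0 * (v.coeff 1).coeff 0 + (g.coeff 1).coeff 0 * (v.coeff 0).coeff 0 := by
    rw [coeff_mul, Finset.Nat.antidiagonal_succ]
    simp
  rw [h3, hg0, h2]
  ring

theorem infinite_zero [Infinite K] (hD : Data K) (f : K[X][X]) (h0 : (f.coeff 0).coeff 0 = 0)
    (h1 : (f.coeff 1).coeff 0 ≠ 0) :
    {x : K | ∃ y : K, (f.map (evalRingHom x)).eval y = 0}.Infinite := by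
  obtain ⟨g, hirr, ⟨v, hv⟩, hg0, hg1⟩ := exists_factor f h0 h1
  have hdeg : g.natDegree ≠ 0 := by
    intro h
    apply hg1
    have h2 : g.coeff 1 = 0 := coeff_eq_zero_of_natDegree_lt (by omega)
    rw [h2, coeff_zero]
  have hinf : {x : K | ∃ y : K, (g.map (evalRingHom x)).eval y = 0}.Infinite := by
    by_cases h : g.natDegree = 1
    · exact infinite_linear g h
    · exact hD g (g.natDegree - 1) hirr (by omega) (by omega) hg0 hg1
  refine hinf.mono ?_
  rintro x ⟨y, hy⟩
  refine ⟨y, ?_⟩
  rw [hv, Polynomial.map_mul, eval_mul, hy, zero_mul]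

theorem infinite_points [Infinite K] (hD : Data K) (f : K[X][X]) (a b : K)
    (h0 : f.evalEval a b = 0) (h1 : (derivative f).evalEval a b ≠ 0) :
    {x : K | ∃ y : K, f.evalEval x y = 0}.Infinite := by
  have hT : ∀ (q : K[X][X]) (x y : K),
      ((q.map (compRingHom (X + C a))).comp (X + C (C b))).evalEval x y =
        q.evalEval (x + a) (y + b) := by
    intro q x y
    rw [evalEval, evalEval, eval_comp, eval_add, eval_X, eval_C, ← C_add, ← eval_map_eq,
      ← eval_map_eq, Polynomial.map_map]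
    congr 2
    ext z
    · simp
    · simp
  set g : K[X][X] := (f.map (compRingHom (X + C a))).comp (X + C (C b)) with hg
  have hg' : derivative g = ((derivative f).map (compRingHom (X + C a))).comp (X + C (C b)) := by
    rw [hg, derivative_comp, derivative_map, derivative_add, derivative_X, derivative_C, add_zero,
      one_mul]
  have hc0 : (g.coeff 0).coeff 0 = g.evalEval 0 0 := by
    rw [evalEval, C_0, coeff_zero_eq_eval_zero, coeff_zero_eq_eval_zero]
  have hc1 : (g.coeff 1).coeff 0 = (derivative g).evalEval 0 0 := by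
    rw [evalEval, C_0, ← coeff_zero_eq_eval_zero, ← coeff_zero_eq_eval_zero, coeff_derivative]
    simp
  have hinf := infinite_zero hD g (by rw [hc0, hg, hT, zero_add, zero_add, h0])
    (by rw [hc1, hg', hT, zero_add, zero_add]; exact h1)
  have h2 : (fun x => x + a) '' {x : K | ∃ y : K, (g.map (evalRingHom x)).eval y = 0} ⊆
      {x : K | ∃ y : K, f.evalEval x y = 0} := by
    rintro _ ⟨x, ⟨y, hy⟩, rfl⟩
    refine ⟨y + b, ?_⟩
    rw [← hT, evalEval, ← eval_map_eq]
    exact hy
  exact (hinf.image (add_left_injective a).injOn).mono h2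

end Pool.Agent.Helper51.HI
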