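import Pool.Agent.Helper51.HI.Induct

set_option autoImplicit false

/-!
Counting rational simple roots.
-/

namespace Pool.Agent.Helper51.HI

open Polynomial Filter

variable {K : Type*} [Field K] {Ω : Type*} [Field Ω] [Algebra K Ω]

/-- a fixed proportion of the roots of each separable irreducible polynomial lies outside `L` -/
def Moved (L : IntermediateField K Ω) (ℓ : ℕ) : Prop :=
  ∀ q : K[X], Irreducible q → q.Separable → 2 ≤ q.natDegree →
    q.natDegree ≤ ℓ * (q.rootSet Ω \ (L : Set Ω)).ncard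

theorem count {ι : Type*} [Fintype ι] (w : K[X]) (hw : w ≠ 0) (c B ℓ : ℕ)
    (hdeg : w.natDegree ≤ c + B) (L : ι → IntermediateField K Ω) (hSR : ∀ i, SR (L i) w c)
    (hM : Moved (⨅ i, L i) ℓ) (hι : Nonempty ι) :
    ∃ s : Finset K, c ≤ s.card + (ℓ + 1) * (Fintype.card ι * B) ∧
      ∀ x ∈ s, w.eval x = 0 ∧ (derivative w).eval x ≠ 0 := by
  classical
  choose s hs hroot using hSR
  let T : ι → Finset Ω := fun i => (s i).map ⟨algebraMap (L i) Ω, (algebraMap (L i) Ω).injective⟩
  have hTc : ∀ i, c ≤ (T i).card := fun i => by rw [Finset.card_map]; exact hs i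
  have hT : ∀ i, ∀ a ∈ T i, a ∈ L i ∧ aeval a w = 0 ∧ aeval a (derivative w) ≠ 0 := by
    intro i a ha
    rw [Finset.mem_map] at ha
    obtain ⟨b, hb, rfl⟩ := ha
    refine ⟨b.2, ?_, ?_⟩
    · have := (hroot i b hb).1
      show aeval (algebraMap (L i) Ω b) w = 0
      rw [aeval_algebraMap_apply, this, map_zero]
    · have := (hroot i b hb).2
      show aeval (algebraMap (L i) Ω b) (derivative w) ≠ 0
      rw [aeval_algebraMap_apply]
      exact (_root_.map_ne_zero _).2 this
  set R : Finset Ω := (w.aroots Ω).toFinset with hR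
  have hRmem : ∀ a, a ∈ R ↔ aeval a w = 0 := by
    intro a
    rw [hR, Multiset.mem_toFinset, mem_aroots]
    exact ⟨fun h => h.2, fun h => ⟨hw, h⟩⟩
  have hRc : R.card ≤ c + B := by
    refine (Multiset.toFinset_card_le _).trans ((card_roots' _).trans ?_)
    rw [natDegree_map]
    exact hdeg
  have hTR : ∀ i, T i ⊆ R := fun i a ha => (hRmem a).2 (hT i a ha).2.1
  have hRT : ∀ i, (R \ T i).card ≤ B := by
    intro i
    rw [Finset.card_sdiff_of_subset (hTR i)]
    have := hTc i
    omega
  set T₀ : Finset Ω := R.filter (fun a => ∀ i, a ∈ T i) with hT₀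
  have hRT₀ : (R \ T₀).card ≤ Fintype.card ι * B := by
    have h1 : R \ T₀ ⊆ Finset.univ.biUnion (fun i => R \ T i) := by
      intro a ha
      rw [Finset.mem_sdiff, hT₀, Finset.mem_filter, not_and] at ha
      obtain ⟨i, hi⟩ := not_forall.1 (ha.2 ha.1)
      rw [Finset.mem_biUnion]
      exact ⟨i, Finset.mem_univ i, Finset.mem_sdiff.2 ⟨ha.1, hi⟩⟩
    refine (Finset.card_le_card h1).trans (Finset.card_biUnion_le.trans ?_)
    refine (Finset.sum_le_card_nsmul _ _ B fun i _ => hRT i).trans ?_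
    rw [Finset.card_univ, smul_eq_mul]
  have hT₀c : c ≤ T₀.card + Fintype.card ι * B := by
    have h1 : c ≤ R.card := (hTc hι.some).trans (Finset.card_le_card (hTR _))
    have hsub : T₀ ⊆ R := Finset.filter_subset _ _
    have h2 : (R \ T₀).card + T₀.card = R.card := Finset.card_sdiff_add_card_eq_card hsub
    omega
  set TK := T₀.filter (fun a => ∃ x : K, algebraMap K Ω x = a) with hTK
  set T' := T₀.filter (fun a => ¬ ∃ x : K, algebraMap K Ω x = a) with hT'
  have hsplit : TK.card + T'.card = T₀.card := Finset.card_filter_add_card_filter_not _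
  have hint : ∀ a ∈ R, IsIntegral K a := fun a ha =>
    isAlgebraic_iff_isIntegral.1 ⟨w, hw, (hRmem a).1 ha⟩
  set 𝒬 : Finset K[X] := T'.image (minpoly K) with h𝒬
  have hq : ∀ q ∈ 𝒬, Irreducible q ∧ q.Monic ∧ q.Separable ∧ 2 ≤ q.natDegree ∧ q ∣ w := by
    intro q hq
    rw [h𝒬, Finset.mem_image] at hq
    obtain ⟨a, ha, rfl⟩ := hq
    rw [hT', Finset.mem_filter] at ha
    obtain ⟨ha₀, haK⟩ := ha
    rw [hT₀, Finset.mem_filter] at ha₀
    obtain ⟨haR, haT⟩ := ha₀
    have hai := hint a haR
    have hirr := minpoly.irreducible hai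
    have hdvd : minpoly K a ∣ w := minpoly.dvd K a ((hRmem a).1 haR)
    refine ⟨hirr, minpoly.monic hai, ?_, ?_, hdvd⟩
    · rw [separable_iff_derivative_ne_zero hirr]
      intro h0
      obtain ⟨v, hv⟩ := hdvd
      have h1 := (hT hι.some a (haT _)).2.2
      apply h1
      rw [hv, derivative_mul, h0, zero_mul, zero_add, map_mul, minpoly.aeval, zero_mul]
    · have h1 := minpoly.natDegree_pos hai
      by_contra h2
      have h3 : (minpoly K a).natDegree = 1 := by omega
      obtain ⟨x, hx⟩ := minpoly.natDegree_eq_one_iff.1 h3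
      exact haK ⟨x, hx⟩
  have hmin : ∀ q ∈ 𝒬, ∀ a ∈ (q.aroots Ω).toFinset, minpoly K a = q := by
    intro q hq' a ha
    rw [Multiset.mem_toFinset, mem_aroots] at ha
    exact (minpoly.eq_of_irreducible_of_monic (hq q hq').1 ha.2 (hq q hq').2.1).symm
  have hM' : ∀ q ∈ 𝒬, q.natDegree ≤
      ℓ * (((q.aroots Ω).toFinset).filter (fun a => a ∉ (⨅ i, L i : IntermediateField K Ω))).card := by
    intro q hq'
    refine (hM q (hq q hq').1 (hq q hq').2.2.1 (hq q hq').2.2.2.1).trans (le_of_eq ?_)
    congr 1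
    rw [← Set.ncard_coe_finset]
    congr 1
    ext a
    rw [rootSet_def, Set.mem_sdiff, Finset.mem_coe, Finset.mem_coe, Finset.mem_filter,
      SetLike.mem_coe]
  have hT'c : T'.card ≤ ℓ * (Fintype.card ι * B) := by
    have h1 : T' ⊆ 𝒬.biUnion (fun q => (q.aroots Ω).toFinset) := by
      intro a ha
      rw [Finset.mem_biUnion]
      refine ⟨minpoly K a, Finset.mem_image_of_mem _ ha, ?_⟩
      have haR : a ∈ R := (Finset.mem_filter.1 (Finset.mem_filter.1 ha).1).1
      rw [Multiset.mem_toFinset, mem_aroots]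
      exact ⟨minpoly.ne_zero (hint a haR), minpoly.aeval K a⟩
    have h2 : 𝒬.biUnion (fun q => ((q.aroots Ω).toFinset).filter
        (fun a => a ∉ (⨅ i, L i : IntermediateField K Ω))) ⊆ R \ T₀ := by
      intro a ha
      rw [Finset.mem_biUnion] at ha
      obtain ⟨q, hq', ha⟩ := ha
      rw [Finset.mem_filter, Multiset.mem_toFinset, mem_aroots] at ha
      obtain ⟨⟨-, ha⟩, haL⟩ := ha
      rw [Finset.mem_sdiff]
      refine ⟨?_, fun haT => haL ?_⟩
      · rw [hRmem]
        obtain ⟨v, hv⟩ := (hq q hq').2.2.2.2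
        rw [hv, map_mul, ha, zero_mul]
      · rw [hT₀, Finset.mem_filter] at haT
        rw [← SetLike.mem_coe, IntermediateField.coe_iInf, Set.mem_iInter]
        exact fun i => (hT i a (haT.2 i)).1
    calc T'.card ≤ (𝒬.biUnion (fun q => (q.aroots Ω).toFinset)).card := Finset.card_le_card h1
      _ ≤ ∑ q ∈ 𝒬, ((q.aroots Ω).toFinset).card := Finset.card_biUnion_le
      _ ≤ ∑ q ∈ 𝒬, ℓ * (((q.aroots Ω).toFinset).filter
          (fun a => a ∉ (⨅ i, L i : IntermediateField K Ω))).card := by
          refine Finset.sum_le_sum fun q hq' => ?_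
          refine ((Multiset.toFinset_card_le _).trans ((card_roots' _).trans ?_)).trans (hM' q hq')
          rw [natDegree_map]
      _ = ℓ * (𝒬.biUnion (fun q => ((q.aroots Ω).toFinset).filter
          (fun a => a ∉ (⨅ i, L i : IntermediateField K Ω)))).card := by
          rw [← Finset.mul_sum, Finset.card_biUnion]
          intro q₁ hq₁ q₂ hq₂ hne
          rw [Function.onFun, Finset.disjoint_left]
          intro a ha₁ ha₂
          rw [Finset.mem_filter] at ha₁ ha₂
          exact hne ((hmin q₁ hq₁ a ha₁.1).symm.trans (hmin q₂ hq₂ a ha₂.1))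
      _ ≤ ℓ * (R \ T₀).card := Nat.mul_le_mul_left _ (Finset.card_le_card h2)
      _ ≤ ℓ * (Fintype.card ι * B) := Nat.mul_le_mul_left _ hRT₀
  refine ⟨TK.preimage (algebraMap K Ω) (algebraMap K Ω).injective.injOn, ?_, ?_⟩
  · have h1 : (TK.preimage (algebraMap K Ω) (algebraMap K Ω).injective.injOn).card = TK.card := by
      rw [Finset.card_preimage]
      congr 1
      refine Finset.filter_true_of_mem fun a ha => ?_
      exact (Finset.mem_filter.1 ha).2
    rw [h1, add_mul, one_mul]
    omega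
  · intro x hx
    rw [Finset.mem_preimage, hTK, Finset.mem_filter] at hx
    have h1 := (hT hι.some _ ((Finset.mem_filter.1 hx.1).2 _)).2
    rw [aeval_algebraMap_apply, aeval_algebraMap_apply] at h1
    refine ⟨?_, ?_⟩
    · exact (map_eq_zero (algebraMap K Ω)).1 h1.1
    · exact fun h => h1.2 ((map_eq_zero (algebraMap K Ω)).2 h)

end Pool.Agent.Helper51.HI
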