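import Pool.Agent.Helper51.HI.Conj

set_option autoImplicit false

/-!
Counting rational simple roots, third version.
-/

namespace Pool.Agent.Helper51.HI

open Polynomial Filter IntermediateField Module

variable {K : Type*} [Field K] {Ω : Type*} [Field Ω] [Algebra K Ω]

theorem coprime_of_ne {q₁ q₂ : K[X]} (h₁ : Irreducible q₁) (h₂ : Irreducible q₂) (m₁ : q₁.Monic)
    (m₂ : q₂.Monic) (hne : q₁ ≠ q₂) : IsCoprime q₁ q₂ := by
  rcases h₁.isCoprime_or_dvd q₂ with h | h
  · exact h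
  · exact absurd (eq_of_monic_of_associated m₁ m₂ ((h₁.dvd_irreducible_iff_associated h₂).1 h)) hne

theorem sr_of_splits {F : Type*} [Field F] [Algebra K F] (w : K[X]) (hsep : w.Separable)
    (hs : (w.map (algebraMap K F)).Splits) : SR F w w.natDegree := by
  classical
  refine ⟨(w.rootSet F).toFinset, ?_, ?_⟩
  · rw [Set.toFinset_card, card_rootSet_eq_natDegree hsep hs]
  · intro a ha
    rw [Set.mem_toFinset] at ha
    have h0 : aeval a w = 0 := aeval_eq_zero_of_mem_rootSet ha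
    exact ⟨h0, hsep.aeval_derivative_ne_zero h0⟩

theorem count3 {ι : Type*} [Fintype ι] (w : K[X]) (hw : w ≠ 0) (c B D : ℕ)
    (hdeg : w.natDegree ≤ c + B) (L : ι → IntermediateField K Ω) (hSR : ∀ i, SR (L i) w c)
    (N : IntermediateField K Ω) [FiniteDimensional K N] [IsGalois K N] (hNL : ∀ i, N ≤ L i)
    (p k : ℕ) (hp : p.Prime) (hpk : finrank K N = p ^ k)
    (hE : ∀ q : K[X], Irreducible q → q.Separable → (∃ a ∈ q.rootSet Ω, a ∉ N) →
      ∃ a ∈ q.rootSet Ω, a ∉ (⨅ i, L i : IntermediateField K Ω))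
    (hD : ∀ q : K[X], Irreducible q → q.Separable → (∃ a ∈ q.rootSet Ω, a ∉ N) →
      (q.rootSet Ω \ ((⨅ i, L i : IntermediateField K Ω) : Set Ω)).ncard ≤ Fintype.card ι * B →
      q.natDegree ≤ D) (hι : Nonempty ι) :
    ∃ (s : Finset K) (w₁ w₂ : K[X]), w = w₁ * w₂ ∧
      c ≤ s.card + w₁.natDegree + (D + 1) * (Fintype.card ι * B) ∧
      (∀ x ∈ s, w.eval x = 0 ∧ (derivative w).eval x ≠ 0) ∧ w₁.Monic ∧ w₁.Separable ∧
      (∀ x : K, w₁.eval x ≠ 0) ∧ (∀ i, (w₁.map (algebraMap K (L i))).Splits) ∧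
      p ∣ w₁.natDegree := by
  classical
  choose s hs hroot using hSR
  let T : ι → Finset Ω := fun i => (s i).map ⟨algebraMap (L i) Ω, (algebraMap (L i) Ω).injective⟩
  have hTc : ∀ i, c ≤ (T i).card := fun i => by rw [Finset.card_map]; exact hs i
  have hT : ∀ i, ∀ a ∈ T i, a ∈ L i ∧ aeval a w = 0 ∧ aeval a (derivative w) ≠ 0 := by
    intro i a ha
    rw [Finset.mem_map] at ha
    obtain ⟨b, hb, rfl⟩ := ha
    refine ⟨b.2, ?_, ?_⟩
    · have := (hroot i b hb).1
      show aeval (algebraMap (L i) Ω b) w = 0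
      rw [aeval_algebraMap_apply, this, map_zero]
    · have := (hroot i b hb).2
      show aeval (algebraMap (L i) Ω b) (derivative w) ≠ 0
      rw [aeval_algebraMap_apply]
      exact (_root_.map_ne_zero _).2 this
  set R : Finset Ω := (w.aroots Ω).toFinset with hR
  have hRmem : ∀ a, a ∈ R ↔ aeval a w = 0 := by
    intro a
    rw [hR, Multiset.mem_toFinset, mem_aroots]
    exact ⟨fun h => h.2, fun h => ⟨hw, h⟩⟩
  have hRc : R.card ≤ c + B := by
    refine (Multiset.toFinset_card_le _).trans ((card_roots' _).trans ?_)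
    rw [natDegree_map]
    exact hdeg
  have hTR : ∀ i, T i ⊆ R := fun i a ha => (hRmem a).2 (hT i a ha).2.1
  have hRT : ∀ i, (R \ T i).card ≤ B := by
    intro i
    rw [Finset.card_sdiff_of_subset (hTR i)]
    have := hTc i
    omega
  set T₀ : Finset Ω := R.filter (fun a => ∀ i, a ∈ T i) with hT₀
  have hRT₀ : (R \ T₀).card ≤ Fintype.card ι * B := by
    have h1 : R \ T₀ ⊆ Finset.univ.biUnion (fun i => R \ T i) := by
      intro a ha
      rw [Finset.mem_sdiff, hT₀, Finset.mem_filter, not_and] at ha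
      obtain ⟨i, hi⟩ := not_forall.1 (ha.2 ha.1)
      rw [Finset.mem_biUnion]
      exact ⟨i, Finset.mem_univ i, Finset.mem_sdiff.2 ⟨ha.1, hi⟩⟩
    refine (Finset.card_le_card h1).trans (Finset.card_biUnion_le.trans ?_)
    refine (Finset.sum_le_card_nsmul _ _ B fun i _ => hRT i).trans ?_
    rw [Finset.card_univ, smul_eq_mul]
  have hT₀c : c ≤ T₀.card + Fintype.card ι * B := by
    have h1 : c ≤ R.card := (hTc hι.some).trans (Finset.card_le_card (hTR _))
    have hsub : T₀ ⊆ R := Finset.filter_subset _ _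
    have h2 : (R \ T₀).card + T₀.card = R.card := Finset.card_sdiff_add_card_eq_card hsub
    omega
  set TK := T₀.filter (fun a => ∃ x : K, algebraMap K Ω x = a) with hTK
  set T' := T₀.filter (fun a => ¬ ∃ x : K, algebraMap K Ω x = a) with hT'
  have hsplit : TK.card + T'.card = T₀.card := Finset.card_filter_add_card_filter_not _
  set T₁ := T'.filter (fun a => a ∈ N) with hT₁
  set T₂ := T'.filter (fun a => ¬ a ∈ N) with hT₂
  have hsplit' : T₁.card + T₂.card = T'.card := Finset.card_filter_add_card_filter_not _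
  have hint : ∀ a ∈ R, IsIntegral K a := fun a ha =>
    isAlgebraic_iff_isIntegral.1 ⟨w, hw, (hRmem a).1 ha⟩
  have hT'R : ∀ a ∈ T', a ∈ T₀ ∧ a ∈ R := fun a ha =>
    ⟨(Finset.mem_filter.1 ha).1, (Finset.mem_filter.1 (Finset.mem_filter.1 ha).1).1⟩
  have hq' : ∀ a ∈ T', Irreducible (minpoly K a) ∧ (minpoly K a).Monic ∧
      (minpoly K a).Separable ∧ (minpoly K a).natDegree ≠ 1 ∧ minpoly K a ∣ w := by
    intro a ha
    obtain ⟨ha₀, haR⟩ := hT'R a ha
    have haT := (Finset.mem_filter.1 ha₀).2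
    have haK := (Finset.mem_filter.1 ha).2
    have hai := hint a haR
    have hirr := minpoly.irreducible hai
    have hdvd : minpoly K a ∣ w := minpoly.dvd K a ((hRmem a).1 haR)
    refine ⟨hirr, minpoly.monic hai, ?_, ?_, hdvd⟩
    · rw [separable_iff_derivative_ne_zero hirr]
      intro h0
      obtain ⟨v, hv⟩ := hdvd
      have h1 := (hT hι.some a (haT _)).2.2
      apply h1
      rw [hv, derivative_mul, h0, zero_mul, zero_add, map_mul, minpoly.aeval, zero_mul]
    · intro h3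
      obtain ⟨x, hx⟩ := minpoly.natDegree_eq_one_iff.1 h3
      exact haK ⟨x, hx⟩
  -- the totally split part
  set 𝒬₁ : Finset K[X] := T₁.image (minpoly K) with h𝒬₁
  have hq₁ : ∀ q ∈ 𝒬₁, Irreducible q ∧ q.Monic ∧ q.Separable ∧ q.natDegree ≠ 1 ∧ q ∣ w ∧
      q.natDegree ∣ p ^ k ∧ (q.map (algebraMap K N)).Splits := by
    intro q hq
    rw [h𝒬₁, Finset.mem_image] at hq
    obtain ⟨a, ha, rfl⟩ := hq
    rw [hT₁, Finset.mem_filter] at ha
    obtain ⟨h1, h2, h3, h4, h5⟩ := hq' a ha.1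
    have h6 : minpoly K a = minpoly K (⟨a, ha.2⟩ : N) := by
      have := minpoly.algebraMap_eq (A := K) (B := N) (B' := Ω) (algebraMap N Ω).injective ⟨a, ha.2⟩
      rw [← this]
      rfl
    refine ⟨h1, h2, h3, h4, h5, ?_, ?_⟩
    · rw [h6, ← hpk]
      exact minpoly.degree_dvd (Algebra.IsIntegral.isIntegral (⟨a, ha.2⟩ : N))
    · rw [h6]
      exact Normal.splits inferInstance _
  have hcop : (𝒬₁ : Set K[X]).Pairwise (Function.onFun IsCoprime id) := by
    intro q₁ h₁ q₂ h₂ hne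
    exact coprime_of_ne (hq₁ q₁ h₁).1 (hq₁ q₂ h₂).1 (hq₁ q₁ h₁).2.1 (hq₁ q₂ h₂).2.1 hne
  have hw₁dvd : ∏ q ∈ 𝒬₁, q ∣ w := Finset.prod_dvd_of_coprime hcop fun q hq => (hq₁ q hq).2.2.2.2.1
  obtain ⟨w₂, hw₂⟩ := hw₁dvd
  set w₁ := ∏ q ∈ 𝒬₁, q with hw₁
  have hw₁mon : w₁.Monic := monic_prod_of_monic _ _ fun q hq => (hq₁ q hq).2.1
  have hw₁0 : w₁ ≠ 0 := hw₁mon.ne_zero
  have hT₁c : T₁.card ≤ w₁.natDegree := by
    have h1 : T₁ ⊆ (w₁.aroots Ω).toFinset := by
      intro a ha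
      rw [Multiset.mem_toFinset, mem_aroots]
      refine ⟨hw₁0, ?_⟩
      have h2 : minpoly K a ∣ w₁ := Finset.dvd_prod_of_mem _ (Finset.mem_image_of_mem _ ha)
      obtain ⟨v, hv⟩ := h2
      rw [hv, map_mul, minpoly.aeval, zero_mul]
    refine (Finset.card_le_card h1).trans ((Multiset.toFinset_card_le _).trans
      ((card_roots' _).trans ?_))
    rw [natDegree_map]
  -- the rest
  set 𝒬 : Finset K[X] := T₂.image (minpoly K) with h𝒬
  have hq : ∀ q ∈ 𝒬, Irreducible q ∧ q.Monic ∧ q.Separable ∧ (∃ a ∈ q.rootSet Ω, a ∉ N) ∧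
      q ∣ w := by
    intro q hq
    rw [h𝒬, Finset.mem_image] at hq
    obtain ⟨a, ha, rfl⟩ := hq
    rw [hT₂, Finset.mem_filter] at ha
    obtain ⟨h1, h2, h3, h4, h5⟩ := hq' a ha.1
    refine ⟨h1, h2, h3, ⟨a, ?_, ha.2⟩, h5⟩
    rw [mem_rootSet]
    exact ⟨h1.ne_zero, minpoly.aeval K a⟩
  have hmin : ∀ q ∈ 𝒬, ∀ a ∈ (q.aroots Ω).toFinset, minpoly K a = q := by
    intro q hq' a ha
    rw [Multiset.mem_toFinset, mem_aroots] at ha
    exact (minpoly.eq_of_irreducible_of_monic (hq q hq').1 ha.2 (hq q hq').2.1).symm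
  set Z : K[X] → Finset Ω := fun q => ((q.aroots Ω).toFinset).filter
    (fun a => a ∉ (⨅ i, L i : IntermediateField K Ω)) with hZ
  have hZc : ∀ q, (q.rootSet Ω \ ((⨅ i, L i : IntermediateField K Ω) : Set Ω)).ncard =
      (Z q).card := by
    intro q
    rw [← Set.ncard_coe_finset]
    congr 1
    ext a
    rw [rootSet_def, Set.mem_sdiff, Finset.mem_coe, Finset.mem_coe, hZ, Finset.mem_filter,
      SetLike.mem_coe]
  have hZsub : ∀ q ∈ 𝒬, Z q ⊆ R \ T₀ := by
    intro q hq' a ha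
    rw [hZ, Finset.mem_filter, Multiset.mem_toFinset, mem_aroots] at ha
    obtain ⟨⟨-, ha⟩, haL⟩ := ha
    rw [Finset.mem_sdiff]
    refine ⟨?_, fun haT => haL ?_⟩
    · rw [hRmem]
      obtain ⟨v, hv⟩ := (hq q hq').2.2.2.2
      rw [hv, map_mul, ha, zero_mul]
    · rw [hT₀, Finset.mem_filter] at haT
      rw [← SetLike.mem_coe, IntermediateField.coe_iInf, Set.mem_iInter]
      exact fun i => (hT i a (haT.2 i)).1
  have hZdisj : (𝒬 : Set K[X]).PairwiseDisjoint Z := by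
    intro q₁ hq₁ q₂ hq₂ hne
    rw [Function.onFun, Finset.disjoint_left]
    intro a ha₁ ha₂
    rw [hZ, Finset.mem_filter] at ha₁ ha₂
    exact hne ((hmin q₁ hq₁ a ha₁.1).symm.trans (hmin q₂ hq₂ a ha₂.1))
  have hZpos : ∀ q ∈ 𝒬, 1 ≤ (Z q).card := by
    intro q hq'
    obtain ⟨a, ha, haL⟩ := hE q (hq q hq').1 (hq q hq').2.2.1 (hq q hq').2.2.2.1
    rw [Nat.succ_le_iff, Finset.card_pos]
    refine ⟨a, ?_⟩
    rw [hZ, Finset.mem_filter, Multiset.mem_toFinset]
    rw [rootSet_def, Finset.mem_coe, Multiset.mem_toFinset] at ha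
    exact ⟨ha, haL⟩
  have h𝒬c : 𝒬.card ≤ Fintype.card ι * B := by
    calc 𝒬.card = ∑ _q ∈ 𝒬, 1 := by rw [Finset.sum_const, smul_eq_mul, mul_one]
      _ ≤ ∑ q ∈ 𝒬, (Z q).card := Finset.sum_le_sum hZpos
      _ = (𝒬.biUnion Z).card := (Finset.card_biUnion hZdisj).symm
      _ ≤ (R \ T₀).card := Finset.card_le_card (Finset.biUnion_subset.2 hZsub)
      _ ≤ _ := hRT₀
  have hdegq : ∀ q ∈ 𝒬, q.natDegree ≤ D := by
    intro q hq'
    apply hD q (hq q hq').1 (hq q hq').2.2.1 (hq q hq').2.2.2.1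
    rw [hZc]
    exact (Finset.card_le_card (hZsub q hq')).trans hRT₀
  have hT₂c : T₂.card ≤ D * (Fintype.card ι * B) := by
    have h1 : T₂ ⊆ 𝒬.biUnion (fun q => (q.aroots Ω).toFinset) := by
      intro a ha
      rw [Finset.mem_biUnion]
      refine ⟨minpoly K a, Finset.mem_image_of_mem _ ha, ?_⟩
      have haR : a ∈ R := (hT'R a (Finset.mem_filter.1 ha).1).2
      rw [Multiset.mem_toFinset, mem_aroots]
      exact ⟨minpoly.ne_zero (hint a haR), minpoly.aeval K a⟩
    calc T₂.card ≤ (𝒬.biUnion (fun q => (q.aroots Ω).toFinset)).card := Finset.card_le_card h1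
      _ ≤ ∑ q ∈ 𝒬, ((q.aroots Ω).toFinset).card := Finset.card_biUnion_le
      _ ≤ ∑ _q ∈ 𝒬, D := by
          refine Finset.sum_le_sum fun q hq' => ?_
          refine ((Multiset.toFinset_card_le _).trans ((card_roots' _).trans ?_)).trans
            (hdegq q hq')
          rw [natDegree_map]
      _ = D * 𝒬.card := by rw [Finset.sum_const, smul_eq_mul, mul_comm]
      _ ≤ D * (Fintype.card ι * B) := Nat.mul_le_mul_left _ h𝒬c
  refine ⟨TK.preimage (algebraMap K Ω) (algebraMap K Ω).injective.injOn, w₁, w₂, hw₂, ?_, ?_,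
    hw₁mon, ?_, ?_, ?_, ?_⟩
  · have h1 : (TK.preimage (algebraMap K Ω) (algebraMap K Ω).injective.injOn).card = TK.card := by
      rw [Finset.card_preimage]
      congr 1
      refine Finset.filter_true_of_mem fun a ha => ?_
      exact (Finset.mem_filter.1 ha).2
    rw [h1, add_mul, one_mul]
    omega
  · intro x hx
    rw [Finset.mem_preimage, hTK, Finset.mem_filter] at hx
    have h1 := (hT hι.some _ ((Finset.mem_filter.1 hx.1).2 _)).2
    rw [aeval_algebraMap_apply, aeval_algebraMap_apply] at h1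
    refine ⟨?_, ?_⟩
    · exact (map_eq_zero (algebraMap K Ω)).1 h1.1
    · exact fun h => h1.2 ((map_eq_zero (algebraMap K Ω)).2 h)
  · rw [hw₁]
    exact separable_prod' (fun q₁ h₁ q₂ h₂ hne => hcop h₁ h₂ hne) fun q hq => (hq₁ q hq).2.2.1
  · intro x hx
    rw [hw₁, eval_prod, Finset.prod_eq_zero_iff] at hx
    obtain ⟨q, hq, hqx⟩ := hx
    exact (hq₁ q hq).2.2.2.1 (natDegree_eq_of_degree_eq_some
      (degree_eq_one_of_irreducible_of_root (hq₁ q hq).1 hqx))
  · intro i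
    rw [hw₁, Polynomial.map_prod]
    refine Splits.prod fun q hq => ?_
    have h1 := (hq₁ q hq).2.2.2.2.2.2
    have h2 := h1.map (inclusion (hNL i)).toRingHom
    rw [Polynomial.map_map] at h2
    exact h2
  · rw [hw₁, natDegree_prod_of_monic _ _ fun q hq => (hq₁ q hq).2.1]
    refine Finset.dvd_sum fun q hq => ?_
    obtain ⟨j, hj, hj'⟩ := (Nat.dvd_prime_pow hp).1 (hq₁ q hq).2.2.2.2.2.1
    rw [hj']
    refine dvd_pow_self p ?_
    rintro rfl
    rw [pow_zero] at hj'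
    exact (hq₁ q hq).2.2.2.1 hj'

end Pool.Agent.Helper51.HI
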