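import Pool.Agent.Helper51.HI.Gal

set_option autoImplicit false

/-!
A criterion for `Esc`.
-/

namespace Pool.Agent.Helper51.HI

open Polynomial IntermediateField MulAction Module

variable {K : Type*} [Field K] {Ω : Type*} [Field Ω] [Algebra K Ω] [IsAlgClosed Ω]
  [Algebra.IsAlgebraic K Ω]

/-- the splitting field inside `Ω` -/
theorem galois_adjoin (q : K[X]) (hsep : q.Separable) :
    FiniteDimensional K (adjoin K (q.rootSet Ω)) ∧ IsGalois K (adjoin K (q.rootSet Ω)) ∧
      (q.map (algebraMap K (adjoin K (q.rootSet Ω)))).Splits := by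
  have hs : (q.map (algebraMap K Ω)).Splits := IsAlgClosed.splits _
  have h1 : IsSplittingField K (adjoin K (q.rootSet Ω)) q :=
    adjoin_rootSet_isSplittingField hs
  exact ⟨IsSplittingField.finiteDimensional _ q, IsGalois.of_separable_splitting_field hsep,
    h1.splits⟩

theorem esc_of (L : IntermediateField K Ω)
    (hi : ∀ E : IntermediateField K Ω, FiniteDimensional K E → IsGalois K E → E ≤ L → E = ⊥)
    (hA : ∀ B : ℕ, ∃ N : ℕ, ∀ q : K[X], Irreducible q → q.Separable → N ≤ q.natDegree →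
      (q.rootSet Ω \ (L : Set Ω)).ncard ≤ B →
      ∀ [DecidableEq (q.rootSet Ω)] [Fintype (q.rootSet Ω)],
        ¬ alternatingGroup (q.rootSet Ω) ≤ (toPermHom (Ω ≃ₐ[K] Ω) (q.rootSet Ω)).range) :
    Esc L := by
  classical
  have ha : ∀ q : K[X], Irreducible q → q.Separable → 2 ≤ q.natDegree →
      ∃ a ∈ q.rootSet Ω, a ∉ L := by
    intro q hq hsep hdeg
    by_contra hcon
    push Not at hcon
    obtain ⟨h1, h2, h3⟩ := galois_adjoin (Ω := Ω) q hsep
    have h4 := hi _ h1 h2 (adjoin_le_iff.2 hcon)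
    obtain ⟨α, hα⟩ : ∃ α : Ω, aeval α q = 0 :=
      IsAlgClosed.exists_aeval_eq_zero Ω q
        (degree_ne_of_natDegree_ne (n := 0) (by omega))
    have hα' : α ∈ q.rootSet Ω := by
      rw [mem_rootSet]
      exact ⟨hq.ne_zero, hα⟩
    have h5 : α ∈ (⊥ : IntermediateField K Ω) := h4 ▸ subset_adjoin K _ hα'
    rw [IntermediateField.mem_bot] at h5
    obtain ⟨x, rfl⟩ := h5
    have h6 : q.IsRoot x := by
      rw [IsRoot.def]
      apply (algebraMap K Ω).injective
      rw [map_zero, ← aeval_algebraMap_apply_eq_algebraMap_eval]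
      exact hα
    have h7 : q.natDegree = 1 :=
      natDegree_eq_of_degree_eq_some (degree_eq_one_of_irreducible_of_root hq h6)
    omega
  refine ⟨ha, fun B => ?_⟩
  obtain ⟨N, hN⟩ := hA B
  refine ⟨B * (N + NJ B + 1) + 2, fun q hq hsep hdeg hB => ?_⟩
  by_contra hlt
  rw [not_le] at hlt
  obtain ⟨h1, h2, h3⟩ := galois_adjoin (Ω := Ω) q hsep
  set M := adjoin K (q.rootSet Ω) with hM
  set LM : IntermediateField K M := L.comap M.val with hLM
  have himg : ∀ r : K[X], (r.map (algebraMap K M)).Splits →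
      (M.val : M → Ω) '' (r.rootSet M) = r.rootSet Ω := fun r hr => hr.image_rootSet M.val
  have hmemLM : ∀ x : M, x ∈ LM ↔ (x : Ω) ∈ L := fun x => Iff.rfl
  have hE : ∀ r : K[X], Irreducible r → r.Separable → (r.map (algebraMap K M)).Splits →
      2 ≤ r.natDegree → ∃ a ∈ r.rootSet M, a ∉ LM := by
    intro r hr hrs hrsp hrd
    obtain ⟨a, haR, haL⟩ := ha r hr hrs hrd
    rw [← himg r hrsp] at haR
    obtain ⟨b, hb, rfl⟩ := haR
    exact ⟨b, hb, haL⟩
  have hcard : ∀ r : K[X], (r.map (algebraMap K M)).Splits →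
      (r.rootSet Ω \ (L : Set Ω)).ncard = (r.rootSet M \ (LM : Set M)).ncard := by
    intro r hr
    rw [← Set.ncard_image_of_injective _ (M.val.injective)]
    congr 1
    rw [← himg r hr]
    ext x
    constructor
    · rintro ⟨⟨y, hy, rfl⟩, hx⟩
      exact ⟨y, ⟨hy, hx⟩, rfl⟩
    · rintro ⟨y, ⟨hy, hx⟩, rfl⟩
      exact ⟨⟨y, hy, rfl⟩, hx⟩
  obtain ⟨r, hr, hrsep, hrs, hrd, hrB, hrA⟩ := finite_core LM hE q hq hsep h3 B N
    ((hcard q h3).symm ▸ hB) hlt.le
  refine hN r hr hrsep hrd ((hcard r hrs).symm ▸ hrB) ?_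
  -- transport
  let e : r.rootSet M ≃ r.rootSet Ω :=
    Equiv.ofBijective (fun x => ⟨M.val x, by rw [← himg r hrs]; exact ⟨x, x.2, rfl⟩⟩) (by
      constructor
      · intro x y hxy
        exact Subtype.ext (M.val.injective (congrArg (fun z : r.rootSet Ω => (z : Ω)) hxy))
      · rintro ⟨y, hy⟩
        rw [← himg r hrs] at hy
        obtain ⟨x, hx, rfl⟩ := hy
        exact ⟨⟨x, hx⟩, rfl⟩)
  have he : ∀ x : r.rootSet M, ((e x : r.rootSet Ω) : Ω) = ((x : M) : Ω) := fun x => rfl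
  intro π hπ
  have hπ' : (e.permCongr.symm π) ∈ alternatingGroup (r.rootSet M) := by
    rw [Equiv.Perm.mem_alternatingGroup] at hπ ⊢
    rw [← hπ]
    exact Equiv.Perm.sign_permCongr e.symm π
  obtain ⟨τ, hτ⟩ := hrA hπ'
  have : Normal K Ω := by
    have : IsAlgClosure K Ω := ⟨inferInstance, inferInstance⟩
    exact IsAlgClosure.normal K Ω
  refine ⟨τ.liftNormal Ω, ?_⟩
  ext x
  obtain ⟨y, rfl⟩ := e.surjective x
  have h5 : (toPermHom (M ≃ₐ[K] M) (r.rootSet M)) τ y = e.symm (π (e y)) := by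
    rw [hτ]
    rfl
  have h6 : e (τ • y) = π (e y) := by
    have h7 : τ • y = e.symm (π (e y)) := h5
    rw [h7, Equiv.apply_symm_apply]
  rw [← h6, he]
  show (τ.liftNormal Ω) ((y : M) : Ω) = ((τ y : M) : Ω)
  exact AlgEquiv.liftNormal_commutes τ Ω (y : M)

end Pool.Agent.Helper51.HI
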