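import Pool.Agent.Helper51.HI.Count3

set_option autoImplicit false

/-!
Many simple roots of a resultant of full degree.
-/

namespace Pool.Agent.Helper51.HI

open Polynomial Filter

variable {K : Type*} [Field K]

theorem eventually_eval_ne [Infinite K] (t : K[X]) (ht : t ≠ 0) :
    ∀ᶠ δ in (cofinite : Filter K), t.eval δ ≠ 0 := by
  classical
  rw [eventually_cofinite]
  refine (t.roots.toFinset.finite_toSet).subset fun δ hδ => ?_
  rw [Finset.mem_coe, Multiset.mem_toFinset, mem_roots ht]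
  simpa using hδ

/-- a polynomial whose resultant with `f` has maximal degree -/
theorem exists_top [Infinite K] (f : K[X][X]) (n : ℕ) (hf : f.natDegree = n + 1) (A N : ℕ)
    (hA : ∀ i, (f.coeff i).natDegree ≤ A) (hA' : ∃ i, (f.coeff i).coeff A ≠ 0) :
    ∃ H : K[X][X], Bd n N H ∧ (resultant f H (n + 1) n).coeff ((n + 1) * N + n * A) ≠ 0 := by
  classical
  -- the leading form
  set fA : K[X] := ∑ i ∈ Finset.range (n + 2), C ((f.coeff i).coeff A) * X ^ i with hfA
  have hcoeff : ∀ i ≤ n + 1, fA.coeff i = (f.coeff i).coeff A := by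
    intro i hi
    rw [hfA, finsetSum_coeff, Finset.sum_eq_single i]
    · rw [coeff_C_mul, coeff_X_pow, if_pos rfl, mul_one]
    · intro j _ hj
      rw [coeff_C_mul, coeff_X_pow, if_neg (fun h => hj h.symm), mul_zero]
    · intro h
      exact absurd (Finset.mem_range.2 (by omega)) h
  have hfA0 : fA ≠ 0 := by
    obtain ⟨i, hi⟩ := hA'
    have hi' : i ≤ n + 1 := by
      by_contra h
      apply hi
      rw [coeff_eq_zero_of_natDegree_lt (p := f) (by omega), coeff_zero]
    intro h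
    apply hi
    rw [← hcoeff i hi', h, coeff_zero]
  obtain ⟨c, hc⟩ : ∃ c : K, fA.eval c ≠ 0 := by
    by_contra h
    push Not at h
    exact hfA0 (Polynomial.funext fun x => by rw [h x, eval_zero])
  have hev : f.eval (C c) = ∑ i ∈ Finset.range (n + 2), f.coeff i * C c ^ i := by
    rw [eval_eq_sum_range, hf]
  have hevA : (f.eval (C c)).coeff A = fA.eval c := by
    rw [hev, finsetSum_coeff, hfA, eval_finsetSum]
    refine Finset.sum_congr rfl fun i _ => ?_
    rw [← C_pow, coeff_mul_C, eval_mul, eval_C, eval_pow, eval_X]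
  have hevd : (f.eval (C c)).natDegree ≤ A := by
    rw [hev]
    refine natDegree_sum_le_of_forall_le _ _ fun i _ => ?_
    rw [← C_pow]
    exact (natDegree_mul_C_le _ _).trans (hA i)
  have hXc : ((X - C (C c)) ^ n : K[X][X]).natDegree = n := by
    rw [natDegree_pow, natDegree_X_sub_C, mul_one]
  refine ⟨C (X ^ N) * (X - C (C c)) ^ n, ⟨(natDegree_C_mul_le _ _).trans hXc.le, fun i => ?_⟩, ?_⟩
  · have h1 : ((X - C (C c)) ^ n : K[X][X]) = ((X - C c) ^ n : K[X]).map C := by
      rw [Polynomial.map_pow, Polynomial.map_sub, map_X, map_C]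
    rw [coeff_C_mul, h1, coeff_map]
    exact (natDegree_mul_C_le _ _).trans (natDegree_X_pow_le N)
  · rw [resultant_C_mul_right, resultant_X_sub_C_pow_right f (C c) (n + 1) n hf.le, ← pow_mul,
      mul_comm N (n + 1), coeff_X_pow_mul', if_pos (Nat.le_add_right _ _), Nat.add_sub_cancel_left]
    have h2 : ((-1 : K[X]) ^ ((n + 1) * n)) = C ((-1 : K) ^ ((n + 1) * n)) := by
      rw [C_pow, C_neg, C_1]
    rw [h2, coeff_C_mul, coeff_pow_of_natDegree_le hevd, hevA]
    exact mul_ne_zero (pow_ne_zero _ (by norm_num)) (pow_ne_zero _ hc)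

/-- a generic member of a pencil has a resultant of maximal degree -/
theorem pencil_top [Infinite K] (f G H : K[X][X]) (n W : ℕ)
    (hH : (resultant f H (n + 1) n).coeff W ≠ 0) :
    ∀ᶠ δ in (cofinite : Filter K), (resultant f (G + C (C δ) * H) (n + 1) n).coeff W ≠ 0 := by
  obtain ⟨Φ, hΦ⟩ := pencil f G H (n + 1) n
  obtain ⟨Ψ, hΨ⟩ := pencil f H G (n + 1) n
  have hev : ∀ δ : K, (Φ.coeff W).eval δ =
      (resultant f (G + C (C δ) * H) (n + 1) n).coeff W := by
    intro δ
    rw [← hΦ, coeff_map, coe_evalRingHom]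
  have hev' : ∀ δ : K, (Ψ.coeff W).eval δ =
      (resultant f (H + C (C δ) * G) (n + 1) n).coeff W := by
    intro δ
    rw [← hΨ, coeff_map, coe_evalRingHom]
  have hne : Φ.coeff W ≠ 0 := by
    intro h
    apply hH
    have h1 : Ψ.coeff W * X = 0 := by
      apply Polynomial.funext
      intro μ
      rw [eval_mul, eval_X, eval_zero, hev']
      rcases eq_or_ne μ 0 with rfl | hμ
      · rw [mul_zero]
      · have h2 : H + C (C μ) * G = C (C μ) * (G + C (C μ⁻¹) * H) := by
          rw [mul_add, ← mul_assoc, ← C_mul, ← C_mul, mul_inv_cancel₀ hμ, C_1, C_1, one_mul,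
            add_comm]
        rw [h2, resultant_C_mul_right, ← C_pow, coeff_C_mul, ← hev, h, eval_zero, mul_zero,
          zero_mul]
    have h3 : Ψ.coeff W = 0 := (mul_eq_zero.1 h1).resolve_right X_ne_zero
    have h4 := hev' 0
    rw [h3, eval_zero, C_0, C_0, zero_mul, add_zero] at h4
    exact h4.symm
  filter_upwards [eventually_eval_ne _ hne] with δ hδ
  rw [← hev]
  exact hδ

/-- many simple roots, full degree -/
theorem exists_full [Infinite K] (f : K[X][X]) (n : ℕ) (hirr : Irreducible f)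
    (hf : f.natDegree = n + 1) (hn : 1 ≤ n) (h0 : (f.coeff 0).coeff 0 = 0)
    (h1 : (f.coeff 1).coeff 0 ≠ 0) (A : ℕ) (hA : ∀ i, (f.coeff i).natDegree ≤ A)
    (hA' : ∃ i, (f.coeff i).coeff A ≠ 0)
    (ℱ : Filter K) [ℱ.NeBot] (hcof : ℱ ≤ cofinite) {ι : Type*} [Finite ι] (F : ι → Type*)
    [∀ i, Field (F i)] [∀ i, Algebra K (F i)] (hpers : ∀ i, Pers ℱ (F i)) (M : ℕ) :
    ∃ G : K[X][X], Bd n (M + n * A + 1) G ∧ (resultant f G (n + 1) n).coeff 0 ≠ 0 ∧
      (resultant f G (n + 1) n).natDegree = (n + 1) * (M + n * A + 1) + n * A ∧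
      ∀ i, SR (F i) (resultant f G (n + 1) n) ((n + 1) * M + n * A) := by
  obtain ⟨N, p, hN, hp, hpf, hord, G₀, hG₀, hG₀p, hG₀0⟩ := exists_data f n hirr hf hn h0 h1 A hA M
  set c := (n + 1) * M + n * A with hc
  have hcQ : c < (n + 1) * N + n * A + 1 := by
    rw [hN, hc]
    have : (n + 1) * (M + n * A + 1) = (n + 1) * M + (n + 1) * (n * A + 1) := by ring
    omega
  have hΨ₀ : (resultant (f /ₘ (X - C p)) G₀ n n).coeff 0 ≠ 0 := by
    rw [coeff_zero_eq_eval_zero]
    have h2 : (resultant (f /ₘ (X - C p)) G₀ n n).eval 0 =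
        resultant ((f /ₘ (X - C p)).map (evalRingHom 0)) (G₀.map (evalRingHom 0)) n n := by
      rw [resultant_map_map]
      rfl
    have hgd : ((f /ₘ (X - C p)).map (evalRingHom 0)).natDegree ≤ n := by
      refine natDegree_map_le.trans ?_
      rw [(resultant_congr f G₀ n hf hG₀.deg p _ hpf).1]
    rw [h2, hG₀0, resultant_X_pow_right _ _ _ hgd, residual_coeff f p hp h0]
    exact mul_ne_zero (pow_ne_zero _ (by norm_num)) (pow_ne_zero _ h1)
  have key : ∀ j ≤ c, ∃ (G : K[X][X]) (w : K[X]), Bd n N G ∧ X ^ (c - j) ∣ G.eval p ∧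
      (resultant (f /ₘ (X - C p)) G n n).coeff 0 ≠ 0 ∧
      resultant f G (n + 1) n = X ^ (c - j) * w ∧ w.coeff 0 ≠ 0 ∧ ∀ i, SR (F i) w j := by
    intro j hj
    induction j with
    | zero =>
      obtain ⟨H, hH, hH1, hH2⟩ := hord c le_rfl
      obtain ⟨P, hP1, hP2⟩ := step f n hf p _ hpf c hcQ G₀ H hG₀.deg hH.deg hG₀p hH1 hH2 hΨ₀
      obtain ⟨δ, hδ⟩ := (hP2.filter_mono hcof).exists
      refine ⟨G₀ + C (C δ) * H, P.map (evalRingHom δ),
        hG₀.add ((hH.smul (C δ) (j := 0) (by simp)).mono (by omega)), ?_, hδ.2.1, ?_, hδ.2.2,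
        fun i => ⟨∅, by simp, by simp⟩⟩
      · rw [Nat.sub_zero]
        exact hδ.1
      · rw [Nat.sub_zero]
        exact hP1 δ
    | succ j ih =>
      obtain ⟨G, w, hG, hGp, hΨ, hres, hw, hSR⟩ := ih (by omega)
      obtain ⟨o, ho⟩ : ∃ o, c - j = o + 1 := ⟨c - j - 1, by omega⟩
      have ho' : c - (j + 1) = o := by omega
      rw [ho] at hGp hres
      obtain ⟨H, hH, hH1, hH2⟩ := hord o (by omega)
      obtain ⟨P, hP1, hP2⟩ := step f n hf p _ hpf o (by omega) G H hG.deg hH.deg hGp hH1 hH2 hΨ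
      have hP0 : P.map (evalRingHom 0) = X * w := by
        have h2 := hP1 0
        rw [C_0, C_0, zero_mul, add_zero, hres, pow_succ, mul_assoc] at h2
        exact (mul_left_cancel₀ (pow_ne_zero o X_ne_zero) h2).symm
      have hev : ∀ i, ∀ᶠ δ in ℱ, SR (F i) (P.map (evalRingHom δ)) (j + 1) := by
        intro i
        apply hpers i
        rw [hP0]
        exact (hSR i).X_mul hw
      obtain ⟨δ, hδ, hδ'⟩ := ((hP2.filter_mono hcof).and (eventually_all.2 hev)).exists
      refine ⟨G + C (C δ) * H, P.map (evalRingHom δ),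
        hG.add ((hH.smul (C δ) (j := 0) (by simp)).mono (by omega)), ?_, hδ.2.1, ?_, hδ.2.2, hδ'⟩
      · rw [ho']
        exact hδ.1
      · rw [ho']
        exact hP1 δ
  obtain ⟨G, w, hG, -, -, hres, hw, hSR⟩ := key c le_rfl
  rw [Nat.sub_self, pow_zero, one_mul] at hres
  obtain ⟨H, hH, hHtop⟩ := exists_top f n hf A N hA hA'
  obtain ⟨Φ, hΦ⟩ := pencil f G H (n + 1) n
  have hΦ0 : Φ.map (evalRingHom 0) = w := by
    rw [hΦ, C_0, C_0, zero_mul, add_zero, hres]
  have hev : ∀ i, ∀ᶠ δ in ℱ, SR (F i) (Φ.map (evalRingHom δ)) c := by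
    intro i
    apply hpers i
    rw [hΦ0]
    exact hSR i
  have hc0 : Φ.coeff 0 ≠ 0 := by
    intro h
    apply hw
    rw [← hΦ0, coeff_map, h, map_zero]
  have hev0 := eventually_eval_ne _ hc0
  have htop := pencil_top f G H n ((n + 1) * N + n * A) hHtop
  obtain ⟨δ, ⟨hδ1, hδ2⟩, hδ3⟩ := (((hev0.and htop).filter_mono hcof).and
    (eventually_all.2 hev)).exists
  have hbd : Bd n N (G + C (C δ) * H) :=
    hG.add ((hH.smul (C δ) (j := 0) (by simp)).mono (by omega))
  rw [← hN]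
  refine ⟨G + C (C δ) * H, hbd, ?_, ?_, fun i => ?_⟩
  · rw [← hΦ, coeff_map]
    exact hδ1
  · exact natDegree_eq_of_le_of_coeff_ne_zero
      (natDegree_resultant_le (m := n + 1) (n := n) hA hbd.coeff) hδ2
  · rw [← hΦ]
    exact hδ3 i

end Pool.Agent.Helper51.HI
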