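import Pool.Agent.Helper51.HI.Jordan
import Pool.Agent.Helper51.HI.Count2

set_option autoImplicit false

/-!
Irreducible polynomials with few roots outside a field.
-/

namespace Pool.Agent.Helper51.HI

open Polynomial IntermediateField MulAction Module

section finite

variable {K M : Type*} [Field K] [Field M] [Algebra K M] [FiniteDimensional K M] [IsGalois K M]

theorem mem_iff_fixed (L : IntermediateField K M) (x : M) :
    x ∈ L ↔ ∀ h ∈ L.fixingSubgroup, h x = x := by
  constructor
  · intro hx h hh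
    exact (IntermediateField.mem_fixingSubgroup_iff _ _).1 hh x hx
  · intro h
    rw [← IsGalois.fixedField_fixingSubgroup L, IntermediateField.mem_fixedField_iff]
    exact h

omit [FiniteDimensional K M] in
theorem pretransitive_rootSet (q : K[X]) (hq : Irreducible q) :
    IsPretransitive (M ≃ₐ[K] M) (q.rootSet M) := by
  refine ⟨fun x y => ?_⟩
  have hx : aeval (x : M) q = 0 := aeval_eq_zero_of_mem_rootSet x.2
  have hy : aeval (y : M) q = 0 := aeval_eq_zero_of_mem_rootSet y.2
  have h1 : aeval (x : M) (minpoly K (y : M)) = 0 := by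
    rw [← minpoly.eq_of_irreducible hq hy, map_mul, hx, zero_mul]
  obtain ⟨σ, hσ⟩ := minpoly.exists_algEquiv_of_root (Algebra.IsAlgebraic.isAlgebraic (y : M)) h1
  exact ⟨σ, Subtype.ext hσ⟩

theorem primitive_rootSet (β : M) (hE : IsAtom K⟮β⟯) :
    IsPreprimitive (M ≃ₐ[K] M) ((minpoly K β).rootSet M) := by
  have hint : IsIntegral K β := Algebra.IsIntegral.isIntegral β
  have := pretransitive_rootSet (M := M) (minpoly K β) (minpoly.irreducible hint)
  set b : (minpoly K β).rootSet M := ⟨β, by
    rw [mem_rootSet]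
    exact ⟨minpoly.ne_zero hint, minpoly.aeval K β⟩⟩ with hb
  have hsep : (minpoly K β).Separable := Algebra.IsSeparable.isSeparable K β
  have hsplits : ((minpoly K β).map (algebraMap K M)).Splits := Normal.splits inferInstance β
  have hnt : Nontrivial ((minpoly K β).rootSet M) := by
    rw [← Fintype.one_lt_card_iff_nontrivial, card_rootSet_eq_natDegree hsep hsplits]
    by_contra hle
    have h1 := minpoly.natDegree_pos hint
    have h2 : (minpoly K β).natDegree = 1 := by omega
    apply hE.1
    rw [IntermediateField.adjoin_simple_eq_bot_iff, IntermediateField.mem_bot]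
    exact minpoly.natDegree_eq_one_iff.1 h2
  rw [← isCoatom_stabilizer_iff_preprimitive (M ≃ₐ[K] M) b]
  have hstab : stabilizer (M ≃ₐ[K] M) b = K⟮β⟯.fixingSubgroup := by
    ext σ
    rw [mem_stabilizer_iff, IntermediateField.mem_fixingSubgroup_iff]
    constructor
    · intro h x hx
      have h1 : σ β = β := congrArg Subtype.val h
      have h2 : K⟮β⟯ ≤ fixedField (Subgroup.zpowers σ) := by
        rw [IntermediateField.adjoin_simple_le_iff, IntermediateField.mem_fixedField_iff]
        intro f hf
        obtain ⟨k, rfl⟩ := Subgroup.mem_zpowers_iff.1 hf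
        have h3 : σ ∈ stabilizer (M ≃ₐ[K] M) β := h1
        exact (stabilizer (M ≃ₐ[K] M) β).zpow_mem h3 k
      exact (IntermediateField.mem_fixedField_iff _ _).1 (h2 hx) σ (Subgroup.mem_zpowers σ)
    · intro h
      exact Subtype.ext (h β (IntermediateField.mem_adjoin_simple_self K β))
  rw [hstab]
  have h2 : IsAtom (IsGalois.intermediateFieldEquivSubgroup (F := K) (E := M) K⟮β⟯) :=
    (OrderIso.isAtom_iff _ _).2 hE
  exact isAtom_dual_iff_isCoatom.1 h2

open Classical in
theorem finite_core (L : IntermediateField K M)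
    (hE : ∀ q : K[X], Irreducible q → q.Separable → (q.map (algebraMap K M)).Splits →
      2 ≤ q.natDegree → ∃ a ∈ q.rootSet M, a ∉ L)
    (q : K[X]) (hq : Irreducible q) (hsep : q.Separable) (hs : (q.map (algebraMap K M)).Splits)
    (B N : ℕ) (hB : (q.rootSet M \ (L : Set M)).ncard ≤ B)
    (hdeg : B * (N + NJ B + 1) + 2 ≤ q.natDegree) :
    ∃ q' : K[X], Irreducible q' ∧ q'.Separable ∧ (q'.map (algebraMap K M)).Splits ∧
      N ≤ q'.natDegree ∧ (q'.rootSet M \ (L : Set M)).ncard ≤ B ∧
      ∀ [i1 : DecidableEq (q'.rootSet M)] [i2 : Fintype (q'.rootSet M)],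
        @alternatingGroup (q'.rootSet M) i2 i1 ≤
          (toPermHom (M ≃ₐ[K] M) (q'.rootSet M)).range := by
  have hq2 : 2 ≤ q.natDegree := le_trans (Nat.le_add_left _ _) hdeg
  obtain ⟨α, hα⟩ : ∃ α : M, aeval α q = 0 := by
    obtain ⟨α, hα⟩ := hs.exists_eval_eq_zero (degree_ne_of_natDegree_ne (by
      rw [natDegree_map]
      exact Nat.pos_iff_ne_zero.1 (lt_of_lt_of_le (by norm_num) hq2)))
    exact ⟨α, by rwa [eval_map_algebraMap] at hα⟩
  have hαint : IsIntegral K α := Algebra.IsIntegral.isIntegral α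
  have hminα : (minpoly K α).natDegree = q.natDegree := by
    rw [← minpoly.eq_of_irreducible hq hα, natDegree_mul_C]
    exact inv_ne_zero (leadingCoeff_ne_zero.2 hq.ne_zero)
  -- a minimal subfield
  have hfin : Finite (IntermediateField K M) :=
    Field.finite_intermediateField_of_exists_primitive_element K M
      (Field.exists_primitive_element K M)
  have hne : K⟮α⟯ ≠ ⊥ := by
    intro h
    rw [IntermediateField.adjoin_simple_eq_bot_iff, IntermediateField.mem_bot] at h
    have h1 : (minpoly K α).natDegree = 1 := minpoly.natDegree_eq_one_iff.2 h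
    omega
  obtain ⟨E, hEatom, hEle⟩ := (IsAtomic.eq_bot_or_exists_atom_le K⟮α⟯).resolve_left hne
  obtain ⟨β, rfl⟩ : ∃ β : M, K⟮β⟯ = E := by
    obtain ⟨γ, hγ⟩ := Field.exists_primitive_element_of_finite_intermediateField K M E
    exact ⟨γ, hγ⟩
  have hβint : IsIntegral K β := Algebra.IsIntegral.isIntegral β
  have hβα : β ∈ K⟮α⟯ := hEle (IntermediateField.mem_adjoin_simple_self K β)
  -- the polynomial
  obtain ⟨P, hP⟩ : ∃ P : K[X], aeval α P = β := by
    rw [← IntermediateField.mem_toSubalgebra,
      IntermediateField.adjoin_simple_toSubalgebra_of_isAlgebraic hαint.isAlgebraic,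
      Algebra.adjoin_singleton_eq_range_aeval] at hβα
    exact hβα
  set p := minpoly K β with hp
  have hpirr : Irreducible p := minpoly.irreducible hβint
  have hpsep : p.Separable := Algebra.IsSeparable.isSeparable K β
  have hpsplits : (p.map (algebraMap K M)).Splits := Normal.splits inferInstance β
  have hpdeg : 2 ≤ p.natDegree := by
    have h1 := minpoly.natDegree_pos hβint
    by_contra hlt
    have h2 : (minpoly K β).natDegree = 1 := by
      rw [← hp] at h1 ⊢
      clear hdeg
      omega
    apply hEatom.1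
    rw [IntermediateField.adjoin_simple_eq_bot_iff, IntermediateField.mem_bot]
    exact minpoly.natDegree_eq_one_iff.1 h2
  -- the map between the roots
  have htrX := pretransitive_rootSet (M := M) q hq
  have htrY := pretransitive_rootSet (M := M) p hpirr
  have hαX : α ∈ q.rootSet M := by
    rw [mem_rootSet]
    exact ⟨hq.ne_zero, hα⟩
  have hβY : β ∈ p.rootSet M := by
    rw [mem_rootSet]
    exact ⟨hpirr.ne_zero, minpoly.aeval K β⟩
  have hπ : ∀ x : q.rootSet M, aeval (x : M) P ∈ p.rootSet M := by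
    intro x
    obtain ⟨τ, hτ⟩ := exists_smul_eq (M ≃ₐ[K] M) (⟨α, hαX⟩ : q.rootSet M) x
    have h1 : τ α = x := congrArg Subtype.val hτ
    rw [← h1]
    have h2 : aeval (τ α) P = τ β := by
      rw [← hP]
      exact Polynomial.aeval_algHom_apply τ.toAlgHom α P
    rw [h2]
    exact (τ • (⟨β, hβY⟩ : p.rootSet M)).2
  set π : q.rootSet M → p.rootSet M := fun x => ⟨aeval (x : M) P, hπ x⟩ with hπdef
  have hπτ : ∀ (τ : M ≃ₐ[K] M) (x : q.rootSet M), π (τ • x) = τ • π x := by
    intro τ x
    apply Subtype.ext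
    exact Polynomial.aeval_algHom_apply τ.toAlgHom (x : M) P
  -- the fibres
  set fib : p.rootSet M → Finset (q.rootSet M) := fun y => Finset.univ.filter fun x => π x = y
    with hfib
  have hfibc : ∀ y, (fib y).card = (fib ⟨β, hβY⟩).card := by
    intro y
    obtain ⟨τ, rfl⟩ := exists_smul_eq (M ≃ₐ[K] M) (⟨β, hβY⟩ : p.rootSet M) y
    symm
    refine Finset.card_bij' (fun x _ => τ • x) (fun x _ => τ⁻¹ • x) ?_ ?_ ?_ ?_
    · intro x hx
      rw [hfib, Finset.mem_filter] at hx ⊢
      exact ⟨Finset.mem_univ _, by rw [hπτ, hx.2]⟩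
    · intro x hx
      rw [hfib, Finset.mem_filter] at hx ⊢
      exact ⟨Finset.mem_univ _, by rw [hπτ, hx.2, inv_smul_smul]⟩
    · intro x _
      rw [inv_smul_smul]
    · intro x _
      rw [smul_inv_smul]
  set φ := (fib ⟨β, hβY⟩).card with hφ
  have hφ1 : 1 ≤ φ := by
    rw [hφ, Nat.succ_le_iff, Finset.card_pos]
    refine ⟨⟨α, hαX⟩, ?_⟩
    rw [hfib, Finset.mem_filter]
    exact ⟨Finset.mem_univ _, Subtype.ext hP⟩
  have hcardX : Fintype.card (q.rootSet M) = q.natDegree := card_rootSet_eq_natDegree hsep hs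
  have hcardY : Fintype.card (p.rootSet M) = p.natDegree :=
    card_rootSet_eq_natDegree hpsep hpsplits
  have hnm : q.natDegree = p.natDegree * φ := by
    rw [← hcardX, ← hcardY, ← Finset.card_univ, ← Finset.card_univ]
    rw [Finset.card_eq_sum_card_fiberwise (f := π) (t := Finset.univ)
      (fun x _ => Finset.mem_coe.2 (Finset.mem_univ _))]
    rw [Finset.sum_congr rfl (fun y _ => hfibc y), Finset.sum_const, smul_eq_mul]
  -- the roots outside `L`
  set outY : Finset (p.rootSet M) := Finset.univ.filter fun y => (y : M) ∉ L with houtY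
  set outX : Finset (q.rootSet M) := Finset.univ.filter fun x => (x : M) ∉ L with houtX
  have houtc : ∀ r : K[X], (r.rootSet M \ (L : Set M)).ncard =
      (Finset.univ.filter fun y : r.rootSet M => (y : M) ∉ L).card := by
    intro r
    rw [← Set.ncard_coe_finset, ← Set.ncard_image_of_injective _ Subtype.val_injective]
    congr 1
    ext x
    constructor
    · rintro ⟨h1, h2⟩
      exact ⟨⟨x, h1⟩, by simpa using h2, rfl⟩
    · rintro ⟨y, h1, rfl⟩
      exact ⟨y.2, by simpa using h1⟩
  have hoX : outX.card ≤ B := by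
    rw [houtX, ← houtc]
    exact hB
  have hfo : outY.card * φ ≤ outX.card := by
    have h1 : outY.biUnion fib ⊆ outX := by
      intro x hx
      rw [Finset.mem_biUnion] at hx
      obtain ⟨y, hy, hxy⟩ := hx
      rw [hfib, Finset.mem_filter] at hxy
      rw [houtY, Finset.mem_filter] at hy
      rw [houtX, Finset.mem_filter]
      refine ⟨Finset.mem_univ _, fun hxL => hy.2 ?_⟩
      rw [← hxy.2]
      show aeval (x : M) P ∈ L
      rw [← IntermediateField.mem_toSubalgebra]
      have h2 : aeval (x : M) P ∈ Algebra.adjoin K {(x : M)} :=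
        Polynomial.aeval_mem_adjoin_singleton K (x : M)
      exact (Algebra.adjoin_le (Set.singleton_subset_iff.2 hxL)) h2
    refine le_trans (le_of_eq ?_) (Finset.card_le_card h1)
    rw [Finset.card_biUnion, Finset.sum_congr rfl (fun y _ => hfibc y), Finset.sum_const,
      smul_eq_mul]
    intro y₁ _ y₂ _ hne'
    rw [Function.onFun, Finset.disjoint_left]
    intro x h1 h2
    rw [hfib, Finset.mem_filter] at h1 h2
    exact hne' (h1.2.symm.trans h2.2)
  obtain ⟨y₀, hy₀, hy₀L⟩ := hE p hpirr hpsep hpsplits hpdeg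
  have hoY1 : 1 ≤ outY.card := by
    rw [Nat.succ_le_iff, Finset.card_pos]
    exact ⟨⟨y₀, hy₀⟩, by rw [houtY, Finset.mem_filter]; exact ⟨Finset.mem_univ _, hy₀L⟩⟩
  have hoYB : outY.card ≤ B := by
    calc outY.card = outY.card * 1 := (mul_one _).symm
      _ ≤ outY.card * φ := Nat.mul_le_mul_left _ hφ1
      _ ≤ B := hfo.trans hoX
  have hφB : φ ≤ B := by
    calc φ = 1 * φ := (one_mul _).symm
      _ ≤ outY.card * φ := Nat.mul_le_mul_right _ hoY1
      _ ≤ B := hfo.trans hoX
  have hpbig : N + NJ B + 1 ≤ p.natDegree := by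
    by_contra hlt
    rw [not_le] at hlt
    have h1 : p.natDegree * φ ≤ (N + NJ B + 1) * B := Nat.mul_le_mul hlt.le hφB
    rw [← hnm, mul_comm (N + NJ B + 1)] at h1
    omega
  -- a nontrivial element with small support
  obtain ⟨h, hhL, hhy⟩ : ∃ h ∈ L.fixingSubgroup, h y₀ ≠ y₀ := by
    by_contra hcon
    push Not at hcon
    exact hy₀L ((mem_iff_fixed L y₀).2 hcon)
  have hprim := primitive_rootSet β hEatom
  rw [← hp] at hprim
  set Γ := (toPermHom (M ≃ₐ[K] M) (p.rootSet M)).range with hΓ
  have hprimΓ : IsPreprimitive Γ (p.rootSet M) := by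
    let f : (M ≃ₐ[K] M) → Γ := fun τ => ⟨toPermHom (M ≃ₐ[K] M) (p.rootSet M) τ, τ, rfl⟩
    let F : (p.rootSet M) →ₑ[f] (p.rootSet M) :=
      { toFun := id
        map_smul' := fun τ x => rfl }
    exact IsPreprimitive.of_surjective (f := F) Function.surjective_id
  refine ⟨p, hpirr, hpsep, hpsplits, by omega, ?_, ?_⟩
  · rw [houtc]
    exact hoYB
  · intro i1 i2
    obtain rfl : i1 = Subtype.instDecidableEq := Subsingleton.elim _ _
    obtain rfl : i2 = Polynomial.rootSetFintype p M := Subsingleton.elim _ _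
    refine jordan Γ B (toPermHom (M ≃ₐ[K] M) (p.rootSet M) h) ⟨h, rfl⟩ ?_ ?_ ?_
    · intro h1
      apply hhy
      have h2 := Equiv.ext_iff.1 h1 ⟨y₀, hy₀⟩
      exact congrArg Subtype.val h2
    · refine le_trans (Finset.card_le_card ?_) hoYB
      intro y hy
      rw [Equiv.Perm.mem_support] at hy
      rw [houtY, Finset.mem_filter]
      refine ⟨Finset.mem_univ _, fun hyL => hy ?_⟩
      apply Subtype.ext
      exact (mem_iff_fixed L (y : M)).1 hyL h hhL
    · rw [hcardY]
      omega

end finite

end Pool.Agent.Helper51.HI
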