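import Pool.Agent.Helper51.HI.Persist

set_option autoImplicit false

/-!
Henselian fields carry a topology in which simple roots persist.
-/

namespace Pool.Agent.Helper51.HI

open Polynomial Filter Topology

/-- persistence of simple roots at `0` suffices -/
theorem srp_of_zero {F : Type*} [Field F] [TopologicalSpace F] [IsTopologicalRing F]
    (h : ∀ (P : F[X][X]), (P.coeff 0).eval 0 = 0 → (P.coeff 1).eval 0 ≠ 0 →
      ∀ U ∈ 𝓝 (0 : F), ∀ᶠ d in 𝓝 (0 : F), ∃ x ∈ U, (P.map (evalRingHom d)).eval x = 0)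
    (P : F[X][X]) (a : F) (h0 : (P.map (evalRingHom 0)).eval a = 0)
    (h1 : (derivative (P.map (evalRingHom 0))).eval a ≠ 0) (U : Set F) (hU : U ∈ 𝓝 a) :
    ∀ᶠ d in 𝓝 (0 : F), ∃ x ∈ U, (P.map (evalRingHom d)).eval x = 0 := by
  set P' : F[X][X] := P.comp (X + C (C a)) with hP'
  have hmap : ∀ d : F, P'.map (evalRingHom d) = (P.map (evalRingHom d)).comp (X + C a) := by
    intro d
    rw [hP', map_comp, Polynomial.map_add, map_X, map_C, coe_evalRingHom, eval_C]
  have hc0 : (P'.coeff 0).eval 0 = 0 := by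
    have : (P'.coeff 0).eval 0 = (P'.map (evalRingHom 0)).coeff 0 := by
      rw [coeff_map, coe_evalRingHom]
    rw [this, hmap, coeff_zero_eq_eval_zero, eval_comp, eval_add, eval_X, eval_C, zero_add, h0]
  have hc1 : (P'.coeff 1).eval 0 ≠ 0 := by
    have : (P'.coeff 1).eval 0 = (derivative (P'.map (evalRingHom 0))).eval 0 := by
      rw [← coeff_zero_eq_eval_zero (derivative _), coeff_derivative, coeff_map, coe_evalRingHom]
      simp
    rw [this, hmap, derivative_comp, derivative_add, derivative_X, derivative_C, add_zero, one_mul,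
      eval_comp, eval_add, eval_X, eval_C, zero_add]
    exact h1
  have hU' : (fun x : F => x + a) ⁻¹' U ∈ 𝓝 (0 : F) := by
    have h2 : ContinuousAt (fun x : F => x + a) 0 := (continuous_id.add continuous_const).continuousAt
    apply h2
    simp only [zero_add]
    exact hU
  filter_upwards [h P' hc0 hc1 _ hU'] with d hd
  obtain ⟨x, hx, hx'⟩ := hd
  refine ⟨x + a, hx, ?_⟩
  rw [hmap, eval_comp, eval_add, eval_X, eval_C] at hx'
  exact hx'

section

variable {F : Type*} [Field F] (𝒪 : ValuationSubring F)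

/-- a root close to `0` -/
theorem hensel_root [HenselianLocalRing 𝒪] (q : F[X]) (m : ℕ) (hq : q.natDegree ≤ m + 2)
    (h1 : q.coeff 1 ≠ 0)
    (hj : ∀ j, j ≤ m → 𝒪.valuation (q.coeff (j + 2) * (-q.coeff 0 / q.coeff 1) ^ (j + 1) /
      q.coeff 1) < 1) :
    ∃ y : F, q.eval y = 0 ∧ 𝒪.valuation y = 𝒪.valuation (-q.coeff 0 / q.coeff 1) := by
  set c := -q.coeff 0 / q.coeff 1 with hc
  rcases eq_or_ne c 0 with hc0 | hc0
  · refine ⟨0, ?_, by rw [hc0]⟩
    rw [← coeff_zero_eq_eval_zero]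
    rw [hc, div_eq_zero_iff, neg_eq_zero] at hc0
    exact hc0.resolve_right h1
  set u : ℕ → F := fun j => q.coeff (j + 2) * c ^ (j + 1) / q.coeff 1 with hu
  have ht : ∀ k : ℕ, ∃ t : 𝒪, t ∈ IsLocalRing.maximalIdeal 𝒪 ∧
      (k ≤ m → (t : F) = u (m - k)) := by
    intro k
    by_cases hk : k ≤ m
    · have h2 : 𝒪.valuation (u (m - k)) < 1 := hj (m - k) (Nat.sub_le _ _)
      refine ⟨⟨u (m - k), 𝒪.mem_of_valuation_le_one _ h2.le⟩, ?_, fun _ => rfl⟩
      rw [𝒪.valuation_lt_one_iff]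
      exact h2
    · exact ⟨0, zero_mem _, fun h => (hk h).elim⟩
  choose t ht𝔪 htu using ht
  set r : 𝒪[X] := ∑ k ∈ Finset.range (m + 1), C (t k) * X ^ k with hr
  have hrdeg : r.degree ≤ (m : ℕ) := by
    rw [hr]
    refine (degree_sum_le _ _).trans (Finset.sup_le fun k hk => ?_)
    refine (degree_C_mul_X_pow_le k _).trans ?_
    rw [Finset.mem_range] at hk
    exact_mod_cast (by omega : k ≤ m)
  set g : 𝒪[X] := X ^ (m + 2) + (-X ^ (m + 1) - r) with hg
  have hgm : g.Monic := by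
    apply monic_X_pow_add
    refine lt_of_le_of_lt (degree_sub_le _ _) (max_lt ?_ ?_)
    · rw [degree_neg, degree_X_pow]
      exact_mod_cast (by omega : m + 1 < m + 2)
    · refine lt_of_le_of_lt hrdeg ?_
      exact_mod_cast (by omega : m < m + 2)
  have hr1 : r.eval 1 ∈ IsLocalRing.maximalIdeal 𝒪 := by
    rw [hr, eval_finsetSum]
    refine Ideal.sum_mem _ fun k _ => ?_
    rw [eval_mul, eval_C]
    exact Ideal.mul_mem_right _ _ (ht𝔪 k)
  have hr1' : (derivative r).eval 1 ∈ IsLocalRing.maximalIdeal 𝒪 := by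
    rw [hr, derivative_sum, eval_finsetSum]
    refine Ideal.sum_mem _ fun k _ => ?_
    rw [derivative_C_mul, eval_mul, eval_C]
    exact Ideal.mul_mem_right _ _ (ht𝔪 k)
  have hg1 : g.eval 1 ∈ IsLocalRing.maximalIdeal 𝒪 := by
    have : g.eval 1 = -r.eval 1 := by
      rw [hg]
      simp
      ring
    rw [this]
    exact neg_mem hr1
  have hg1' : IsUnit ((derivative g).eval 1) := by
    have : (derivative g).eval 1 = 1 - (derivative r).eval 1 := by
      rw [hg]
      simp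
      ring
    rw [this]
    exact IsLocalRing.isUnit_one_sub_self_of_mem_nonunits _
      ((IsLocalRing.mem_maximalIdeal _).1 hr1')
  obtain ⟨V, hV, hV1⟩ := HenselianLocalRing.is_henselian g hgm 1 hg1 hg1'
  have hVu : IsUnit V := by
    have : V = 1 - (1 - V) := by ring
    rw [this]
    apply IsLocalRing.isUnit_one_sub_self_of_mem_nonunits
    rw [← IsLocalRing.mem_maximalIdeal, ← neg_sub]
    exact neg_mem hV1
  have hVv : 𝒪.valuation (V : F) = 1 := (𝒪.valuation_eq_one_iff V).1 hVu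
  have hV0 : (V : F) ≠ 0 := by
    intro h
    rw [h, map_zero] at hVv
    exact zero_ne_one hVv
  refine ⟨c / V, ?_, by rw [map_div₀, hVv, div_one]⟩
  have hgV : (V : F) ^ (m + 2) - (V : F) ^ (m + 1) -
      ∑ k ∈ Finset.range (m + 1), u (m - k) * (V : F) ^ k = 0 := by
    have h2 : g.eval V = 0 := hV
    have h3 := congrArg (fun z : 𝒪 => (z : F)) h2
    simp only [hg, hr, eval_add, eval_sub, eval_neg, eval_pow, eval_X, eval_finsetSum, eval_mul,
      eval_C, ZeroMemClass.coe_zero] at h3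
    push_cast at h3
    rw [← h3]
    have h4 : ∑ k ∈ Finset.range (m + 1), u (m - k) * (V : F) ^ k =
        ∑ k ∈ Finset.range (m + 1), (t k : F) * (V : F) ^ k :=
      Finset.sum_congr rfl fun k hk => by
        rw [htu k (by rw [Finset.mem_range] at hk; omega)]
    rw [h4]
    ring
  have hsum : ∑ k ∈ Finset.range (m + 1), u (m - k) * (V : F) ^ k =
      ∑ j ∈ Finset.range (m + 1), u j * (V : F) ^ (m - j) := by
    rw [← Finset.sum_range_reflect]
    refine Finset.sum_congr rfl fun k hk => ?_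
    rw [Finset.mem_range] at hk
    have e1 : m - (m + 1 - 1 - k) = k := by omega
    have e2 : m + 1 - 1 - k = m - k := by omega
    rw [e1, e2]
  rw [hsum] at hgV
  have h6 : q.coeff 0 = -(q.coeff 1 * c) := by
    rw [hc]
    field_simp
  generalize (V : F) = W at hgV hV0
  rw [eval_eq_sum_range' (n := m + 3) (by omega), Finset.sum_range_succ', Finset.sum_range_succ']
  have h4 : ∀ j ∈ Finset.range (m + 1), q.coeff (j + 1 + 1) * (c / W) ^ (j + 1 + 1) =
      (q.coeff 1 * c / W ^ (m + 2)) * (u j * W ^ (m - j)) := by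
    intro j hj'
    rw [Finset.mem_range] at hj'
    obtain ⟨l, rfl⟩ : ∃ l, m = j + l := ⟨m - j, by omega⟩
    have e : j + l - j = l := by omega
    rw [e, hu]
    simp only
    rw [div_pow]
    field_simp
    ring
  rw [Finset.sum_congr rfl h4, ← Finset.mul_sum]
  have h5 : ∑ j ∈ Finset.range (m + 1), u j * W ^ (m - j) = W ^ (m + 2) - W ^ (m + 1) :=
    (sub_eq_zero.1 hgV).symm
  rw [h5, h6, zero_add, pow_one, pow_zero, mul_one]
  field_simp
  ring

theorem valued_nhds (s : Set F) :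
    letI := Valued.mk' 𝒪.valuation
    s ∈ 𝓝 (0 : F) ↔ ∃ g : F, g ≠ 0 ∧ {x | 𝒪.valuation x < 𝒪.valuation g} ⊆ s := by
  let _ := Valued.mk' 𝒪.valuation
  rw [Valued.mem_nhds_zero]
  constructor
  · rintro ⟨γ, hγ⟩
    obtain ⟨g, hg⟩ := 𝒪.valuation_surjective (MonoidWithZeroHom.ValueGroup₀.embedding γ.1)
    refine ⟨g, ?_, ?_⟩
    · rintro rfl
      rw [map_zero] at hg
      have := (map_eq_zero (MonoidWithZeroHom.ValueGroup₀.embedding
        (f := .ofClass (Valued.v (R := F))))).1 hg.symm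
      exact γ.ne_zero this
    · intro x hx
      apply hγ
      show Valued.v.restrict x < γ.1
      rw [Valuation.restrict_lt_iff_lt_embedding]
      rw [← hg]
      exact hx
  · rintro ⟨g, hg0, hg⟩
    refine ⟨Units.mk0 ((Valued.v (R := F)).restrict g) ?_, ?_⟩
    · rw [Valuation.ne_zero_iff]
      exact hg0
    · intro x hx
      apply hg
      rw [Units.val_mk0] at hx
      exact (Valuation.restrict_lt_iff _).1 hx

theorem exists_small {K : Type*} [Field K] [Algebra K F] [Algebra.IsAlgebraic K F]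
    (hne : 𝒪 ≠ ⊤) (g : F) (hg : g ≠ 0) :
    ∃ x : K, x ≠ 0 ∧ 𝒪.valuation (algebraMap K F x) < 𝒪.valuation g := by
  obtain ⟨t, ht⟩ : ∃ t : F, t ∉ 𝒪 := by
    by_contra h
    push Not at h
    exact hne (ValuationSubring.ext _ _ fun x => ⟨fun _ => ValuationSubring.mem_top x, fun _ => h x⟩)
  have ht1 : 1 < 𝒪.valuation t := by
    rw [← not_le, 𝒪.valuation_le_one_iff]
    exact ht
  have ht0 : t ≠ 0 := by
    rintro rfl
    exact ht 𝒪.zero_mem
  have hz0 : t⁻¹ ≠ 0 := inv_ne_zero ht0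
  have hz1 : 𝒪.valuation t⁻¹ < 1 := by
    rw [map_inv₀]
    exact inv_lt_one_of_one_lt₀ ht1
  obtain ⟨y, hy0, hy1, hyg⟩ : ∃ y : F, y ≠ 0 ∧ 𝒪.valuation y ≤ 1 ∧
      𝒪.valuation y < 𝒪.valuation g := by
    have hvg : 0 < 𝒪.valuation g := zero_lt_iff.2 ((Valuation.ne_zero_iff _).2 hg)
    rcases le_or_gt (𝒪.valuation g) 1 with h | h
    · refine ⟨g * t⁻¹, mul_ne_zero hg hz0, ?_, ?_⟩
      · rw [map_mul]
        exact mul_le_one' h hz1.le
      · rw [map_mul]
        exact mul_lt_of_lt_one_right hvg hz1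
    · exact ⟨t⁻¹, hz0, hz1.le, hz1.trans h⟩
  have hint : IsIntegral K y := Algebra.IsIntegral.isIntegral y
  set p := minpoly K y with hp
  have hp0 : p.coeff 0 ≠ 0 := minpoly.coeff_zero_ne_zero hint hy0
  have hpne : p.support.Nonempty := ⟨0, mem_support_iff.2 hp0⟩
  obtain ⟨j₀, hj₀, hmax⟩ := p.support.exists_max_image
    (fun j => 𝒪.valuation (algebraMap K F (p.coeff j))) hpne
  rw [mem_support_iff] at hj₀
  have hmax' : ∀ j, 𝒪.valuation (algebraMap K F (p.coeff j)) ≤
      𝒪.valuation (algebraMap K F (p.coeff j₀)) := by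
    intro j
    by_cases hj : p.coeff j = 0
    · rw [hj, map_zero, map_zero]
      exact zero_le
    · exact hmax j (mem_support_iff.2 hj)
  have hroot : aeval y p = 0 := minpoly.aeval K y
  rw [aeval_eq_sum_range, Finset.sum_range_succ'] at hroot
  have h1 : 𝒪.valuation (algebraMap K F (p.coeff 0)) ≤
      𝒪.valuation (algebraMap K F (p.coeff j₀)) * 𝒪.valuation y := by
    have h2 : algebraMap K F (p.coeff 0) =
        -∑ k ∈ Finset.range p.natDegree, p.coeff (k + 1) • y ^ (k + 1) := by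
      rw [pow_zero, Algebra.smul_def, mul_one] at hroot
      exact (neg_eq_of_add_eq_zero_right hroot).symm
    rw [h2, Valuation.map_neg]
    refine Valuation.map_sum_le _ fun k _ => ?_
    rw [Algebra.smul_def, map_mul, map_pow, pow_succ, ← mul_assoc]
    refine mul_le_mul' ?_ le_rfl
    calc 𝒪.valuation (algebraMap K F (p.coeff (k + 1))) * 𝒪.valuation y ^ k
        ≤ 𝒪.valuation (algebraMap K F (p.coeff j₀)) * 1 :=
          mul_le_mul' (hmax' _) (pow_le_one' hy1 _)
      _ = _ := mul_one _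
  refine ⟨p.coeff 0 / p.coeff j₀, div_ne_zero hp0 hj₀, ?_⟩
  rw [map_div₀, map_div₀]
  have h3 : 0 < 𝒪.valuation (algebraMap K F (p.coeff j₀)) :=
    zero_lt_iff.2 ((Valuation.ne_zero_iff _).2 ((_root_.map_ne_zero _).2 hj₀))
  refine lt_of_le_of_lt ?_ hyg
  rw [div_le_iff₀ h3, mul_comm]
  exact h1

theorem th_of_henselian {K : Type*} [Field K] [Algebra K F] [Algebra.IsAlgebraic K F]
    (hne : 𝒪 ≠ ⊤) [HenselianLocalRing 𝒪] : TH K F := by
  classical
  let _ := Valued.mk' 𝒪.valuation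
  have hnhds : ∀ s : Set F, s ∈ 𝓝 (0 : F) ↔
      ∃ g : F, g ≠ 0 ∧ {x | 𝒪.valuation x < 𝒪.valuation g} ⊆ s := valued_nhds 𝒪
  have hpos : ∀ g : F, g ≠ 0 → 0 < 𝒪.valuation g := fun g hg =>
    zero_lt_iff.2 ((Valuation.ne_zero_iff _).2 hg)
  refine ⟨inferInstance, inferInstance, inferInstance, fun P a h0 h1 U hU => ?_, ?_, ?_⟩
  · refine srp_of_zero (fun P h0 h1 U hU => ?_) P a h0 h1 U hU
    obtain ⟨g, hg0, hgU⟩ := (hnhds U).1 hU
    set m := P.natDegree with hm
    have hq0 : Tendsto (fun d : F => (P.coeff 0).eval d) (𝓝 0) (𝓝 0) := by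
      have := (Polynomial.continuous (P.coeff 0)).tendsto 0
      rwa [h0] at this
    have hq1 : Tendsto (fun d : F => (P.coeff 1).eval d) (𝓝 0) (𝓝 ((P.coeff 1).eval 0)) :=
      (Polynomial.continuous (P.coeff 1)).tendsto 0
    have hc : Tendsto (fun d : F => -(P.coeff 0).eval d / (P.coeff 1).eval d) (𝓝 0) (𝓝 0) := by
      have := hq0.neg.div hq1 h1
      rwa [neg_zero, zero_div] at this
    have hj : ∀ j, Tendsto (fun d : F => (P.coeff (j + 2)).eval d *
        (-(P.coeff 0).eval d / (P.coeff 1).eval d) ^ (j + 1) / (P.coeff 1).eval d)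
        (𝓝 0) (𝓝 0) := by
      intro j
      have h2 := (((Polynomial.continuous (P.coeff (j + 2))).tendsto 0).mul
        (hc.pow (j + 1))).div hq1 h1
      rwa [zero_pow (Nat.succ_ne_zero j), mul_zero, zero_div] at h2
    have hball : {x | 𝒪.valuation x < 𝒪.valuation g} ∈ 𝓝 (0 : F) :=
      (hnhds _).2 ⟨g, hg0, subset_rfl⟩
    have hball1 : {x | 𝒪.valuation x < 1} ∈ 𝓝 (0 : F) :=
      (hnhds _).2 ⟨1, one_ne_zero, by rw [map_one]⟩
    have hjall : ∀ᶠ d in 𝓝 (0 : F), ∀ j ∈ Finset.range (m + 1),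
        𝒪.valuation ((P.coeff (j + 2)).eval d *
        (-(P.coeff 0).eval d / (P.coeff 1).eval d) ^ (j + 1) / (P.coeff 1).eval d) < 1 :=
      (Finset.eventually_all _).2 fun j _ => hj j hball1
    filter_upwards [hc hball, hjall, hq1.eventually_ne h1] with d hd1 hd2 hd3
    have hcoe : ∀ i, (P.map (evalRingHom d)).coeff i = (P.coeff i).eval d := fun i => by
      rw [coeff_map, coe_evalRingHom]
    obtain ⟨y, hy, hyv⟩ := hensel_root 𝒪 (P.map (evalRingHom d)) m
      ((natDegree_map_le).trans (by omega)) (by rw [hcoe]; exact hd3) (fun j hj => by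
        rw [hcoe, hcoe, hcoe]
        exact hd2 j (Finset.mem_range.2 (by omega)))
    refine ⟨y, hgU ?_, hy⟩
    rw [hcoe, hcoe] at hyv
    show 𝒪.valuation y < 𝒪.valuation g
    rw [hyv]
    exact hd1
  · intro U hU W hW
    obtain ⟨g, hg0, hgU⟩ := (hnhds U).1 hU
    obtain ⟨g', hg'0, hgW⟩ := (hnhds W).1 hW
    refine ⟨{x | 𝒪.valuation x < 𝒪.valuation (g * g')},
      (hnhds _).2 ⟨g * g', mul_ne_zero hg0 hg'0, subset_rfl⟩, fun x hx w hw => hgW ?_⟩
    have h1 : 𝒪.valuation g ≤ 𝒪.valuation x := not_lt.1 fun h => hx (hgU h)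
    have h2 : 0 < 𝒪.valuation x := (hpos g hg0).trans_le h1
    show 𝒪.valuation (w / x) < 𝒪.valuation g'
    rw [map_div₀, div_lt_iff₀ h2]
    refine lt_of_lt_of_le hw ?_
    rw [map_mul, mul_comm]
    exact mul_le_mul' le_rfl h1
  · intro W hW
    obtain ⟨g, hg0, hgW⟩ := (hnhds W).1 hW
    obtain ⟨x, hx0, hx⟩ := exists_small 𝒪 (K := K) hne g hg0
    exact ⟨x, hx0, hgW hx⟩

end

end Pool.Agent.Helper51.HI
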