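import Pool.Agent.Helper51.HI.Ords

set_option autoImplicit false

/-!
Many simple roots of a resultant in several fields at once.
-/

namespace Pool.Agent.Helper51.HI

open Polynomial Filter

variable {K : Type*} [Field K]

/-- at least `r` simple roots in `F` -/
def SR (F : Type*) [Field F] [Algebra K F] (w : K[X]) (r : ℕ) : Prop :=
  ∃ s : Finset F, r ≤ s.card ∧ ∀ a ∈ s, aeval a w = 0 ∧ aeval a (derivative w) ≠ 0

/-- simple roots in `F` persist along the filter -/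
def Pers (ℱ : Filter K) (F : Type*) [Field F] [Algebra K F] : Prop :=
  ∀ (P : K[X][X]) (r : ℕ), SR F (P.map (evalRingHom 0)) r →
    ∀ᶠ δ in ℱ, SR F (P.map (evalRingHom δ)) r

theorem SR.X_mul {F : Type*} [Field F] [Algebra K F] {w : K[X]} {r : ℕ} (h : SR F w r)
    (hw : w.coeff 0 ≠ 0) : SR F (X * w) (r + 1) := by
  classical
  obtain ⟨s, hs, hroot⟩ := h
  have h0 : aeval (0 : F) w ≠ 0 := by
    rw [aeval_def, eval₂_at_zero]
    exact (map_ne_zero (algebraMap K F)).2 hw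
  have h0s : (0 : F) ∉ s := fun h => h0 (hroot 0 h).1
  refine ⟨insert 0 s, by rw [Finset.card_insert_of_notMem h0s]; omega, fun a ha => ?_⟩
  rw [Finset.mem_insert] at ha
  rw [derivative_mul, derivative_X, one_mul, map_mul, map_add, map_mul, aeval_X]
  rcases ha with rfl | ha
  · rw [zero_mul, zero_mul, add_zero]
    exact ⟨rfl, h0⟩
  · rw [(hroot a ha).1, mul_zero, zero_add]
    refine ⟨rfl, mul_ne_zero ?_ (hroot a ha).2⟩
    rintro rfl
    exact h0s ha

/-- resultants in a pencil -/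
theorem pencil (f G H : K[X][X]) (m n : ℕ) : ∃ Φ : K[X][X], ∀ δ : K,
    Φ.map (evalRingHom δ) = resultant f (G + C (C δ) * H) m n := by
  let ι : K[X] →+* K[X][X] := mapRingHom (C : K →+* K[X])
  refine ⟨resultant (f.map ι) (G.map ι + C (C X) * H.map ι) m n, fun δ => ?_⟩
  have h1 : ∀ q : K[X][X], (q.map ι).map (mapRingHom (evalRingHom δ)) = q := by
    intro q
    rw [Polynomial.map_map]
    have : (mapRingHom (evalRingHom δ)).comp ι = RingHom.id K[X] := by
      ext x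
      · simp [ι]
      · simp [ι]
    rw [this, Polynomial.map_id]
  have h2 : Polynomial.map (evalRingHom δ)
      (resultant (f.map ι) (G.map ι + C (C X) * H.map ι) m n) =
      (mapRingHom (evalRingHom δ)) (resultant (f.map ι) (G.map ι + C (C X) * H.map ι) m n) := rfl
  rw [h2, ← resultant_map_map, Polynomial.map_add, Polynomial.map_mul, h1, h1, h1, map_C,
    coe_mapRingHom, map_C, coe_evalRingHom, eval_X]

/-- one step -/
theorem step [Infinite K] (f : K[X][X]) (n : ℕ) (hf : f.natDegree = n + 1)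
    (p : K[X]) (Q : ℕ) (hpf : X ^ Q ∣ f.eval p) (o : ℕ) (hoQ : o < Q) (G H : K[X][X])
    (hG : G.natDegree ≤ n) (hH : H.natDegree ≤ n) (hGp : X ^ (o + 1) ∣ G.eval p)
    (hHp : X ^ o ∣ H.eval p) (hHo : (H.eval p).coeff o ≠ 0)
    (hΨ : (resultant (f /ₘ (X - C p)) G n n).coeff 0 ≠ 0) :
    ∃ P : K[X][X], (∀ δ : K, resultant f (G + C (C δ) * H) (n + 1) n =
      X ^ o * P.map (evalRingHom δ)) ∧
      (∀ᶠ δ in cofinite, X ^ o ∣ (G + C (C δ) * H).eval p ∧
        (resultant (f /ₘ (X - C p)) (G + C (C δ) * H) n n).coeff 0 ≠ 0 ∧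
        (P.map (evalRingHom δ)).coeff 0 ≠ 0) := by
  classical
  obtain ⟨s, hs⟩ := hGp
  obtain ⟨t, ht⟩ := hHp
  have ht0 : t.coeff 0 ≠ 0 := by
    rw [ht, coeff_X_pow_mul'] at hHo
    simpa using hHo
  have hev : ∀ δ : K, (G + C (C δ) * H).eval p = X ^ o * (X * s + C δ * t) := by
    intro δ
    rw [eval_add, eval_mul, eval_C, hs, ht]
    ring
  have hdeg : ∀ δ : K, (G + C (C δ) * H).natDegree ≤ n := fun δ =>
    (natDegree_add_le _ _).trans (max_le hG ((natDegree_C_mul_le _ _).trans hH))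
  have hcong : ∀ δ : K, X ^ Q ∣ resultant f (G + C (C δ) * H) (n + 1) n -
      X ^ o * (X * s + C δ * t) * resultant (f /ₘ (X - C p)) (G + C (C δ) * H) n n := by
    intro δ
    rw [← hev]
    exact (resultant_congr f _ n hf (hdeg δ) p Q hpf).2
  obtain ⟨Φ, hΦ⟩ := pencil f G H (n + 1) n
  obtain ⟨Ψ, hΨ'⟩ := pencil (f /ₘ (X - C p)) G H n n
  have hdvd : X ^ o ∣ Φ := by
    rw [X_pow_dvd_iff]
    intro d hd
    apply Polynomial.funext
    intro δ
    rw [eval_zero]
    have h1 : (Φ.coeff d).eval δ = (Φ.map (evalRingHom δ)).coeff d := by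
      rw [coeff_map, coe_evalRingHom]
    rw [h1, hΦ]
    have h2 : X ^ o ∣ resultant f (G + C (C δ) * H) (n + 1) n := by
      have h3 := dvd_add ((pow_dvd_pow X hoQ.le).trans (hcong δ))
        (Dvd.intro _ (mul_assoc (X ^ o) (X * s + C δ * t)
          (resultant (f /ₘ (X - C p)) (G + C (C δ) * H) n n)).symm)
      rwa [sub_add_cancel] at h3
    exact X_pow_dvd_iff.1 h2 d hd
  obtain ⟨P, hP⟩ := hdvd
  have hPδ : ∀ δ : K, resultant f (G + C (C δ) * H) (n + 1) n =
      X ^ o * P.map (evalRingHom δ) := by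
    intro δ
    rw [← hΦ, hP, Polynomial.map_mul, Polynomial.map_pow, map_X]
  refine ⟨P, hPδ, ?_⟩
  have hΨ0 : Ψ.coeff 0 ≠ 0 := by
    intro h
    apply hΨ
    have h1 : resultant (f /ₘ (X - C p)) G n n = Ψ.map (evalRingHom 0) := by
      rw [hΨ', C_0, C_0, zero_mul, add_zero]
    rw [h1, coeff_map, h, map_zero]
  have hfin : {δ : K | (Ψ.coeff 0).eval δ = 0}.Finite := by
    refine (Ψ.coeff 0).roots.toFinset.finite_toSet.subset fun δ hδ => ?_
    rw [Finset.mem_coe, Multiset.mem_toFinset, mem_roots hΨ0]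
    exact hδ
  have h1 : ∀ᶠ δ in (cofinite : Filter K), (Ψ.coeff 0).eval δ ≠ 0 := by
    rw [eventually_cofinite]
    simpa using hfin
  have h2 : ∀ᶠ δ in (cofinite : Filter K), δ ≠ 0 := by
    rw [eventually_cofinite]
    simp
  filter_upwards [h1, h2] with δ hδ1 hδ2
  have h3 : (resultant (f /ₘ (X - C p)) (G + C (C δ) * H) n n).coeff 0 ≠ 0 := by
    rw [← hΨ', coeff_map]
    exact hδ1
  refine ⟨by rw [hev]; exact dvd_mul_right _ _, h3, ?_⟩
  have h4 := hcong δ
  rw [hPδ, mul_assoc, ← mul_sub] at h4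
  obtain ⟨q, rfl⟩ : ∃ q, Q = o + (q + 1) := ⟨Q - o - 1, by omega⟩
  rw [pow_add] at h4
  have h5 := (mul_dvd_mul_iff_left (pow_ne_zero o X_ne_zero)).1 h4
  have h6 : X ∣ P.map (evalRingHom δ) -
      (X * s + C δ * t) * resultant (f /ₘ (X - C p)) (G + C (C δ) * H) n n :=
    (dvd_pow_self X (Nat.succ_ne_zero q)).trans h5
  rw [X_dvd_iff, coeff_sub, sub_eq_zero, mul_coeff_zero, coeff_add, coeff_X_mul_zero, zero_add,
    coeff_C_mul] at h6
  rw [h6]
  exact mul_ne_zero (mul_ne_zero hδ2 ht0) h3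

/-- many simple roots -/
theorem exists_many [Infinite K] (f : K[X][X]) (n : ℕ) (hirr : Irreducible f)
    (hf : f.natDegree = n + 1) (hn : 1 ≤ n) (h0 : (f.coeff 0).coeff 0 = 0)
    (h1 : (f.coeff 1).coeff 0 ≠ 0) (A : ℕ) (hA : ∀ i, (f.coeff i).natDegree ≤ A)
    (ℱ : Filter K) [ℱ.NeBot] (hcof : ℱ ≤ cofinite) {ι : Type*} [Finite ι] (F : ι → Type*)
    [∀ i, Field (F i)] [∀ i, Algebra K (F i)] (hpers : ∀ i, Pers ℱ (F i)) (M : ℕ) :
    ∃ w : K[X], w ≠ 0 ∧ w.natDegree ≤ ((n + 1) * M + n * A) + (n + 1) * (n * A + 1) ∧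
      (∀ i, SR (F i) w ((n + 1) * M + n * A)) ∧
      ∀ x₀ : K, (f.coeff (n + 1)).eval x₀ ≠ 0 → w.eval x₀ = 0 → (derivative w).eval x₀ ≠ 0 →
        ∃ y : K, (f.map (evalRingHom x₀)).eval y = 0 := by
  obtain ⟨N, p, hN, hp, hpf, hord, G₀, hG₀, hG₀p, hG₀0⟩ := exists_data f n hirr hf hn h0 h1 A hA M
  set c := (n + 1) * M + n * A with hc
  have hcQ : c < (n + 1) * N + n * A + 1 := by
    rw [hN, hc]
    have : (n + 1) * (M + n * A + 1) = (n + 1) * M + (n + 1) * (n * A + 1) := by ring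
    omega
  have hΨ₀ : (resultant (f /ₘ (X - C p)) G₀ n n).coeff 0 ≠ 0 := by
    rw [coeff_zero_eq_eval_zero]
    have h2 : (resultant (f /ₘ (X - C p)) G₀ n n).eval 0 =
        resultant ((f /ₘ (X - C p)).map (evalRingHom 0)) (G₀.map (evalRingHom 0)) n n := by
      rw [resultant_map_map]
      rfl
    have hgd : ((f /ₘ (X - C p)).map (evalRingHom 0)).natDegree ≤ n := by
      refine natDegree_map_le.trans ?_
      rw [(resultant_congr f G₀ n hf hG₀.deg p _ hpf).1]
    rw [h2, hG₀0, resultant_X_pow_right _ _ _ hgd, residual_coeff f p hp h0]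
    exact mul_ne_zero (pow_ne_zero _ (by norm_num)) (pow_ne_zero _ h1)
  have key : ∀ j ≤ c, ∃ (G : K[X][X]) (w : K[X]), Bd n N G ∧ X ^ (c - j) ∣ G.eval p ∧
      (resultant (f /ₘ (X - C p)) G n n).coeff 0 ≠ 0 ∧
      resultant f G (n + 1) n = X ^ (c - j) * w ∧ w.coeff 0 ≠ 0 ∧ ∀ i, SR (F i) w j := by
    intro j hj
    induction j with
    | zero =>
      obtain ⟨H, hH, hH1, hH2⟩ := hord c le_rfl
      obtain ⟨P, hP1, hP2⟩ := step f n hf p _ hpf c hcQ G₀ H hG₀.deg hH.deg hG₀p hH1 hH2 hΨ₀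
      obtain ⟨δ, hδ⟩ := (hP2.filter_mono hcof).exists
      refine ⟨G₀ + C (C δ) * H, P.map (evalRingHom δ),
        hG₀.add ((hH.smul (C δ) (j := 0) (by simp)).mono (by omega)), ?_, hδ.2.1, ?_, hδ.2.2,
        fun i => ⟨∅, by simp, by simp⟩⟩
      · rw [Nat.sub_zero]
        exact hδ.1
      · rw [Nat.sub_zero]
        exact hP1 δ
    | succ j ih =>
      obtain ⟨G, w, hG, hGp, hΨ, hres, hw, hSR⟩ := ih (by omega)
      obtain ⟨o, ho⟩ : ∃ o, c - j = o + 1 := ⟨c - j - 1, by omega⟩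
      have ho' : c - (j + 1) = o := by omega
      rw [ho] at hGp hres
      obtain ⟨H, hH, hH1, hH2⟩ := hord o (by omega)
      obtain ⟨P, hP1, hP2⟩ := step f n hf p _ hpf o (by omega) G H hG.deg hH.deg hGp hH1 hH2 hΨ
      have hP0 : P.map (evalRingHom 0) = X * w := by
        have h2 := hP1 0
        rw [C_0, C_0, zero_mul, add_zero, hres, pow_succ, mul_assoc] at h2
        exact (mul_left_cancel₀ (pow_ne_zero o X_ne_zero) h2).symm
      have hev : ∀ i, ∀ᶠ δ in ℱ, SR (F i) (P.map (evalRingHom δ)) (j + 1) := by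
        intro i
        apply hpers i
        rw [hP0]
        exact (hSR i).X_mul hw
      obtain ⟨δ, hδ, hδ'⟩ := ((hP2.filter_mono hcof).and (eventually_all.2 hev)).exists
      refine ⟨G + C (C δ) * H, P.map (evalRingHom δ),
        hG.add ((hH.smul (C δ) (j := 0) (by simp)).mono (by omega)), ?_, hδ.2.1, ?_, hδ.2.2, hδ'⟩
      · rw [ho']
        exact hδ.1
      · rw [ho']
        exact hP1 δ
  obtain ⟨G, w, hG, -, -, hres, hw, hSR⟩ := key c le_rfl
  rw [Nat.sub_self, pow_zero, one_mul] at hres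
  refine ⟨w, ?_, ?_, hSR, ?_⟩
  · intro h
    rw [h, coeff_zero] at hw
    exact hw rfl
  · rw [← hres]
    refine (natDegree_resultant_le (m := n + 1) (n := n) hA hG.coeff).trans ?_
    rw [hN, hc]
    have : (n + 1) * (M + n * A + 1) = (n + 1) * M + (n + 1) * (n * A + 1) := by ring
    omega
  · intro x₀ hx hx1 hx2
    rw [← hres] at hx1 hx2
    exact exists_root_of_simple hf.le hG.deg x₀ hx hx1 hx2

end Pool.Agent.Helper51.HI
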