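import Pool.Agent.Helper51.HI.Ball

set_option autoImplicit false

/-!
A qualitative form of Jordan's theorem on primitive groups with elements of small support.
-/

namespace Pool.Agent.Helper51.HI

open Finset MulAction

section uniprimitive

variable {G Y : Type*} [Group G] [MulAction G Y] [Fintype Y]

open Classical in
/-- the points which distinguish `x` and `y` -/
noncomputable def Ds (G : Type*) {Y : Type*} [Group G] [MulAction G Y] [Fintype Y] (x y : Y) :
    Finset Y :=
  univ.filter fun z => ¬ ∃ g : G, g • z = z ∧ g • x = y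

theorem mem_Ds {x y z : Y} : z ∈ Ds G x y ↔ ¬ ∃ g : G, g • z = z ∧ g • x = y := by
  classical
  simp [Ds]

theorem Ds_symm (x y : Y) : Ds G x y = Ds G y x := by
  ext z
  rw [mem_Ds, mem_Ds, not_iff_not]
  constructor
  · rintro ⟨g, hg, hg'⟩
    exact ⟨g⁻¹, by rw [inv_smul_eq_iff, hg], by rw [inv_smul_eq_iff, hg']⟩
  · rintro ⟨g, hg, hg'⟩
    exact ⟨g⁻¹, by rw [inv_smul_eq_iff, hg], by rw [inv_smul_eq_iff, hg']⟩

theorem Ds_triangle (x y w : Y) : (Ds G x w).card ≤ (Ds G x y).card + (Ds G y w).card := by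
  classical
  refine (card_le_card ?_).trans (card_union_le _ _)
  intro z hz
  rw [mem_Ds] at hz
  rw [mem_union, mem_Ds, mem_Ds]
  by_contra hcon
  push Not at hcon
  obtain ⟨⟨g, hg, hg'⟩, h, hh, hh'⟩ := hcon
  exact hz ⟨h * g, by rw [mul_smul, hg, hh], by rw [mul_smul, hg', hh']⟩

theorem Ds_smul (h : G) (x y : Y) : (Ds G (h • x) (h • y)).card = (Ds G x y).card := by
  classical
  refine card_bij' (fun z _ => h⁻¹ • z) (fun z _ => h • z) ?_ ?_ ?_ ?_
  · intro z hz
    rw [mem_Ds] at hz ⊢
    rintro ⟨g, hg, hg'⟩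
    refine hz ⟨h * g * h⁻¹, ?_, ?_⟩
    · rw [mul_smul, mul_smul, hg, smul_inv_smul]
    · rw [mul_smul, mul_smul, inv_smul_smul, hg']
  · intro z hz
    rw [mem_Ds] at hz ⊢
    rintro ⟨g, hg, hg'⟩
    refine hz ⟨h⁻¹ * g * h, ?_, ?_⟩
    · rw [mul_smul, mul_smul, hg, inv_smul_smul]
    · rw [mul_smul, mul_smul, hg', inv_smul_smul]
  · intro z _
    rw [smul_inv_smul]
  · intro z _
    rw [inv_smul_smul]

theorem Ds_le_support (g : G) (x : Y) (s : Finset Y) (hs : ∀ z, g • z ≠ z → z ∈ s) :
    (Ds G x (g • x)).card ≤ s.card := by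
  refine card_le_card fun z hz => ?_
  rw [mem_Ds] at hz
  exact hs z fun h => hz ⟨g, h, rfl⟩

omit [Fintype Y] in
/-- an invariant graph with an edge is connected -/
theorem connected_of_primitive [IsPreprimitive G Y] (Φ : SimpleGraph Y)
    (hΦ : ∀ (g : G) x y, Φ.Adj x y → Φ.Adj (g • x) (g • y)) {a b : Y} (hab : Φ.Adj a b) :
    Φ.Connected := by
  have hreach : ∀ (g : G) x y, Φ.Reachable x y → Φ.Reachable (g • x) (g • y) := by
    rintro g x y ⟨w⟩
    let f : Φ →g Φ := ⟨fun x => g • x, fun {x y} h => hΦ g x y h⟩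
    exact ⟨w.map f⟩
  have hblock : IsBlock G {y | Φ.Reachable a y} := by
    rw [isBlock_iff_smul_eq_of_mem]
    intro g y hy hgy
    have hy' : Φ.Reachable a y := hy
    have hgy' : Φ.Reachable a (g • y) := hgy
    have h1 : Φ.Reachable a (g • a) := hgy'.trans (hreach g a y hy').symm
    ext z
    rw [Set.mem_smul_set_iff_inv_smul_mem]
    constructor
    · intro hz
      have hz' : Φ.Reachable a (g⁻¹ • z) := hz
      have h2 := hreach g _ _ hz'
      rw [smul_inv_smul] at h2
      exact h1.trans h2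
    · intro hz
      have hz' : Φ.Reachable a z := hz
      have h2 := hreach g⁻¹ _ _ (h1.symm.trans hz')
      rw [inv_smul_smul] at h2
      exact h2
  rcases IsPreprimitive.isTrivialBlock_of_isBlock hblock with h | h
  · exact (hab.ne (h (SimpleGraph.Reachable.refl a) hab.reachable)).elim
  · have h1 : ∀ y, Φ.Reachable a y := fun y => by
      have : y ∈ {y | Φ.Reachable a y} := by
        rw [h]
        exact Set.mem_univ y
      exact this
    exact (SimpleGraph.connected_iff _).2 ⟨fun x y => (h1 x).symm.trans (h1 y), ⟨a⟩⟩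

omit [Fintype Y] in
theorem dist_smul {Φ : SimpleGraph Y} (hc : Φ.Connected)
    (hΦ : ∀ (g : G) x y, Φ.Adj x y → Φ.Adj (g • x) (g • y)) (g : G) (x y : Y) :
    Φ.dist (g • x) (g • y) = Φ.dist x y := by
  have hle : ∀ (g : G) x y, Φ.dist (g • x) (g • y) ≤ Φ.dist x y := by
    intro g x y
    obtain ⟨w, hw⟩ := hc.exists_walk_length_eq_dist x y
    let f : Φ →g Φ := ⟨fun x => g • x, fun {x y} h => hΦ g x y h⟩
    rw [← hw]
    have h1 := SimpleGraph.dist_le (w.map f)
    rw [SimpleGraph.Walk.length_map] at h1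
    exact h1
  apply le_antisymm (hle g x y)
  have h1 := hle g⁻¹ (g • x) (g • y)
  rwa [inv_smul_smul, inv_smul_smul] at h1

theorem mem_Ds_of_dist {Φ : SimpleGraph Y} (hc : Φ.Connected)
    (hΦ : ∀ (g : G) x y, Φ.Adj x y → Φ.Adj (g • x) (g • y)) (x y z : Y)
    (h : Φ.dist x z ≠ Φ.dist y z) : z ∈ Ds G x y := by
  rw [mem_Ds]
  rintro ⟨g, hg, hg'⟩
  apply h
  rw [← hg', ← hg, dist_smul hc hΦ, hg]

open Classical in
/-- the successors of `x` -/
noncomputable def outR (R : Y → Y → Prop) (x : Y) : Finset Y := univ.filter fun z => R x z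

theorem mem_outR {R : Y → Y → Prop} {x z : Y} : z ∈ outR R x ↔ R x z := by
  classical
  simp [outR]

theorem card_outR_eq [IsPretransitive G Y] {R : Y → Y → Prop}
    (hR : ∀ (g : G) x y, R x y → R (g • x) (g • y)) (x y : Y) :
    (outR R x).card = (outR R y).card := by
  obtain ⟨g, rfl⟩ := exists_smul_eq G x y
  refine card_bij' (fun z _ => g • z) (fun z _ => g⁻¹ • z) ?_ ?_ ?_ ?_
  · intro z hz
    rw [mem_outR] at hz ⊢
    exact hR g x z hz
  · intro z hz
    rw [mem_outR] at hz ⊢
    have := hR g⁻¹ _ _ hz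
    rwa [inv_smul_smul] at this
  · intro z _
    rw [inv_smul_smul]
  · intro z _
    rw [smul_inv_smul]

theorem card_in_eq_out [IsPretransitive G Y] {R : Y → Y → Prop}
    (hR : ∀ (g : G) x y, R x y → R (g • x) (g • y)) (x : Y) :
    (outR (fun a b => R b a) x).card = (outR R x).card := by
  classical
  have hR' : ∀ (g : G) x y, (fun a b => R b a) x y → (fun a b => R b a) (g • x) (g • y) :=
    fun g x y h => hR g y x h
  have h1 : ∑ y, (outR R y).card = ∑ y, (outR (fun a b => R b a) y).card := by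
    simp only [outR, card_filter]
    exact sum_comm
  rw [sum_congr rfl (fun y _ => card_outR_eq hR y x),
    sum_congr rfl (fun y _ => card_outR_eq hR' y x), sum_const, sum_const, smul_eq_mul,
    smul_eq_mul] at h1
  exact (Nat.eq_of_mul_eq_mul_left (card_pos.2 ⟨x, mem_univ x⟩) h1).symm

/-- if all pairs are distinguished by few points then the valencies are small or large -/
theorem valency_bound [IsPretransitive G Y] {R : Y → Y → Prop}
    (hR : ∀ (g : G) x y, R x y → R (g • x) (g • y)) (M : ℕ)
    (hM : ∀ x y : Y, (Ds G x y).card ≤ M) (x : Y) :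
    (outR R x).card * (Fintype.card Y - (outR R x).card) ≤ Fintype.card Y * M := by
  classical
  have hR' : ∀ (g : G) x y, (fun a b => R b a) x y → (fun a b => R b a) (g • x) (g • y) :=
    fun g x y h => hR g y x h
  set n := Fintype.card Y with hn
  set r := (outR R x).card with hr
  have hin : ∀ z, (outR (fun a b => R b a) z).card = r := fun z => by
    rw [card_outR_eq hR' z x, card_in_eq_out hR x]
  have h1 : ∑ p : Y × Y, (univ.filter fun z => R p.1 z ∧ ¬ R p.2 z).card =
      ∑ z : Y, (univ.filter fun p : Y × Y => R p.1 z ∧ ¬ R p.2 z).card := by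
    simp only [card_filter]
    exact sum_comm
  have h2 : ∀ z, (univ.filter fun p : Y × Y => R p.1 z ∧ ¬ R p.2 z).card = r * (n - r) := by
    intro z
    have : (univ.filter fun p : Y × Y => R p.1 z ∧ ¬ R p.2 z) =
        (outR (fun a b => R b a) z) ×ˢ (outR (fun a b => R b a) z)ᶜ := by
      ext p
      rw [mem_filter, mem_product, mem_compl, mem_outR, mem_outR]
      simp
    rw [this, card_product, card_compl, hin]
  have h3 : ∀ p : Y × Y, (univ.filter fun z => R p.1 z ∧ ¬ R p.2 z).card ≤ M := by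
    intro p
    refine (card_le_card ?_).trans (hM p.1 p.2)
    intro z hz
    rw [mem_filter] at hz
    rw [mem_Ds]
    rintro ⟨g, hg, hg'⟩
    apply hz.2.2
    have := hR g _ _ hz.2.1
    rwa [hg, hg'] at this
  have h4 : n * (r * (n - r)) ≤ n * (n * M) := by
    calc n * (r * (n - r)) = ∑ z : Y, (univ.filter fun p : Y × Y => R p.1 z ∧ ¬ R p.2 z).card := by
          rw [sum_congr rfl fun z _ => h2 z, sum_const, card_univ, smul_eq_mul]
      _ = ∑ p : Y × Y, (univ.filter fun z => R p.1 z ∧ ¬ R p.2 z).card := h1.symm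
      _ ≤ ∑ _p : Y × Y, M := sum_le_sum fun p _ => h3 p
      _ = n * (n * M) := by
          rw [sum_const, card_univ, Fintype.card_prod, smul_eq_mul, mul_assoc]
  exact Nat.le_of_mul_le_mul_left h4 (card_pos.2 ⟨x, mem_univ x⟩)

theorem small_or_large {n r M : ℕ} (hr : r ≤ n) (h : r * (n - r) ≤ n * M) :
    r ≤ 2 * M ∨ n - r ≤ 2 * M := by
  by_contra hcon
  push Not at hcon
  obtain ⟨h1, h2⟩ := hcon
  obtain ⟨s, rfl⟩ := Nat.exists_eq_add_of_le hr
  have e : r + s - r = s := by omega
  rw [e] at h h2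
  rcases le_total r s with hrs | hrs
  · have h3 : (2 * M + 1) * s ≤ r * s := Nat.mul_le_mul_right _ h1
    have h4 : (r + s) * M ≤ (2 * s) * M := Nat.mul_le_mul_right _ (by omega)
    nlinarith
  · have h3 : r * (2 * M + 1) ≤ r * s := Nat.mul_le_mul_left _ h2
    have h4 : (r + s) * M ≤ (2 * r) * M := Nat.mul_le_mul_right _ (by omega)
    nlinarith

/-- the bound for the degree -/
def NJ (m : ℕ) : ℕ := (1 + 4 * m) ^ (15 * (2 * m) + 2) + (8 * m + 1)

open Classical in
theorem card_le_of_small [IsPreprimitive G Y] (m M k : ℕ) (hM : M ≤ 2 * m) (hk : k ≤ 4 * m)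
    (Φ : SimpleGraph Y) (hΦ : ∀ (g : G) x y, Φ.Adj x y → Φ.Adj (g • x) (g • y)) {a b : Y}
    (hab : Φ.Adj a b) (hD : ∀ x y, Φ.Adj x y → (Ds G x y).card ≤ M)
    (hval : ∀ x, (univ.filter fun y => Φ.Adj x y).card ≤ k) : Fintype.card Y ≤ NJ m := by
  have hc := connected_of_primitive Φ hΦ hab
  have h1 := card_le_of_valency hc (Ds G) (mem_Ds_of_dist hc hΦ) M hD k hval
  unfold NJ
  refine h1.trans (le_trans ?_ (Nat.le_add_right _ _))
  calc (1 + k) ^ (15 * M + 2) ≤ (1 + 4 * m) ^ (15 * M + 2) := Nat.pow_le_pow_left (by omega) _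
    _ ≤ _ := Nat.pow_le_pow_right (by omega) (by omega)

/-- a primitive group which is not doubly transitive and has an element with small support has
bounded degree -/
theorem uniprimitive_bound [IsPreprimitive G Y] (m : ℕ) {a b c : Y} (hba : b ≠ a) (hca : c ≠ a)
    (hbc : ¬ ∃ g : G, g • a = a ∧ g • b = c) {x₀ y₀ : Y} (hxy : x₀ ≠ y₀)
    (hm : (Ds G x₀ y₀).card ≤ m) : Fintype.card Y ≤ NJ m := by
  classical
  -- the graph of the pairs which are distinguished by few points
  let Θ : SimpleGraph Y :=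
    { Adj := fun x y => x ≠ y ∧ (Ds G x y).card ≤ m
      symm := ⟨fun x y h => ⟨h.1.symm, by rw [Ds_symm]; exact h.2⟩⟩
      loopless := ⟨fun x h => h.1 rfl⟩ }
  have hΘ : ∀ (g : G) x y, Θ.Adj x y → Θ.Adj (g • x) (g • y) := by
    intro g x y h
    exact ⟨fun h' => h.1 (smul_left_cancel g h'), by rw [Ds_smul]; exact h.2⟩
  have hΘc : Θ.Connected := connected_of_primitive Θ hΘ (a := x₀) (b := y₀) ⟨hxy, hm⟩
  by_cases hdiam : ∃ x y, 3 ≤ Θ.dist x y
  · obtain ⟨x, y, hxy3⟩ := hdiam
    have hval := valency_le hΘc (Ds G) (mem_Ds_of_dist hΘc hΘ) m (fun x y h => h.2) x y hxy3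
    refine card_le_of_small (G := G) m m (3 * m) (by omega) (by omega) Θ hΘ (a := x₀) (b := y₀)
      ⟨hxy, hm⟩ (fun x y h => h.2) fun z => ?_
    refine le_of_eq_of_le ?_ hval
    exact card_outR_eq (R := Θ.Adj) hΘ z x
  · push Not at hdiam
    have hall : ∀ x y : Y, (Ds G x y).card ≤ 2 * m := by
      intro x y
      obtain ⟨w, hw⟩ := hΘc.exists_walk_length_eq_dist x y
      have hlen : w.length ≤ 2 := by
        have := hdiam x y
        omega
      have key : ∀ j ≤ w.length, (Ds G x (w.getVert j)).card ≤ j * m := by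
        intro j
        induction j with
        | zero =>
          intro _
          rw [SimpleGraph.Walk.getVert_zero, zero_mul, Nat.le_zero, card_eq_zero]
          ext z
          rw [mem_Ds]
          simp only [not_exists, notMem_empty, iff_false, not_forall]
          exact ⟨1, by simp⟩
        | succ j ih =>
          intro hj
          have h1 := ih (by omega)
          have h2 := (w.adj_getVert_succ (i := j) (by omega)).2
          have h3 := Ds_triangle (G := G) x (w.getVert j) (w.getVert (j + 1))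
          calc _ ≤ _ := h3
            _ ≤ j * m + m := Nat.add_le_add h1 h2
            _ = (j + 1) * m := by ring
      have h1 := key w.length le_rfl
      rw [SimpleGraph.Walk.getVert_length] at h1
      exact h1.trans (Nat.mul_le_mul_right _ hlen)
    -- the symmetrised orbital of `(a, b)`
    set R' : Y → Y → Prop := fun x y => ∃ g : G, g • a = x ∧ g • b = y with hR'
    have hR'i : ∀ (g : G) x y, R' x y → R' (g • x) (g • y) := by
      rintro g x y ⟨h, h1, h2⟩
      exact ⟨g * h, by rw [mul_smul, h1], by rw [mul_smul, h2]⟩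
    have hR'ne : ∀ x y, R' x y → x ≠ y := by
      rintro x y ⟨h, h1, h2⟩ rfl
      exact hba (smul_left_cancel h (h2.trans h1.symm))
    let Φ₁ : SimpleGraph Y :=
      { Adj := fun x y => R' x y ∨ R' y x
        symm := ⟨fun x y h => h.symm⟩
        loopless := ⟨fun x h => by
          rcases h with h | h
          · exact hR'ne x x h rfl
          · exact hR'ne x x h rfl⟩ }
    have hΦ₁ : ∀ (g : G) x y, Φ₁.Adj x y → Φ₁.Adj (g • x) (g • y) := by
      intro g x y h
      exact h.imp (hR'i g x y) (hR'i g y x)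
    let Φ₂ : SimpleGraph Y :=
      { Adj := fun x y => x ≠ y ∧ ¬ Φ₁.Adj x y
        symm := ⟨fun x y h => ⟨h.1.symm, fun h' => h.2 h'.symm⟩⟩
        loopless := ⟨fun x h => h.1 rfl⟩ }
    have hΦ₂ : ∀ (g : G) x y, Φ₂.Adj x y → Φ₂.Adj (g • x) (g • y) := by
      intro g x y h
      refine ⟨fun h' => h.1 (smul_left_cancel g h'), fun h' => h.2 ?_⟩
      have := hΦ₁ g⁻¹ _ _ h'
      rwa [inv_smul_smul, inv_smul_smul] at this
    have hedge : Φ₁.Adj a b := Or.inl ⟨1, by simp, by simp⟩
    have hle : ∀ (R : Y → Y → Prop) (x : Y), (outR R x).card ≤ Fintype.card Y := fun R x =>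
      card_le_univ _
    rcases small_or_large (hle _ a) (valency_bound hΦ₁ (2 * m) hall a) with h1 | h1
    · refine card_le_of_small (G := G) m (2 * m) (4 * m) le_rfl le_rfl Φ₁ hΦ₁ hedge
        (fun x y _ => hall x y) fun z => ?_
      refine le_of_eq_of_le (card_outR_eq (R := Φ₁.Adj) hΦ₁ z a) (h1.trans (by omega))
    · by_cases hedge₂ : ∃ x y, Φ₂.Adj x y
      · obtain ⟨x, y, hxy₂⟩ := hedge₂
        refine card_le_of_small (G := G) m (2 * m) (4 * m) le_rfl le_rfl Φ₂ hΦ₂ hxy₂
          (fun x y _ => hall x y) fun z => ?_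
        refine le_of_eq_of_le (card_outR_eq (R := Φ₂.Adj) hΦ₂ z a) ?_
        have h2 : outR Φ₂.Adj a ⊆ (outR Φ₁.Adj a)ᶜ := by
          intro z hz
          rw [mem_outR] at hz
          rw [mem_compl, mem_outR]
          exact hz.2
        have h3 := card_le_card h2
        rw [card_compl] at h3
        omega
      · push Not at hedge₂
        have hall₁ : ∀ x y, x ≠ y → R' x y ∨ R' y x := by
          intro x y hne
          by_contra h
          exact hedge₂ x y ⟨hne, h⟩
        have hasym : ∀ x y, R' x y → ¬ R' y x := by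
          rintro x y ⟨g, h1, h2⟩ ⟨h, h3, h4⟩
          -- `k = h⁻¹ * g` exchanges `a` and `b`
          have hka : (h⁻¹ * g) • a = b := by
            rw [mul_smul, h1, inv_smul_eq_iff, h4]
          have hkb : (h⁻¹ * g) • b = a := by
            rw [mul_smul, h2, inv_smul_eq_iff, h3]
          rcases hall₁ a c hca.symm with ⟨l, h5, h6⟩ | ⟨l, h5, h6⟩
          · exact hbc ⟨l, h5, h6⟩
          · refine hbc ⟨l * (h⁻¹ * g), ?_, ?_⟩
            · rw [mul_smul, hka, h6]
            · rw [mul_smul, hkb, h5]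
        have hin := card_in_eq_out hR'i a
        have hunion : (outR R' a).card + (outR (fun x y => R' y x) a).card + 1 =
            Fintype.card Y := by
          rw [← card_union_of_disjoint]
          · have h2 : outR R' a ∪ outR (fun x y => R' y x) a = univ.erase a := by
              ext z
              rw [mem_union, mem_outR, mem_outR, mem_erase]
              constructor
              · rintro (h | h)
                · exact ⟨(hR'ne _ _ h).symm, mem_univ _⟩
                · exact ⟨hR'ne _ _ h, mem_univ _⟩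
              · rintro ⟨h, -⟩
                exact hall₁ a z h.symm
            rw [h2, card_erase_of_mem (mem_univ a), card_univ]
            have : 0 < Fintype.card Y := Fintype.card_pos_iff.2 ⟨a⟩
            omega
          · rw [disjoint_left]
            intro z hz hz'
            rw [mem_outR] at hz hz'
            exact hasym _ _ hz hz'
        have hv := small_or_large (hle _ a) (valency_bound hR'i (2 * m) hall a)
        unfold NJ
        omega

end uniprimitive

section averaging

variable {G Y : Type*} [Group G] [Finite G] [MulAction G Y]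

/-- translates of a finite set avoid a finite set if the orbits are large -/
theorem exists_avoid (A B : Finset Y) (N : ℕ) (hN : ∀ b ∈ B, N ≤ Nat.card (orbit G b))
    (h : A.card * B.card < N) : ∃ g : G, ∀ b ∈ B, g • b ∉ A := by
  classical
  have := Fintype.ofFinite G
  by_contra hcon
  push Not at hcon
  set F : Y × Y → Finset G := fun p => univ.filter fun g : G => g • p.2 = p.1 with hF
  have hcover : (univ : Finset G) ⊆ (A ×ˢ B).biUnion F := by
    intro g _
    obtain ⟨b, hb, hgb⟩ := hcon g
    rw [mem_biUnion]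
    exact ⟨(g • b, b), mem_product.2 ⟨hgb, hb⟩, by simp [hF]⟩
  have hFc : ∀ p ∈ A ×ˢ B, (F p).card * N ≤ Fintype.card G := by
    rintro ⟨a, b⟩ hp
    rw [mem_product] at hp
    have h1 : (F (a, b)).card ≤ Nat.card (stabilizer G b) := by
      have hst : Nat.card (stabilizer G b) = (univ.filter fun g : G => g • b = b).card := by
        rw [Nat.card_eq_fintype_card, Fintype.card_subtype]
        rfl
      rw [hst]
      rcases (F (a, b)).eq_empty_or_nonempty with he | ⟨g₀, hg₀⟩
      · rw [he]
        exact Nat.zero_le _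
      · rw [hF, mem_filter] at hg₀
        refine card_le_card_of_injOn (fun g => g₀⁻¹ * g) ?_ ?_
        · intro g hg
          rw [hF, mem_coe, mem_filter] at hg
          rw [mem_coe, mem_filter]
          refine ⟨mem_univ _, ?_⟩
          have h3 : g • b = a := hg.2
          have h4 : g₀ • b = a := hg₀.2
          rw [mul_smul, h3, inv_smul_eq_iff, h4]
        · intro g _ g' _ h
          exact mul_left_cancel h
    have h2 : Nat.card (orbit G b) * Nat.card (stabilizer G b) = Nat.card G := by
      rw [← Nat.card_prod]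
      exact Nat.card_congr (orbitProdStabilizerEquivGroup G b)
    rw [← Nat.card_eq_fintype_card, ← h2, mul_comm]
    exact Nat.mul_le_mul (hN b hp.2) h1
  have h1 : Fintype.card G * N ≤ (A.card * B.card) * Fintype.card G := by
    calc Fintype.card G * N ≤ ((A ×ˢ B).biUnion F).card * N :=
          Nat.mul_le_mul_right _ (card_le_card hcover)
      _ ≤ (∑ p ∈ A ×ˢ B, (F p).card) * N := Nat.mul_le_mul_right _ card_biUnion_le
      _ = ∑ p ∈ A ×ˢ B, (F p).card * N := sum_mul _ _ _
      _ ≤ ∑ _p ∈ A ×ˢ B, Fintype.card G := sum_le_sum hFc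
      _ = (A.card * B.card) * Fintype.card G := by
          rw [sum_const, card_product, smul_eq_mul]
  rw [mul_comm (Fintype.card G)] at h1
  exact absurd (Nat.le_of_mul_le_mul_right h1 Fintype.card_pos) (not_le.2 h)

end averaging

section jordan

open Equiv Equiv.Perm

variable {Y : Type*} [Fintype Y] [DecidableEq Y]

omit [Fintype Y] [DecidableEq Y] in
theorem ai (e : Perm Y) (x : Y) : e (e⁻¹ x) = x := e.apply_symm_apply x

omit [Fintype Y] [DecidableEq Y] in
theorem ia (e : Perm Y) (x : Y) : e⁻¹ (e x) = x := e.symm_apply_apply x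

/-- two permutations whose supports meet in one point have a 3-cycle as commutator -/
theorem isThreeCycle_commutator (g h : Perm Y) (a : Y) (hga : g a ≠ a) (hha : h a ≠ a)
    (hgh : ∀ z, g z ≠ z → h z ≠ z → z = a) : IsThreeCycle (g * h * g⁻¹ * h⁻¹) := by
  have hg1 : ∀ z, z ≠ a → h z ≠ z → g z = z := fun z hz hh => by
    by_contra hg
    exact hz (hgh z hg hh)
  have hh1 : ∀ z, z ≠ a → g z ≠ z → h z = z := fun z hz hg => by
    by_contra hh
    exact hz (hgh z hg hh)
  have hinv : ∀ (f : Perm Y) z, f z ≠ z → f (f⁻¹ z) ≠ f⁻¹ z := by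
    intro f z hf hcon
    apply hf
    rw [ai] at hcon
    conv_lhs => rw [hcon]
    rw [ai]
  have hne : ∀ (f : Perm Y), f a ≠ a → f⁻¹ a ≠ a := by
    intro f hf hcon
    apply hf
    conv_lhs => rw [← hcon]
    rw [ai]
  have hfwd : ∀ (f : Perm Y) z, f z ≠ z → f (f z) ≠ f z := fun f z hf hcon => hf (f.injective hcon)
  -- values
  have hha_g : g (h a) = h a := hg1 _ hha (hfwd h a hha)
  have hga_h : h (g a) = g a := hh1 _ hga (hfwd g a hga)
  have hga_h' : h⁻¹ (g a) = g a := by rw [inv_eq_iff_eq, hga_h]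
  have hgi_h : h (g⁻¹ a) = g⁻¹ a := hh1 _ (hne g hga) (hinv g a hga)
  have hhi_g : g (h⁻¹ a) = h⁻¹ a := hg1 _ (hne h hha) (hinv h a hha)
  have hhi_g' : g⁻¹ (h⁻¹ a) = h⁻¹ a := by rw [inv_eq_iff_eq, hhi_g]
  have hhaga : h a ≠ g a := by
    intro hcon
    have h1 := hfwd g a hga
    rw [← hcon, hha_g] at h1
    exact h1 rfl
  have hk : g * h * g⁻¹ * h⁻¹ = swap a (h a) * swap a (g a) := by
    ext z
    simp only [Perm.mul_apply]
    by_cases hza : z = a
    · subst hza
      rw [hhi_g', ai, swap_apply_left, swap_apply_of_ne_of_ne hga hhaga.symm]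
    by_cases hzg : z = g a
    · subst hzg
      rw [hga_h', ia, hha_g, swap_apply_right, swap_apply_left]
    by_cases hzh : z = h a
    · subst hzh
      rw [ia, hgi_h, ai, swap_apply_of_ne_of_ne hha hhaga,
        swap_apply_right]
    rw [swap_apply_of_ne_of_ne hza hzg, swap_apply_of_ne_of_ne hza hzh]
    by_cases hzs : h z = z
    · have h1 : h⁻¹ z = z := by rw [inv_eq_iff_eq, hzs]
      rw [h1]
      by_cases hgz : g z = z
      · have h2 : g⁻¹ z = z := by rw [inv_eq_iff_eq, hgz]
        rw [h2, hzs, hgz]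
      · have h2 : g⁻¹ z ≠ a := fun hcon => hzg (by rw [← hcon, ai])
        rw [hh1 _ h2 (hinv g z hgz), ai]
    · have h1 : h⁻¹ z ≠ a := fun hcon => hzh (by rw [← hcon, ai])
      have h2 : g (h⁻¹ z) = h⁻¹ z := hg1 _ h1 (hinv h z hzs)
      have h3 : g⁻¹ (h⁻¹ z) = h⁻¹ z := by rw [inv_eq_iff_eq, h2]
      rw [h3, ai, hg1 _ hza hzs]
  rw [hk]
  exact isThreeCycle_swap_mul_swap_same hha.symm hga.symm hhaga

/-- Jordan: a primitive group of large degree with a nontrivial element of small support contains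
the alternating group -/
theorem jordan (G : Subgroup (Perm Y)) [hG : IsPreprimitive G Y] (m : ℕ) (g : Perm Y) (hg : g ∈ G)
    (hg1 : g ≠ 1) (hm : g.support.card ≤ m) (hY : NJ m < Fintype.card Y) :
    alternatingGroup Y ≤ G := by
  classical
  obtain ⟨a, ha⟩ : ∃ a, g a ≠ a := by
    by_contra hcon
    push Not at hcon
    exact hg1 (Equiv.ext hcon)
  have hNJ : m * m + 1 < Fintype.card Y := by
    refine lt_of_le_of_lt ?_ hY
    unfold NJ
    have h1 : (1 + 4 * m) ^ 2 ≤ (1 + 4 * m) ^ (15 * (2 * m) + 2) :=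
      Nat.pow_le_pow_right (by omega) (by omega)
    nlinarith
  have hDs : (Ds G a (g a)).card ≤ m := by
    have h1 := Ds_le_support (G := G) (⟨g, hg⟩ : G) a g.support (fun z hz => by
      rw [mem_support]
      exact hz)
    exact h1.trans hm
  have htrans : ∀ b c : Y, b ≠ a → c ≠ a → ∃ h : G, h • a = a ∧ h • b = c := by
    intro b c hb hc
    by_contra hcon
    have := uniprimitive_bound (G := G) m hb hc hcon ha.symm hDs
    omega
  -- a conjugate whose support meets the support of `g` in `a` only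
  set B : Finset Y := g.support.erase a with hB
  have hBc : B.card ≤ m := (card_le_card (erase_subset _ _)).trans hm
  obtain ⟨h, hh⟩ := exists_avoid (G := stabilizer G a) B B (Fintype.card Y - 1) (by
      intro b hb
      have hba : b ≠ a := (mem_erase.1 hb).1
      have h1 : ((univ.erase a : Finset Y) : Set Y) ⊆ orbit (stabilizer G a) b := by
        intro c hc
        have hca : c ≠ a := (mem_erase.1 (mem_coe.1 hc)).1
        obtain ⟨k, hk, hk'⟩ := htrans b c hba hca
        exact ⟨⟨k, hk⟩, hk'⟩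
      have h2 := Nat.card_mono (Set.toFinite _) h1
      rw [Nat.card_coe_set_eq, Set.ncard_coe_finset, card_erase_of_mem (mem_univ a),
        card_univ] at h2
      exact h2)
    (by
      have := Nat.mul_le_mul hBc hBc
      omega)
  obtain ⟨⟨h, hhG⟩, hha⟩ := h
  have hha' : h a = a := hha
  set g' : Perm Y := h * g * h⁻¹ with hg'
  have hg'G : g' ∈ G := G.mul_mem (G.mul_mem hhG hg) (G.inv_mem hhG)
  have hhinv : h⁻¹ a = a := by rw [inv_eq_iff_eq, hha']
  have h1 : g' a ≠ a := by
    rw [hg', Perm.mul_apply, Perm.mul_apply, hhinv]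
    intro hcon
    exact ha (h.injective (by rw [hcon, hha']))
  have h3 := isThreeCycle_commutator g g' a ha h1 (fun z hz hz' => by
    by_contra hza
    have hzB : z ∈ B := mem_erase.2 ⟨hza, mem_support.2 hz⟩
    have h4 : g (h⁻¹ z) ≠ h⁻¹ z := by
      intro hcon
      apply hz'
      rw [hg', Perm.mul_apply, Perm.mul_apply, hcon, ai]
    have h5 : h⁻¹ z ≠ a := by
      intro hcon
      apply hza
      rw [← hha', ← hcon, ai]
    have h6 : h⁻¹ z ∈ B := mem_erase.2 ⟨h5, mem_support.2 h4⟩
    have h7 := hh _ h6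
    apply h7
    show h (h⁻¹ z) ∈ B
    rw [ai]
    exact hzB)
  exact alternatingGroup_le_of_isPreprimitive_of_isThreeCycle_mem hG h3
    (G.mul_mem (G.mul_mem (G.mul_mem hg hg'G) (G.inv_mem hg)) (G.inv_mem hg'G))

end jordan

end Pool.Agent.Helper51.HI
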