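import Pool.Agent.Helper51.HI.Sylv

set_option autoImplicit false

/-!
The branch of a plane curve at a simple point.
-/

namespace Pool.Agent.Helper51.HI

open Polynomial

variable {K : Type*} [Field K]

/-- the number `f(0, 0)` -/
theorem eval_eval_zero (f : K[X][X]) (p : K[X]) (hp : p.coeff 0 = 0) :
    (f.eval p).coeff 0 = (f.coeff 0).coeff 0 := by
  rw [coeff_zero_eq_eval_zero, coeff_zero_eq_eval_zero]
  have h1 : (f.eval p).eval 0 = (f.map (evalRingHom 0)).eval (p.eval 0) := by
    have := Polynomial.hom_eval₂ f (RingHom.id _) (evalRingHom (0 : K)) p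
    rw [RingHom.comp_id] at this
    rw [eval_map]
    exact this
  rw [h1, ← coeff_zero_eq_eval_zero p, hp, ← coeff_zero_eq_eval_zero, coeff_map]
  rfl

/-- a polynomial approximation of the branch -/
theorem exists_branch (f : K[X][X]) (h0 : (f.coeff 0).coeff 0 = 0)
    (h1 : (f.coeff 1).coeff 0 ≠ 0) (Q : ℕ) :
    ∃ p : K[X], p.coeff 0 = 0 ∧ X ^ Q ∣ f.eval p := by
  induction Q with
  | zero => exact ⟨0, coeff_zero 0, by simp⟩
  | succ Q ih =>
    rcases Nat.eq_zero_or_pos Q with hQ | hQ
    · subst hQ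
      refine ⟨0, coeff_zero 0, ?_⟩
      rw [zero_add, pow_one, X_dvd_iff, eval_eval_zero f 0 (coeff_zero 0), h0]
    · obtain ⟨p, hp, u, hu⟩ := ih
      set e : K := (derivative f).eval p |>.coeff 0 with he
      have he0 : e ≠ 0 := by
        rw [he, eval_eval_zero _ p hp, coeff_derivative]
        simpa using h1
      set c : K := -(u.coeff 0) / e with hc
      refine ⟨p + C c * X ^ Q, ?_, ?_⟩
      · rw [coeff_add, hp, coeff_C_mul, coeff_X_pow, if_neg (by omega), mul_zero, add_zero]
      · obtain ⟨k, hk⟩ := Polynomial.binomExpansion f p (C c * X ^ Q)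
        rw [hk, hu]
        have h2 : X ^ Q * u + (derivative f).eval p * (C c * X ^ Q) + k * (C c * X ^ Q) ^ 2 =
            X ^ Q * (u + (derivative f).eval p * C c) + X ^ (Q + 1) * (X ^ (Q - 1) * (k * C c ^ 2)) := by
          obtain ⟨q, rfl⟩ : ∃ q, Q = q + 1 := ⟨Q - 1, by omega⟩
          simp only [Nat.add_sub_cancel]
          ring
        rw [h2]
        refine dvd_add ?_ (dvd_mul_right _ _)
        rw [pow_succ]
        refine mul_dvd_mul_left _ ?_
        rw [X_dvd_iff, coeff_add, coeff_mul_C, ← he, hc]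
        field_simp
        ring

/-- congruence for the resultant -/
theorem resultant_congr (f G : K[X][X]) (n : ℕ) (hf : f.natDegree = n + 1)
    (hG : G.natDegree ≤ n) (p : K[X]) (Q : ℕ) (hp : X ^ Q ∣ f.eval p) :
    (f /ₘ (X - C p)).natDegree = n ∧
    X ^ Q ∣ resultant f G (n + 1) n - G.eval p * resultant (f /ₘ (X - C p)) G n n := by
  set g := f /ₘ (X - C p) with hg
  have hgd : g.natDegree = n := by
    rw [hg, natDegree_divByMonic _ (monic_X_sub_C p), hf, natDegree_X_sub_C]
    omega
  refine ⟨hgd, ?_⟩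
  have hf' : f = (X - C p) * g + C (f.eval p) := by
    have := modByMonic_add_div f (X - C p)
    rw [modByMonic_X_sub_C_eq_C_eval] at this
    rw [add_comm]
    exact this.symm
  set I : Ideal K[X] := Ideal.span {X ^ Q} with hI
  have hmem : ∀ z, X ^ Q ∣ z ↔ Ideal.Quotient.mk I z = 0 := by
    intro z
    rw [Ideal.Quotient.eq_zero_iff_mem, hI, Ideal.mem_span_singleton]
  rw [hmem, map_sub, sub_eq_zero]
  have h1 : f.map (Ideal.Quotient.mk I) = ((X - C p) * g).map (Ideal.Quotient.mk I) := by
    conv_lhs => rw [hf']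
    rw [Polynomial.map_add, map_C, (hmem _).1 hp, C_0, add_zero]
  rw [← resultant_map_map, h1, resultant_map_map]
  congr 1
  have h2 := resultant_mul_left (X - C p) g G n hG
  rw [natDegree_X_sub_C, hgd, resultant_X_sub_C_left _ _ _ hG, add_comm 1 n] at h2
  exact h2

/-- `0` for the residual factor -/
theorem residual_eval (f : K[X][X]) (p : K[X]) (hp : p.coeff 0 = 0)
    (h0 : (f.coeff 0).coeff 0 = 0) :
    (f.map (evalRingHom 0)) = X * (f /ₘ (X - C p)).map (evalRingHom 0) := by
  have hf' : f = (X - C p) * (f /ₘ (X - C p)) + C (f.eval p) := by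
    have := modByMonic_add_div f (X - C p)
    rw [modByMonic_X_sub_C_eq_C_eval] at this
    rw [add_comm]
    exact this.symm
  conv_lhs => rw [hf']
  rw [Polynomial.map_add, map_C, Polynomial.map_mul, Polynomial.map_sub, map_X, map_C,
    coe_evalRingHom, ← coeff_zero_eq_eval_zero, ← coeff_zero_eq_eval_zero,
    eval_eval_zero f p hp, h0, hp, C_0, add_zero, sub_zero]

theorem residual_coeff (f : K[X][X]) (p : K[X]) (hp : p.coeff 0 = 0)
    (h0 : (f.coeff 0).coeff 0 = 0) (i : ℕ) :
    ((f /ₘ (X - C p)).map (evalRingHom 0)).coeff i = (f.coeff (i + 1)).coeff 0 := by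
  have h := congrArg (fun q => coeff q (i + 1)) (residual_eval f p hp h0)
  simp only [coeff_map, coeff_X_mul, coe_evalRingHom] at h
  rw [coeff_map, coe_evalRingHom, ← h, coeff_zero_eq_eval_zero]

/-- the resultant does not vanish -/
theorem resultant_ne_zero' (f G : K[X][X]) (n : ℕ) (hirr : Irreducible f)
    (hf : f.natDegree = n + 1) (hG : G.natDegree ≤ n) (hG0 : G ≠ 0) :
    resultant f G (n + 1) n ≠ 0 := by
  have hprim : f.IsPrimitive := hirr.isPrimitive (by omega)
  have hirr' : Irreducible (f.map (algebraMap K[X] (FractionRing K[X]))) :=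
    (hprim.irreducible_iff_irreducible_map_fraction_map).1 hirr
  set φ := algebraMap K[X] (FractionRing K[X]) with hφ
  have hinj : Function.Injective φ := IsFractionRing.injective _ _
  intro h
  have h1 : resultant (f.map φ) (G.map φ) (n + 1) n = 0 := by
    rw [resultant_map_map, h, map_zero]
  have hfd : (f.map φ).natDegree = n + 1 := by
    rw [natDegree_map_eq_of_injective hinj, hf]
  have hGd : (G.map φ).natDegree ≤ n := natDegree_map_le.trans hG
  have hGne : G.map φ ≠ 0 := (Polynomial.map_ne_zero_iff hinj).2 hG0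
  obtain ⟨k, hk⟩ := Nat.exists_eq_add_of_le hGd
  have h2 := resultant_add_right_deg (f.map φ) (G.map φ) (n + 1) (G.map φ).natDegree k le_rfl
  rw [← hk, h1] at h2
  have hlead : (f.map φ).coeff (n + 1) ≠ 0 := by
    rw [← hfd]
    exact leadingCoeff_ne_zero.2 hirr'.ne_zero
  rcases mul_eq_zero.1 h2.symm with h3 | h3
  · exact pow_ne_zero _ hlead h3
  · rw [← hfd] at h3
    have h4 := (resultant_eq_zero_iff.1 h3).2
    apply h4
    rw [hirr'.coprime_iff_not_dvd]
    intro hdvd
    have := natDegree_le_of_dvd hdvd hGne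
    omega

end Pool.Agent.Helper51.HI
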