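import Pool.Agent.Helper51.HI.Hensel

set_option autoImplicit false

/-!
Ordered fields with the intermediate value property for polynomials.
-/

namespace Pool.Agent.Helper51.HI

open Polynomial Filter Topology

theorem exists_small_order {K F : Type*} [Field K] [Field F] [LinearOrder F]
    [IsStrictOrderedRing F] [Algebra K F] [Algebra.IsAlgebraic K F] (ε : F) (hε : 0 < ε) :
    ∃ x : K, x ≠ 0 ∧ |algebraMap K F x| < ε := by
  obtain ⟨y, hy0, hy1, hyε⟩ : ∃ y : F, 0 < y ∧ y ≤ 1 ∧ y < ε := by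
    refine ⟨min 1 (ε / 2), lt_min one_pos (half_pos hε), min_le_left _ _, ?_⟩
    exact (min_le_right _ _).trans_lt (half_lt_self hε)
  have hint : IsIntegral K y := Algebra.IsIntegral.isIntegral y
  set p := minpoly K y with hp
  have hp0 : p.coeff 0 ≠ 0 := minpoly.coeff_zero_ne_zero hint hy0.ne'
  have habs : ∀ c : K, ∃ s : K, algebraMap K F s = |algebraMap K F c| := by
    intro c
    rcases abs_choice (algebraMap K F c) with h | h
    · exact ⟨c, h.symm⟩
    · exact ⟨-c, by rw [h, map_neg]⟩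
  choose s hs using habs
  set S : K := ∑ k ∈ Finset.range p.natDegree, s (p.coeff (k + 1)) with hS
  have hroot : aeval y p = 0 := minpoly.aeval K y
  rw [aeval_eq_sum_range, Finset.sum_range_succ'] at hroot
  have h0 : 0 < |algebraMap K F (p.coeff 0)| := abs_pos.2 ((_root_.map_ne_zero _).2 hp0)
  have hSF : algebraMap K F S = ∑ k ∈ Finset.range p.natDegree, |algebraMap K F (p.coeff (k + 1))| := by
    rw [hS, map_sum]
    exact Finset.sum_congr rfl fun k _ => hs _
  have h1 : |algebraMap K F (p.coeff 0)| ≤ algebraMap K F S * y := by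
    have h2 : algebraMap K F (p.coeff 0) =
        -∑ k ∈ Finset.range p.natDegree, p.coeff (k + 1) • y ^ (k + 1) := by
      rw [pow_zero, Algebra.smul_def, mul_one] at hroot
      exact (neg_eq_of_add_eq_zero_right hroot).symm
    rw [h2, abs_neg, hSF, Finset.sum_mul]
    refine (Finset.abs_sum_le_sum_abs _ _).trans (Finset.sum_le_sum fun k _ => ?_)
    rw [Algebra.smul_def, abs_mul, abs_of_pos (pow_pos hy0 _), pow_succ]
    refine mul_le_mul_of_nonneg_left ?_ (abs_nonneg _)
    exact mul_le_of_le_one_left hy0.le (pow_le_one₀ hy0.le hy1)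
  have hSpos : 0 < algebraMap K F S := by
    by_contra h
    have := mul_nonpos_of_nonpos_of_nonneg (not_lt.1 h) hy0.le
    exact absurd (h0.trans_le h1) (not_lt.2 this)
  have hS0 : S ≠ 0 := by
    rintro h
    rw [h, map_zero] at hSpos
    exact lt_irrefl _ hSpos
  refine ⟨p.coeff 0 / S, div_ne_zero hp0 hS0, ?_⟩
  rw [map_div₀, abs_div, abs_of_pos hSpos, div_lt_iff₀ hSpos]
  refine h1.trans_lt ?_
  rw [mul_comm]
  exact mul_lt_mul_of_pos_right hyε hSpos

theorem th_of_ivt {K F : Type*} [Field K] [Field F] [LinearOrder F] [IsStrictOrderedRing F]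
    [Algebra K F] [Algebra.IsAlgebraic K F]
    (hivt : ∀ (p : F[X]) (a b : F), a ≤ b → p.eval a * p.eval b < 0 →
      ∃ x, a ≤ x ∧ x ≤ b ∧ p.eval x = 0) : TH K F := by
  let _ : TopologicalSpace F := Preorder.topology F
  have : OrderTopology F := ⟨rfl⟩
  have hb := nhds_basis_zero_abs_lt F
  refine ⟨inferInstance, inferInstance, inferInstance, fun P a h0 h1 U hU => ?_, ?_, ?_⟩
  · refine srp_of_zero (fun P h0 h1 U hU => ?_) P a h0 h1 U hU
    obtain ⟨ε, hε, hεU⟩ := hb.mem_iff.1 hU
    set p₀ := P.map (evalRingHom (0 : F)) with hp₀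
    have hc0 : p₀.coeff 0 = 0 := by
      rw [hp₀, coeff_map, coe_evalRingHom, h0]
    have hc1 : p₀.coeff 1 ≠ 0 := by
      rw [hp₀, coeff_map, coe_evalRingHom]
      exact h1
    obtain ⟨r, hr⟩ := X_dvd_iff.2 hc0
    have hr0 : r.eval 0 ≠ 0 := by
      rw [← coeff_zero_eq_eval_zero]
      rw [hr, coeff_X_mul] at hc1
      exact hc1
    have hrev : ∀ᶠ x in 𝓝 (0 : F), 0 < r.eval x * r.eval 0 := by
      have h2 : Tendsto (fun x => r.eval x * r.eval 0) (𝓝 0) (𝓝 (r.eval 0 * r.eval 0)) :=
        ((Polynomial.continuous r).tendsto 0).mul tendsto_const_nhds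
      exact h2.eventually (lt_mem_nhds (mul_self_pos.2 hr0))
    obtain ⟨ε', hε', hε'r⟩ := hb.mem_iff.1 hrev
    set η := min ε ε' / 2 with hη
    have hmin : 0 < min ε ε' := lt_min hε hε'
    have hη0 : 0 < η := half_pos hmin
    have hηε : η < ε := (half_lt_self hmin).trans_le (min_le_left _ _)
    have hηε' : η < ε' := (half_lt_self hmin).trans_le (min_le_right _ _)
    have hpos : 0 < r.eval η * r.eval 0 := hε'r (by
      show |η| < ε'
      rw [abs_of_pos hη0]
      exact hηε')
    have hneg : 0 < r.eval (-η) * r.eval 0 := hε'r (by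
      show |-η| < ε'
      rw [abs_neg, abs_of_pos hη0]
      exact hηε')
    have hprod : 0 < r.eval (-η) * r.eval η := by
      have h2 : 0 < (r.eval (-η) * r.eval η) * (r.eval 0 * r.eval 0) := by
        have := mul_pos hneg hpos
        calc 0 < _ := this
          _ = _ := by ring
      exact pos_of_mul_pos_left h2 (mul_self_nonneg _)
    have hsign : p₀.eval (-η) * p₀.eval η < 0 := by
      rw [hr, eval_mul, eval_mul, eval_X, eval_X]
      have h2 : -η * r.eval (-η) * (η * r.eval η) = -(η * η * (r.eval (-η) * r.eval η)) := by ring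
      rw [h2, neg_lt_zero]
      exact mul_pos (mul_pos hη0 hη0) hprod
    have hlim : Tendsto (fun d : F => (P.map (evalRingHom d)).eval (-η) *
        (P.map (evalRingHom d)).eval η) (𝓝 0) (𝓝 (p₀.eval (-η) * p₀.eval η)) := by
      have h2 : ∀ x : F, Continuous fun d : F => (P.map (evalRingHom d)).eval x := fun x =>
        (continuous_eval₂ P).comp (continuous_id.prodMk continuous_const)
      exact ((h2 (-η)).tendsto 0).mul ((h2 η).tendsto 0)
    filter_upwards [hlim.eventually (gt_mem_nhds hsign)] with d hd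
    obtain ⟨x, hx1, hx2, hx⟩ := hivt _ (-η) η (by linarith) hd
    refine ⟨x, hεU ?_, hx⟩
    show |x| < ε
    exact (abs_le.2 ⟨hx1, hx2⟩).trans_lt hηε
  · intro U hU W hW
    obtain ⟨ε, hε, hεU⟩ := hb.mem_iff.1 hU
    obtain ⟨ε', hε', hεW⟩ := hb.mem_iff.1 hW
    refine ⟨{x | |x| < ε * ε'}, hb.mem_of_mem (mul_pos hε hε'), fun x hx w hw => hεW ?_⟩
    have h1 : ε ≤ |x| := not_lt.1 fun h => hx (hεU h)
    have h2 : 0 < |x| := hε.trans_le h1
    show |w / x| < ε'
    rw [abs_div, div_lt_iff₀ h2]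
    refine lt_of_lt_of_le hw ?_
    rw [mul_comm]
    exact mul_le_mul_of_nonneg_left h1 hε'.le
  · intro W hW
    obtain ⟨ε, hε, hεW⟩ := hb.mem_iff.1 hW
    obtain ⟨x, hx0, hx⟩ := exists_small_order (K := K) ε hε
    exact ⟨x, hx0, hεW hx⟩

end Pool.Agent.Helper51.HI
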