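import Mathlib

set_option autoImplicit false

/-!
Real closed fields: the order and the intermediate value property for polynomials.
-/

namespace Pool.Agent.Helper51.HI

open Polynomial Module IntermediateField

section order

variable (F : Type*) [Field F] [IsRealClosed F]

theorem sq_add_sq_eq_zero {b c : F} (h : b * b + c * c = 0) : b = 0 := by
  by_contra hb
  apply IsSemireal.one_add_ne_zero (R := F) (s := (c / b) * (c / b)) (IsSumSq.mul_self _)
  field_simp
  linear_combination h

theorem isSquare_add {a b : F} (ha : IsSquare a) (hb : IsSquare b) : IsSquare (a + b) := by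
  rcases IsRealClosed.isSquare_or_isSquare_neg (a + b) with h | h
  · exact h
  · obtain ⟨x, rfl⟩ := ha
    obtain ⟨y, rfl⟩ := hb
    obtain ⟨z, hz⟩ := h
    have h1 : x * x + y * y + z * z = 0 := by
      rw [← hz]
      ring
    have hx : x = 0 := by
      by_contra hx
      apply IsSemireal.one_add_ne_zero (R := F) (s := (y / x) * (y / x) + (z / x) * (z / x))
        ((IsSumSq.mul_self _).add (IsSumSq.mul_self _))
      field_simp
      linear_combination h1
    subst hx
    rw [zero_mul, zero_add]
    exact ⟨y, rfl⟩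

/-- the cone of squares -/
def cone : RingCone F where
  carrier := {x | IsSquare x}
  mul_mem' := fun ha hb => ha.mul hb
  one_mem' := ⟨1, by ring⟩
  add_mem' := fun ha hb => isSquare_add F ha hb
  zero_mem' := ⟨0, by ring⟩
  eq_zero_of_mem_of_neg_mem' := by
    rintro a ⟨b, rfl⟩ ⟨c, hc⟩
    have h1 : b * b + c * c = 0 := by
      rw [← hc]
      ring
    rw [sq_add_sq_eq_zero F h1, mul_zero]

theorem exists_order : ∃ _ : LinearOrder F, IsStrictOrderedRing F := by
  classical
  have h1 : HasMemOrNegMem (cone F) := ⟨fun x => IsRealClosed.isSquare_or_isSquare_neg x⟩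
  refine ⟨LinearOrder.mkOfAddGroupCone (cone F), ?_⟩
  let _ : LinearOrder F := LinearOrder.mkOfAddGroupCone (cone F)
  have h2 : IsOrderedRing F := IsOrderedRing.mkOfCone (cone F)
  exact IsOrderedRing.toIsStrictOrderedRing F

end order

section

variable {F : Type*} [Field F] [IsRealClosed F] {M : Type*} [Field M] [Algebra F M]

/-- odd extensions are trivial -/
theorem odd_finrank [FiniteDimensional F M] (h : Odd (finrank F M)) : finrank F M = 1 := by
  obtain ⟨α, hα⟩ := Field.exists_primitive_element F M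
  have hint : IsIntegral F α := Algebra.IsIntegral.isIntegral α
  have h1 : (minpoly F α).natDegree = finrank F M := by
    rw [← IntermediateField.adjoin.finrank hint, hα, IntermediateField.finrank_top']
  obtain ⟨x, hx⟩ := IsRealClosed.exists_isRoot_of_odd_natDegree (by rw [h1]; exact h)
  have h2 := degree_eq_one_of_irreducible_of_root (minpoly.irreducible hint) hx
  rw [← h1]
  exact natDegree_eq_of_degree_eq_some h2

/-- the elements of `F(i)` are squares -/
theorem isSquare_adjoin_i (i : M) (hi : i * i = -1) (z : F⟮i⟯) : IsSquare z := by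
  obtain ⟨_, _⟩ := exists_order F
  have hint : IsIntegral F i := by
    refine ⟨X ^ 2 + C 1, monic_X_pow_add_C 1 two_ne_zero, ?_⟩
    rw [eval₂_add, eval₂_pow, eval₂_X, eval₂_C, map_one, pow_two, hi]
    ring
  -- every element has the form a + b i
  obtain ⟨a, b, hab⟩ : ∃ a b : F, (z : M) = algebraMap F M a + algebraMap F M b * i := by
    obtain ⟨z, hz⟩ := z
    show ∃ a b : F, z = algebraMap F M a + algebraMap F M b * i
    rw [← IntermediateField.mem_toSubalgebra,
      IntermediateField.adjoin_simple_toSubalgebra_of_isAlgebraic hint.isAlgebraic] at hz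
    induction hz using Algebra.adjoin_induction with
    | mem x hx =>
      rw [Set.mem_singleton_iff] at hx
      subst hx
      exact ⟨0, 1, by simp⟩
    | algebraMap r => exact ⟨r, 0, by simp⟩
    | add x y _ _ hx hy =>
      obtain ⟨a, b, rfl⟩ := hx
      obtain ⟨c, d, rfl⟩ := hy
      exact ⟨a + c, b + d, by simp only [map_add]; ring⟩
    | mul x y _ _ hx hy =>
      obtain ⟨a, b, rfl⟩ := hx
      obtain ⟨c, d, rfl⟩ := hy
      refine ⟨a * c - b * d, a * d + b * c, ?_⟩
      simp only [map_add, map_sub, map_mul]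
      linear_combination (algebraMap F M b * algebraMap F M d) * hi
  -- the square root
  obtain ⟨n, hn0, hn⟩ : ∃ n : F, 0 ≤ n ∧ n * n = a * a + b * b := by
    obtain ⟨n, hn⟩ := IsRealClosed.nonneg_iff_isSquare.1
      (add_nonneg (mul_self_nonneg a) (mul_self_nonneg b))
    exact ⟨|n|, abs_nonneg n, by rw [abs_mul_abs_self, hn]⟩
  have hna : |a| ≤ n := by
    apply abs_le_of_sq_le_sq _ hn0
    rw [pow_two, pow_two, hn]
    linarith [mul_self_nonneg b]
  obtain ⟨h1, h2⟩ := abs_le.1 hna
  obtain ⟨c, hc⟩ := IsRealClosed.nonneg_iff_isSquare.1 (by linarith : 0 ≤ (n + a) / 2)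
  obtain ⟨d, hd⟩ := IsRealClosed.nonneg_iff_isSquare.1 (by linarith : 0 ≤ (n - a) / 2)
  have h3 : (2 * c * d) * (2 * c * d) = b * b := by
    have : (2 * c * d) * (2 * c * d) = 4 * (c * c) * (d * d) := by ring
    rw [this, ← hc, ← hd]
    linear_combination hn
  obtain ⟨d', hd', hcd⟩ : ∃ d' : F, d' * d' = d * d ∧ 2 * c * d' = b := by
    rcases mul_self_eq_mul_self_iff.1 h3 with h | h
    · exact ⟨d, rfl, h⟩
    · exact ⟨-d, by ring, by rw [mul_neg, h, neg_neg]⟩
  have hiF : i ∈ F⟮i⟯ := IntermediateField.mem_adjoin_simple_self F i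
  refine ⟨algebraMap F F⟮i⟯ c + algebraMap F F⟮i⟯ d' * ⟨i, hiF⟩, ?_⟩
  apply Subtype.ext
  rw [hab]
  show _ = (algebraMap F M c + algebraMap F M d' * i) * (algebraMap F M c + algebraMap F M d' * i)
  have h4 : algebraMap F M c * algebraMap F M c - algebraMap F M d' * algebraMap F M d' =
      algebraMap F M a := by
    rw [← map_mul, ← map_mul, ← map_sub, hd', ← hc, ← hd]
    congr 1
    ring
  have h5 : 2 * algebraMap F M c * algebraMap F M d' = algebraMap F M b := by
    rw [← hcd, map_mul, map_mul, map_ofNat]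
  linear_combination (-1 : M) * h4 - i * h5 - (algebraMap F M d' * algebraMap F M d') * hi

/-- a field of characteristic zero in which all elements are squares has no quadratic extension -/
theorem no_quadratic {E : Type*} [Field E] [CharZero E] (hE : ∀ z : E, IsSquare z) {L : Type*}
    [Field L] [Algebra E L] [FiniteDimensional E L] : finrank E L ≠ 2 := by
  intro h
  obtain ⟨α, hα⟩ := Field.exists_primitive_element E L
  have hint : IsIntegral E α := Algebra.IsIntegral.isIntegral α
  have h1 : (minpoly E α).natDegree = 2 := by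
    rw [← IntermediateField.adjoin.finrank hint, hα, IntermediateField.finrank_top', h]
  set p := minpoly E α with hp
  have hlc : p.coeff 2 ≠ 0 := by
    rw [← h1, coeff_natDegree, leadingCoeff_ne_zero]
    exact minpoly.ne_zero hint
  obtain ⟨s, hs⟩ := hE (discrim (p.coeff 2) (p.coeff 1) (p.coeff 0))
  obtain ⟨x, hx⟩ := exists_quadratic_eq_zero hlc ⟨s, hs⟩
  have hroot : p.IsRoot x := by
    rw [IsRoot, eval_eq_sum_range, h1, Finset.sum_range_succ, Finset.sum_range_succ,
      Finset.sum_range_one, ← hx]
    ring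
  have h2 := degree_eq_one_of_irreducible_of_root (minpoly.irreducible hint) hroot
  have h3 := natDegree_eq_of_degree_eq_some h2
  rw [← hp, h1] at h3
  exact absurd h3 (by norm_num)

theorem finrank_galois [FiniteDimensional F M] [IsGalois F M] (i : M) (hi : i * i = -1) :
    finrank F M ≤ 2 := by
  classical
  -- the Galois group is a 2-group
  obtain ⟨k, m, hm, hkm⟩ : ∃ k m, ¬ 2 ∣ m ∧ finrank F M = 2 ^ k * m :=
    Nat.exists_eq_pow_mul_and_not_dvd finrank_pos.ne' 2 (by norm_num)
  have : Fact (Nat.Prime 2) := ⟨Nat.prime_two⟩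
  have hcard : Nat.card (M ≃ₐ[F] M) = 2 ^ k * m := by
    rw [← hkm]
    exact IsGalois.card_aut_eq_finrank F M
  obtain ⟨P, hP⟩ := Sylow.exists_subgroup_card_pow_prime (G := M ≃ₐ[F] M) 2
    (n := k) (by rw [hcard]; exact dvd_mul_right _ _)
  have hPf : finrank (fixedField P) M = 2 ^ k := by
    rw [IntermediateField.finrank_fixedField_eq_card, hP]
  have hmul := Module.finrank_mul_finrank F (fixedField P) M
  rw [hPf, hkm, mul_comm] at hmul
  have hmP : finrank F (fixedField P) = m :=
    Nat.eq_of_mul_eq_mul_left (pow_pos (by norm_num) k) hmul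
  have hm1 : m = 1 := by
    rw [← hmP]
    apply odd_finrank
    rw [hmP]
    exact Nat.odd_iff.2 (Nat.two_dvd_ne_zero.1 hm)
  rw [hm1, mul_one] at hkm
  -- the Galois group over `F(i)` is trivial
  have hmul2 := Module.finrank_mul_finrank F F⟮i⟯ M
  obtain ⟨j, hj, hjM⟩ : ∃ j ≤ k, finrank F⟮i⟯ M = 2 ^ j := by
    rw [← Nat.dvd_prime_pow Nat.prime_two, ← hkm, ← hmul2]
    exact dvd_mul_left _ _
  have hj0 : j = 0 := by
    by_contra hj0
    obtain ⟨l, rfl⟩ := Nat.exists_eq_succ_of_ne_zero hj0
    have hc2 : Nat.card (M ≃ₐ[F⟮i⟯] M) = 2 ^ (l + 1) := by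
      rw [← hjM]
      exact IsGalois.card_aut_eq_finrank F⟮i⟯ M
    obtain ⟨Q, hQ⟩ := Sylow.exists_subgroup_card_pow_prime (G := M ≃ₐ[F⟮i⟯] M) 2
      (n := l) (by rw [hc2]; exact pow_dvd_pow _ (Nat.le_succ l))
    have hQf : finrank (fixedField Q) M = 2 ^ l := by
      rw [IntermediateField.finrank_fixedField_eq_card, hQ]
    have hmul3 := Module.finrank_mul_finrank F⟮i⟯ (fixedField Q) M
    rw [hQf, hjM, Nat.succ_eq_add_one, pow_succ, mul_comm] at hmul3
    have h2 : finrank F⟮i⟯ (fixedField Q) = 2 :=
      Nat.eq_of_mul_eq_mul_left (pow_pos (by norm_num) l) hmul3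
    have : CharZero F⟮i⟯ := charZero_of_injective_algebraMap (algebraMap F F⟮i⟯).injective
    exact no_quadratic (isSquare_adjoin_i i hi) h2
  rw [hj0, pow_zero] at hjM
  rw [← hmul2, hjM, mul_one]
  have hint : IsIntegral F i := Algebra.IsIntegral.isIntegral i
  rw [IntermediateField.adjoin.finrank hint]
  have hdvd : minpoly F i ∣ X ^ 2 + C 1 := by
    apply minpoly.dvd
    rw [map_add, map_pow, aeval_X, aeval_C, map_one, pow_two, hi]
    ring
  refine (natDegree_le_of_dvd hdvd (monic_X_pow_add_C 1 two_ne_zero).ne_zero).trans ?_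
  rw [natDegree_X_pow_add_C]

theorem natDegree_le_two (q : F[X]) (hq : Irreducible q) : q.natDegree ≤ 2 := by
  set g : F[X] := (X ^ 2 + C 1) * q with hg
  have h1 : (X ^ 2 + C (1 : F)) ≠ 0 := (monic_X_pow_add_C 1 two_ne_zero).ne_zero
  have hg0 : g ≠ 0 := mul_ne_zero h1 hq.ne_zero
  let M := g.SplittingField
  have : IsGalois F M := ⟨⟩
  have hsplit := SplittingField.splits g
  have hmap0 : g.map (algebraMap F M) ≠ 0 := (Polynomial.map_ne_zero_iff
    (algebraMap F M).injective).2 hg0
  have hroot : ∀ r : F[X], r ∣ g → r.natDegree ≠ 0 → ∃ z : M, aeval z r = 0 := by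
    intro r hr hr0
    have h2 := hsplit.of_dvd hmap0 (Polynomial.map_dvd (algebraMap F M) hr)
    obtain ⟨z, hz⟩ := h2.exists_eval_eq_zero (degree_ne_of_natDegree_ne (by
      rw [natDegree_map]
      exact hr0))
    exact ⟨z, by rwa [eval_map_algebraMap] at hz⟩
  obtain ⟨i, hi⟩ := hroot (X ^ 2 + C (1 : F)) (dvd_mul_right _ _)
    (by rw [natDegree_X_pow_add_C]; norm_num)
  obtain ⟨β, hβ⟩ := hroot q (dvd_mul_left _ _) hq.natDegree_pos.ne'
  have h2 : finrank F M ≤ 2 := by
    apply finrank_galois i
    rw [map_add, map_pow, aeval_X, aeval_C, map_one, pow_two] at hi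
    exact eq_neg_of_add_eq_zero_left hi
  have hint : IsIntegral F β := Algebra.IsIntegral.isIntegral β
  have h3 : (minpoly F β).natDegree ≤ finrank F M := minpoly.natDegree_le β
  have h4 : q.natDegree = (minpoly F β).natDegree := by
    rw [← minpoly.eq_of_irreducible hq hβ, natDegree_mul_C]
    exact inv_ne_zero (leadingCoeff_ne_zero.2 hq.ne_zero)
  omega

theorem sign_irreducible [LinearOrder F] [IsStrictOrderedRing F] (q : F[X]) (hq : Irreducible q)
    (a b : F) (hab : a ≤ b) (hno : ∀ x, a ≤ x → x ≤ b → q.eval x ≠ 0) :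
    0 < q.eval a * q.eval b := by
  have hle := natDegree_le_two q hq
  have hpos := hq.natDegree_pos
  rcases (by omega : q.natDegree = 1 ∨ q.natDegree = 2) with hd | hd
  · have hev : ∀ x, q.eval x = q.coeff 0 + q.coeff 1 * x := by
      intro x
      rw [eval_eq_sum_range, hd, Finset.sum_range_succ, Finset.sum_range_one]
      ring
    have hlc : q.coeff 1 ≠ 0 := by
      rw [← hd, coeff_natDegree, leadingCoeff_ne_zero]
      exact hq.ne_zero
    set r := -q.coeff 0 / q.coeff 1 with hr
    have hev' : ∀ x, q.eval x = q.coeff 1 * (x - r) := by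
      intro x
      rw [hev, hr]
      field_simp
      ring
    have h1 : r < a ∨ b < r := by
      by_contra h
      push Not at h
      exact hno r h.1 h.2 (by rw [hev', sub_self, mul_zero])
    rw [hev', hev']
    have h2 : 0 < (a - r) * (b - r) := by
      rcases h1 with h | h
      · exact mul_pos (by linarith) (by linarith)
      · exact mul_pos_of_neg_of_neg (by linarith) (by linarith)
    have h3 : q.coeff 1 * (a - r) * (q.coeff 1 * (b - r)) =
        (q.coeff 1 * q.coeff 1) * ((a - r) * (b - r)) := by ring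
    rw [h3]
    exact mul_pos (mul_self_pos.2 hlc) h2
  · have hev : ∀ x, q.eval x = q.coeff 2 * (x * x) + q.coeff 1 * x + q.coeff 0 := by
      intro x
      rw [eval_eq_sum_range, hd, Finset.sum_range_succ, Finset.sum_range_succ,
        Finset.sum_range_one]
      ring
    have hlc : q.coeff 2 ≠ 0 := by
      rw [← hd, coeff_natDegree, leadingCoeff_ne_zero]
      exact hq.ne_zero
    have hdisc : discrim (q.coeff 2) (q.coeff 1) (q.coeff 0) < 0 := by
      by_contra h
      obtain ⟨s, hs⟩ := IsRealClosed.nonneg_iff_isSquare.1 (not_lt.1 h)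
      obtain ⟨x, hx⟩ := exists_quadratic_eq_zero hlc ⟨s, hs⟩
      have h1 := degree_eq_one_of_irreducible_of_root hq (x := x) (by
        rw [IsRoot, hev]
        exact hx)
      have h2 : q.natDegree = 1 := natDegree_eq_of_degree_eq_some h1
      rw [hd] at h2
      exact absurd h2 (by norm_num)
    have h1 : ∀ x, 0 < 4 * q.coeff 2 * q.eval x := by
      intro x
      have h2 : 4 * q.coeff 2 * q.eval x = (2 * q.coeff 2 * x + q.coeff 1) ^ 2 -
          discrim (q.coeff 2) (q.coeff 1) (q.coeff 0) := by
        rw [hev, discrim]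
        ring
      rw [h2]
      have := sq_nonneg (2 * q.coeff 2 * x + q.coeff 1)
      linarith
    have h3 : 0 < (q.eval a * q.eval b) * ((4 * q.coeff 2) * (4 * q.coeff 2)) := by
      have := mul_pos (h1 a) (h1 b)
      calc 0 < _ := this
        _ = _ := by ring
    exact pos_of_mul_pos_left h3 (mul_self_nonneg _)

/-- the intermediate value property -/
theorem ivt [LinearOrder F] [IsStrictOrderedRing F] (p : F[X]) (a b : F) (hab : a ≤ b)
    (h : p.eval a * p.eval b < 0) : ∃ x, a ≤ x ∧ x ≤ b ∧ p.eval x = 0 := by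
  by_contra hcon
  push Not at hcon
  have key : ∀ p : F[X], (∀ x, a ≤ x → x ≤ b → p.eval x ≠ 0) → 0 < p.eval a * p.eval b := by
    intro p
    induction p using WfDvdMonoid.induction_on_irreducible with
    | zero =>
      intro h
      exact (h a le_rfl hab eval_zero).elim
    | unit u hu =>
      intro _
      obtain ⟨c, hc, rfl⟩ := isUnit_iff.1 hu
      rw [eval_C, eval_C]
      exact mul_self_pos.2 hc.ne_zero
    | mul g i hg hi ih =>
      intro h
      have h1 := ih fun x hx hx' h0 => h x hx hx' (by rw [eval_mul, h0, mul_zero])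
      have h2 := sign_irreducible i hi a b hab
        fun x hx hx' h0 => h x hx hx' (by rw [eval_mul, h0, zero_mul])
      rw [eval_mul, eval_mul]
      calc 0 < _ := mul_pos h2 h1
        _ = _ := by ring
  exact absurd (key p hcon) (not_lt.2 h.le)

end

end Pool.Agent.Helper51.HI
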