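import Pool.Agent.Helper51.HI.Core
import Pool.Agent.Helper51.HI.OrderTop
import Pool.Agent.Helper51.HI.RealClosed

set_option autoImplicit false

/-!
Fields with finitely many real closed or Henselian algebraic extensions.
-/

namespace Pool.Agent.Helper51.HI

open Polynomial Filter Topology

/-- real closed or Henselian -/
def RH (F : Type*) [Field F] : Prop :=
  IsRealClosed F ∨ ∃ 𝒪 : ValuationSubring F, 𝒪 ≠ ⊤ ∧ HenselianLocalRing 𝒪

theorem RH.th {K F : Type*} [Field K] [Field F] [Algebra K F] [Algebra.IsAlgebraic K F]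
    (h : RH F) : TH K F := by
  rcases h with h | ⟨𝒪, hne, hH⟩
  · obtain ⟨_, _⟩ := exists_order F
    exact th_of_ivt fun p a b hab h => ivt p a b hab h
  · exact th_of_henselian 𝒪 hne

variable {K : Type*} [Field K] {Ω : Type*} [Field Ω] [Algebra K Ω]

theorem data_of_moved {ι : Type*} [Finite ι] [Nonempty ι] (L : ι → IntermediateField K Ω)
    (hL : ∀ i, TH K (L i)) (ℓ : ℕ) (hM : Moved (⨅ i, L i) ℓ) : Infinite K ∧ Data K := by
  cases nonempty_fintype ι
  obtain ⟨ℱ, hne, hcof, hpers⟩ := exists_filter (fun i => L i) hL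
  have hinf : Infinite K := by
    have h1 : (cofinite : Filter K).NeBot := hne.mono hcof
    by_contra h
    rw [not_infinite_iff_finite] at h
    exact h1.ne cofinite_eq_bot
  refine ⟨hinf, fun f n hirr hf hn h0 h1 => ?_⟩
  exact infinite_irred ℱ hcof L hpers ℓ hM f n hirr hf hn h0 h1

theorem infinite_of_moved {ι : Type*} [Finite ι] [Nonempty ι] (L : ι → IntermediateField K Ω)
    (hL : ∀ i, TH K (L i)) (ℓ : ℕ) (hM : Moved (⨅ i, L i) ℓ) (f : K[X][X]) (a b : K)
    (h0 : f.evalEval a b = 0) (h1 : (derivative f).evalEval a b ≠ 0) :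
    {x : K | ∃ y : K, f.evalEval x y = 0}.Infinite := by
  obtain ⟨hinf, hD⟩ := data_of_moved L hL ℓ hM
  exact infinite_points hD f a b h0 h1

theorem moved_bot [IsAlgClosed Ω] : Moved (⊥ : IntermediateField K Ω) 1 := by
  intro q hq hsep hdeg
  rw [one_mul]
  have h1 : (q.rootSet Ω).ncard = q.natDegree := by
    rw [← Nat.card_coe_set_eq, Nat.card_eq_fintype_card]
    exact card_rootSet_eq_natDegree hsep (IsAlgClosed.splits _)
  rw [← h1]
  apply Set.ncard_le_ncard _ (Set.toFinite _)
  intro a ha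
  refine ⟨ha, ?_⟩
  rw [SetLike.mem_coe, IntermediateField.mem_bot]
  rintro ⟨x, rfl⟩
  rw [mem_rootSet] at ha
  have h2 : q.IsRoot x := by
    rw [IsRoot.def]
    apply (algebraMap K Ω).injective
    rw [map_zero, ← aeval_algebraMap_apply_eq_algebraMap_eval]
    exact ha.2
  have h3 : q.natDegree = 1 :=
    natDegree_eq_of_degree_eq_some (degree_eq_one_of_irreducible_of_root hq h2)
  omega

end Pool.Agent.Helper51.HI
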