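import Pool.Agent.Helper51.HI.Perturb
import Pool.Agent.Helper51.HI.Main

set_option autoImplicit false

/-!
Infinitely many rational points, version with a finite Galois extension of prime power degree.
-/

namespace Pool.Agent.Helper51.HI

open Polynomial Filter IntermediateField Module

theorem SR.C_mul {K F : Type*} [Field K] [Field F] [Algebra K F] {w : K[X]} {r : ℕ} (u : K)
    (hu : u ≠ 0) (h : SR F w r) : SR F (C u * w) r := by
  obtain ⟨s, hs, hroot⟩ := h
  refine ⟨s, hs, fun a ha => ?_⟩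
  have hu' : algebraMap K F u ≠ 0 := (_root_.map_ne_zero _).2 hu
  rw [derivative_C_mul, map_mul, map_mul, aeval_C, (hroot a ha).1, mul_zero]
  exact ⟨rfl, mul_ne_zero hu' (hroot a ha).2⟩

variable {K : Type*} [Field K] {Ω : Type*} [Field Ω] [Algebra K Ω]

/-- a totally split separable polynomial of degree prime to `p` has a rational root -/
theorem exists_root_of_split [IsAlgClosed Ω] {ι : Type*} (L : ι → IntermediateField K Ω)
    (N : IntermediateField K Ω) [FiniteDimensional K N] [IsGalois K N]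
    (p k : ℕ) (hp : p.Prime) (hpk : finrank K N = p ^ k)
    (hE : ∀ q : K[X], Irreducible q → q.Separable → (∃ a ∈ q.rootSet Ω, a ∉ N) →
      ∃ a ∈ q.rootSet Ω, a ∉ (⨅ i, L i : IntermediateField K Ω))
    (χ : K[X]) (hsep : χ.Separable) (hsplit : ∀ i, (χ.map (algebraMap K (L i))).Splits)
    (hdeg : ¬ p ∣ χ.natDegree) : ∃ x : K, χ.eval x = 0 := by
  have hχ : χ ≠ 0 := hsep.ne_zero
  obtain ⟨q, hq, hqχ, hqp⟩ : ∃ q : K[X], Irreducible q ∧ q ∣ χ ∧ ¬ p ∣ q.natDegree := by
    by_contra h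
    push Not at h
    exact hdeg (dvd_natDegree p χ hχ h)
  have hqsep : q.Separable := hsep.of_dvd hqχ
  have hqL : ∀ a ∈ q.rootSet Ω, a ∈ (⨅ i, L i : IntermediateField K Ω) := by
    intro a ha
    rw [← SetLike.mem_coe, IntermediateField.coe_iInf, Set.mem_iInter]
    intro i
    have h1 : (q.map (algebraMap K (L i))).Splits :=
      (hsplit i).of_dvd ((Polynomial.map_ne_zero_iff (algebraMap K (L i)).injective).2 hχ)
        (Polynomial.map_dvd _ hqχ)
    have h3 : a ∈ q.rootSet Ω := ha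
    rw [← h1.image_rootSet (L i).val] at h3
    obtain ⟨b, -, rfl⟩ := h3
    exact b.2
  have hqN : ∀ a ∈ q.rootSet Ω, a ∈ N := by
    intro a ha
    by_contra h
    obtain ⟨b, hb, hbL⟩ := hE q hq hqsep ⟨a, ha, h⟩
    exact hbL (hqL b hb)
  obtain ⟨a, ha⟩ : ∃ a : Ω, a ∈ q.rootSet Ω := by
    obtain ⟨a, ha⟩ := IsAlgClosed.exists_aeval_eq_zero Ω q (by
      rw [degree_eq_natDegree hq.ne_zero]
      exact_mod_cast hq.natDegree_pos.ne')
    exact ⟨a, (mem_rootSet).2 ⟨hq.ne_zero, ha⟩⟩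
  have haN := hqN a ha
  have ha0 := aeval_eq_zero_of_mem_rootSet ha
  have h1 : (minpoly K a).natDegree = q.natDegree := by
    rw [← minpoly.eq_of_irreducible hq ha0, natDegree_mul_C]
    exact inv_ne_zero (leadingCoeff_ne_zero.2 hq.ne_zero)
  have h2 : minpoly K a = minpoly K (⟨a, haN⟩ : N) := by
    have := minpoly.algebraMap_eq (A := K) (B := N) (B' := Ω) (algebraMap N Ω).injective ⟨a, haN⟩
    rw [← this]
    rfl
  have h3 : q.natDegree ∣ p ^ k := by
    rw [← h1, h2, ← hpk]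
    exact minpoly.degree_dvd (Algebra.IsIntegral.isIntegral (⟨a, haN⟩ : N))
  obtain ⟨j, hj, hj'⟩ := (Nat.dvd_prime_pow hp).1 h3
  have h4 : q.natDegree = 1 := by
    rcases Nat.eq_zero_or_pos j with rfl | hj0
    · rw [hj', pow_zero]
    · exact absurd (hj' ▸ dvd_pow_self p hj0.ne') hqp
  obtain ⟨x, hx⟩ := exists_root_of_degree_eq_one
    ((degree_eq_iff_natDegree_eq_of_pos one_pos).2 h4)
  obtain ⟨v, hv⟩ := hqχ
  refine ⟨x, ?_⟩
  rw [hv, eval_mul, hx.eq_zero, zero_mul]

theorem infinite_irred3 [Infinite K] [IsAlgClosed Ω] {ι : Type*} [Fintype ι] [Nonempty ι]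
    (ℱ : Filter K) [ℱ.NeBot] (hcof : ℱ ≤ cofinite) (L : ι → IntermediateField K Ω)
    (hpers : ∀ i, Pers ℱ (L i)) (N : IntermediateField K Ω) [FiniteDimensional K N]
    [IsGalois K N] (hNL : N ≤ ⨅ i, L i) (p k : ℕ) (hp : p.Prime) (hpk : finrank K N = p ^ k)
    (hE : ∀ q : K[X], Irreducible q → q.Separable → (∃ a ∈ q.rootSet Ω, a ∉ N) →
      ∃ a ∈ q.rootSet Ω, a ∉ (⨅ i, L i : IntermediateField K Ω))
    (hD : ∀ B : ℕ, ∃ D : ℕ, ∀ q : K[X], Irreducible q → q.Separable →
      (∃ a ∈ q.rootSet Ω, a ∉ N) →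
      (q.rootSet Ω \ ((⨅ i, L i : IntermediateField K Ω) : Set Ω)).ncard ≤ B → q.natDegree ≤ D)
    (f : K[X][X]) (n : ℕ) (hirr : Irreducible f)
    (hf : f.natDegree = n + 1) (hn : 1 ≤ n) (h0 : (f.coeff 0).coeff 0 = 0)
    (h1 : (f.coeff 1).coeff 0 ≠ 0) :
    {x : K | ∃ y : K, (f.map (evalRingHom x)).eval y = 0}.Infinite := by
  classical
  intro hfin
  obtain ⟨A, hA, hA'⟩ : ∃ A : ℕ, (∀ i, (f.coeff i).natDegree ≤ A) ∧
      ∃ i, (f.coeff i).coeff A ≠ 0 := by
    obtain ⟨i, hi, hmax⟩ := Finset.exists_max_image f.support (fun i => (f.coeff i).natDegree)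
      (Finset.nonempty_iff_ne_empty.2 (by rw [Ne, Polynomial.support_eq_empty]; exact hirr.ne_zero))
    refine ⟨(f.coeff i).natDegree, fun j => ?_, i, ?_⟩
    · by_cases hj : f.coeff j = 0
      · rw [hj, natDegree_zero]
        exact Nat.zero_le _
      · exact hmax j (mem_support_iff.2 hj)
    · rw [coeff_natDegree, Ne, leadingCoeff_eq_zero]
      exact mem_support_iff.1 hi
  set B := (n + 1) * (n * A + 1) with hB
  obtain ⟨D, hD⟩ := hD (Fintype.card ι * B)
  set E := (D + 1) * (Fintype.card ι * B) with hEdef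
  set M := B + hfin.toFinset.card + A + E + 1 with hM
  obtain ⟨G, hG, hw0, hwdeg, hwSR⟩ := exists_full f n hirr hf hn h0 h1 A hA hA' ℱ hcof
    (fun i => L i) hpers M
  have hexp : (n + 1) * (M + n * A + 1) = (n + 1) * M + B := by
    rw [hB]
    ring
  have hMc : M ≤ (n + 1) * M + n * A := by nlinarith
  set N₀ := M + n * A + 1 with hN₀
  set w := resultant f G (n + 1) n with hw
  have hwne : w ≠ 0 := by
    intro h
    apply hw0
    rw [h, coeff_zero]
  have hdeg' : w.natDegree ≤ ((n + 1) * M + n * A) + B := by omega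
  obtain ⟨s, w₁, w₂, hww, hcard, hroot, hw₁m, hw₁s, hw₁r, hw₁split, hpw₁⟩ :=
    count3 w hwne ((n + 1) * M + n * A) B D hdeg' L hwSR N (fun i => hNL.trans (iInf_le L i)) p k
      hp hpk hE hD inferInstance
  have hlc : f.coeff (n + 1) ≠ 0 := by
    rw [← hf, coeff_natDegree, Ne, leadingCoeff_eq_zero]
    exact hirr.ne_zero
  have hsub : s ⊆ hfin.toFinset ∪ (f.coeff (n + 1)).roots.toFinset := by
    intro x hx
    rw [Finset.mem_union]
    by_cases hxl : (f.coeff (n + 1)).eval x = 0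
    · right
      rw [Multiset.mem_toFinset, mem_roots hlc]
      exact hxl
    · left
      rw [Set.Finite.mem_toFinset]
      exact exists_root_of_simple hf.le hG.deg x hxl (hroot x hx).1 (hroot x hx).2
  have h3 : s.card ≤ hfin.toFinset.card + A := by
    refine (Finset.card_le_card hsub).trans ((Finset.card_union_le _ _).trans ?_)
    refine Nat.add_le_add_left ?_ _
    exact (Multiset.toFinset_card_le _).trans ((card_roots' _).trans (hA _))
  have hw₂0 : w₂ ≠ 0 := by
    rintro rfl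
    rw [mul_zero] at hww
    exact hwne hww
  set u := w₂.leadingCoeff with hu
  have hu0 : u ≠ 0 := leadingCoeff_ne_zero.2 hw₂0
  set v := C u⁻¹ * w₂ with hv
  have hvm : v.Monic := by
    rw [Monic, hv, leadingCoeff_mul, leadingCoeff_C, ← hu, inv_mul_cancel₀ hu0]
  have hres : w = C u * (w₁ * v) := by
    rw [hww, hv]
    calc w₁ * w₂ = w₁ * (C (u * u⁻¹) * w₂) := by rw [mul_inv_cancel₀ hu0, C_1, one_mul]
      _ = C u * (w₁ * (C u⁻¹ * w₂)) := by rw [C_mul]; ring
  have hdv : w.natDegree = w₁.natDegree + v.natDegree := by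
    rw [hres, natDegree_C_mul hu0, hw₁m.natDegree_mul hvm]
  have hvN : v.natDegree ≤ N₀ + 1 := by omega
  obtain ⟨P, hP0, hPc, hPdeg, hPpt⟩ := exists_family_poly f n hf h0 h1 A hA N₀ G hG w₁ v u hu0 hvm
    hres hw0 hwdeg hvN
  -- the exceptional set
  set Z : Finset K := insert 0 (v.roots.toFinset ∪ (f.coeff (n + 1)).roots.toFinset ∪
    hfin.toFinset) with hZ
  have hPz : ∀ z : K, P.eval (C z) ≠ 0 := by
    intro z hz
    by_cases hz0 : z = 0
    · apply hPc
      rw [hz0, C_0, ← coeff_zero_eq_eval_zero] at hz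
      exact hz
    · have h2 := eval_map_eq P 0 z
      rw [hz, eval_zero, hP0, eval_mul, eval_C, eval_mul, eval_X] at h2
      exact (mul_ne_zero hu0 (mul_ne_zero hz0 (hw₁r z))) h2
  have hev1 : ∀ᶠ δ in ℱ, ∀ z ∈ Z, (P.map (evalRingHom δ)).eval z ≠ 0 := by
    rw [Finset.eventually_all]
    intro z _
    refine ((eventually_eval_ne _ (hPz z)).filter_mono hcof).mono fun δ hδ => ?_
    rw [eval_map_eq]
    exact hδ
  have hev2 : ∀ᶠ δ in ℱ, ∀ i, SR (L i) (P.map (evalRingHom δ)) (w₁.natDegree + 1) := by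
    rw [eventually_all]
    intro i
    apply hpers i
    rw [hP0]
    refine SR.C_mul u hu0 (SR.X_mul (sr_of_splits w₁ hw₁s (hw₁split i)) ?_)
    rw [coeff_zero_eq_eval_zero]
    exact hw₁r 0
  obtain ⟨δ, hδ1, hδ2⟩ := (hev1.and hev2).exists
  set χ := P.map (evalRingHom δ) with hχ
  have hfull : ∀ i, χ.natDegree = w₁.natDegree + 1 ∧ χ.Separable ∧
      (χ.map (algebraMap K (L i))).Splits := fun i =>
    sr_full χ (w₁.natDegree + 1) (by omega) (by rw [add_comm]; exact hPdeg δ) (hδ2 i)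
  obtain ⟨i₀⟩ : Nonempty ι := inferInstance
  obtain ⟨hχd, hχs, -⟩ := hfull i₀
  obtain ⟨x, hx⟩ := exists_root_of_split L N p k hp hpk hE χ hχs (fun i => (hfull i).2.2) (by
    rw [hχd, Nat.dvd_add_right hpw₁]
    exact fun h => hp.one_lt.ne' (Nat.dvd_one.1 h))
  have hxZ : x ∉ Z := fun h => hδ1 x h hx
  rw [hZ, Finset.mem_insert, Finset.mem_union, Finset.mem_union, not_or, not_or, not_or] at hxZ
  obtain ⟨hx0, ⟨hxv, hxf⟩, hxh⟩ := hxZ
  apply hxh
  rw [Set.Finite.mem_toFinset]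
  refine hPpt δ x ?_ hx0 ?_ hx ?_
  · intro h
    apply hxf
    rw [Multiset.mem_toFinset, mem_roots hlc]
    exact h
  · intro h
    apply hxv
    rw [Multiset.mem_toFinset, mem_roots hvm.ne_zero]
    exact h
  · have h5 := hχs.aeval_derivative_ne_zero (x := x) (by rw [coe_aeval_eq_eval]; exact hx)
    rwa [coe_aeval_eq_eval] at h5

/-- the general statement -/
theorem infinite_of_maxGalois [IsAlgClosed Ω] [Algebra.IsAlgebraic K Ω] {ι : Type*} [Finite ι]
    [Nonempty ι] (F : ι → IntermediateField K Ω) (hF : ∀ i, RH (F i))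
    (N : IntermediateField K Ω) [FiniteDimensional K N] [IsGalois K N] (hNF : N ≤ ⨅ i, F i)
    (p k : ℕ) (hp : p.Prime) (hpk : finrank K N = p ^ k)
    (hmax : ∀ E : IntermediateField K Ω, FiniteDimensional K E → IsGalois K E →
      E ≤ ⨅ i, F i → E ≤ N)
    (hA : ∀ B : ℕ, ∃ n₀ : ℕ, ∀ q : N[X], Irreducible q → q.Separable → n₀ ≤ q.natDegree →
      (q.rootSet Ω \ ((⨅ i, F i : IntermediateField K Ω) : Set Ω)).ncard ≤ B →
      ∀ [DecidableEq (q.rootSet Ω)] [Fintype (q.rootSet Ω)],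
        ¬ alternatingGroup (q.rootSet Ω) ≤
          (MulAction.toPermHom (Ω ≃ₐ[N] Ω) (q.rootSet Ω)).range)
    (f : K[X][X]) (a b : K) (h0 : f.evalEval a b = 0) (h1 : (derivative f).evalEval a b ≠ 0) :
    {x : K | ∃ y : K, f.evalEval x y = 0}.Infinite := by
  classical
  have : Normal K Ω := normal_of_isAlgClosed
  cases nonempty_fintype ι
  obtain ⟨F', hiso, hNF', hEsc⟩ := exists_family F N hNF hmax hA
  obtain ⟨ℱ, hne, hcof, hpers⟩ := exists_filter (fun i => F i) (fun i => (hF i).th (K := K))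
  have hinf : Infinite K := by
    have h2 : (cofinite : Filter K).NeBot := hne.mono hcof
    by_contra h
    rw [not_infinite_iff_finite] at h
    exact h2.ne cofinite_eq_bot
  have hpers' : ∀ j, Pers ℱ (F' j) := by
    intro j
    obtain ⟨i, ⟨e⟩⟩ := hiso j
    exact Pers.transfer e (hpers i)
  cases nonempty_fintype (ι ⊕ (ι × (N ≃ₐ[K] N)))
  refine infinite_points (fun f n hirr hf hn h0 h1 => ?_) f a b h0 h1
  exact infinite_irred3 ℱ hcof F' hpers' N hNF' p k hp hpk hEsc.1 hEsc.2 f n hirr hf hn h0 h1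

end Pool.Agent.Helper51.HI
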