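import Pool.Agent.Helper51.HI.Loc

set_option autoImplicit false

/-!
Orders of vanishing at a simple point of polynomials of bounded degree.
-/

namespace Pool.Agent.Helper51.HI

open Polynomial

variable {K : Type*} [Field K]

/-- polynomials of bounded degree -/
structure Bd (n N : ℕ) (G : K[X][X]) : Prop where
  deg : G.natDegree ≤ n
  coeff : ∀ i, (G.coeff i).natDegree ≤ N

theorem Bd.mono {n N N' : ℕ} {G : K[X][X]} (h : Bd n N G) (hN : N ≤ N') : Bd n N' G :=
  ⟨h.deg, fun i => (h.coeff i).trans hN⟩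

theorem Bd.add {n N : ℕ} {G H : K[X][X]} (hG : Bd n N G) (hH : Bd n N H) : Bd n N (G + H) :=
  ⟨(natDegree_add_le _ _).trans (max_le hG.deg hH.deg), fun i => by
    rw [coeff_add]
    exact (natDegree_add_le _ _).trans (max_le (hG.coeff i) (hH.coeff i))⟩

theorem Bd.zero {n N : ℕ} : Bd n N (0 : K[X][X]) :=
  ⟨by simp, fun i => by simp⟩

theorem Bd.smul {n N j : ℕ} {G : K[X][X]} (h : Bd n N G) (a : K[X]) (ha : a.natDegree ≤ j) :
    Bd n (j + N) (C a * G) :=
  ⟨natDegree_C_mul_le _ _ |>.trans h.deg, fun i => by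
    rw [coeff_C_mul]
    exact natDegree_mul_le.trans (Nat.add_le_add ha (h.coeff i))⟩

/-- `o` is an order of vanishing -/
def Ord (n N : ℕ) (p : K[X]) (o : ℕ) : Prop :=
  ∃ G : K[X][X], Bd n N G ∧ X ^ o ∣ G.eval p ∧ (G.eval p).coeff o ≠ 0

theorem Ord.zero (n N : ℕ) (p : K[X]) : Ord n N p 0 := by
  refine ⟨1, ⟨by simp, fun i => ?_⟩, by simp, by simp⟩
  rw [coeff_one]
  split_ifs <;> simp

theorem Ord.shift {n N : ℕ} {p : K[X]} {o : ℕ} (h : Ord n N p o) {i j : ℕ} (hij : i ≤ j) :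
    Ord n (N + j) p (o + i) := by
  obtain ⟨G, hG, h1, h2⟩ := h
  refine ⟨C (X ^ i) * G, ?_, ?_, ?_⟩
  · exact (hG.smul (X ^ i) (by rw [natDegree_X_pow])).mono (by omega)
  · rw [eval_mul, eval_C, add_comm, pow_add]
    exact mul_dvd_mul_left _ h1
  · rw [eval_mul, eval_C, coeff_X_pow_mul]
    exact h2

/-- there are many orders -/
theorem card_ord (n N : ℕ) (p : K[X]) (Q : ℕ)
    (hQ : ∀ G : K[X][X], Bd n N G → G ≠ 0 → ¬ X ^ Q ∣ G.eval p) [DecidablePred (Ord n N p)] :
    (n + 1) * (N + 1) ≤ ((Finset.range Q).filter (Ord n N p)).card := by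
  classical
  by_contra hcon
  push Not at hcon
  set O := (Finset.range Q).filter (Ord n N p) with hO
  let T : (Fin (n + 1) × Fin (N + 1) → K) →ₗ[K] K[X][X] :=
    ∑ ij : Fin (n + 1) × Fin (N + 1), ((LinearMap.proj ij : (Fin (n + 1) × Fin (N + 1) → K) →ₗ[K] K).smulRight
      (monomial (ij.1 : ℕ) (monomial (ij.2 : ℕ) (1 : K))))
  have hT : ∀ c, T c = ∑ ij : Fin (n + 1) × Fin (N + 1),
      monomial (ij.1 : ℕ) (monomial (ij.2 : ℕ) (c ij)) := by
    intro c
    simp only [T, LinearMap.sum_apply, LinearMap.smulRight_apply, LinearMap.proj_apply]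
    refine Finset.sum_congr rfl fun ij _ => ?_
    rw [smul_monomial, smul_monomial, smul_eq_mul, mul_one]
  have hTc : ∀ c (i : Fin (n + 1)) (j : Fin (N + 1)), ((T c).coeff i).coeff j = c (i, j) := by
    intro c i j
    rw [hT, finsetSum_coeff, finsetSum_coeff, Finset.sum_eq_single (i, j)]
    · simp
    · rintro ⟨i', j'⟩ - hne
      simp only [coeff_monomial]
      by_cases h : (i' : ℕ) = i
      · rw [if_pos h, coeff_monomial, if_neg]
        intro h'
        exact hne (Prod.ext (Fin.ext h) (Fin.ext h'))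
      · rw [if_neg h, coeff_zero]
    · simp
  have hTb : ∀ c, Bd n N (T c) := by
    intro c
    rw [hT]
    refine ⟨natDegree_sum_le_of_forall_le _ _ fun ij _ => ?_, fun i => ?_⟩
    · exact (natDegree_monomial_le _).trans (by omega)
    · rw [finsetSum_coeff]
      refine natDegree_sum_le_of_forall_le _ _ fun ij _ => ?_
      rw [coeff_monomial]
      split_ifs
      · exact (natDegree_monomial_le _).trans (by omega)
      · simp
  let E : (Fin (n + 1) × Fin (N + 1) → K) →ₗ[K] (O → K) :=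
    LinearMap.pi fun o => (lcoeff K (o : ℕ)) ∘ₗ
      ((leval p).restrictScalars K) ∘ₗ T
  have hE : ∀ c (o : O), E c o = ((T c).eval p).coeff o := fun c o => rfl
  have hker : LinearMap.ker E ≠ ⊥ := by
    apply LinearMap.ker_ne_bot_of_finrank_lt
    rw [Module.finrank_fintype_fun_eq_card, Module.finrank_fintype_fun_eq_card]
    simpa using hcon
  obtain ⟨c, hc, hc0⟩ := Submodule.exists_mem_ne_zero_of_ne_bot hker
  have hG0 : T c ≠ 0 := by
    intro h
    apply hc0
    funext ij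
    rw [← hTc c ij.1 ij.2, h]
    simp
  have hev := hQ (T c) (hTb c) hG0
  rw [X_pow_dvd_iff] at hev
  push Not at hev
  have hex : ∃ d, ((T c).eval p).coeff d ≠ 0 := ⟨_, hev.choose_spec.2⟩
  set d := Nat.find hex with hd
  have hd1 : ((T c).eval p).coeff d ≠ 0 := Nat.find_spec hex
  have hd2 : ∀ e < d, ((T c).eval p).coeff e = 0 := fun e he => by
    by_contra h
    exact Nat.find_min hex he h
  have hdQ : d < Q := lt_of_le_of_lt (Nat.find_min' hex hev.choose_spec.2) hev.choose_spec.1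
  have hdO : d ∈ O := by
    rw [hO, Finset.mem_filter, Finset.mem_range]
    exact ⟨hdQ, T c, hTb c, X_pow_dvd_iff.2 hd2, hd1⟩
  apply hd1
  rw [← hE c ⟨d, hdO⟩, LinearMap.mem_ker.1 hc]
  rfl

/-- small orders occur -/
theorem ord_of_le (n A : ℕ) (p : K[X]) (M : ℕ)
    (hQ : ∀ G : K[X][X], Bd n M G → G ≠ 0 → ¬ X ^ ((n + 1) * M + n * A + 1) ∣ G.eval p)
    (o : ℕ) (ho : o ≤ (n + 1) * M + n * A) : Ord n (M + n * A) p o := by
  classical
  by_contra hno
  set γ := n * A with hγ
  have h1 : ∀ i ≤ γ, i ≤ o → ¬ Ord n M p (o - i) := by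
    intro i hi hio h
    apply hno
    have := h.shift hi
    rwa [Nat.sub_add_cancel hio] at this
  have h2 : γ < o := by
    by_contra hcon
    push Not at hcon
    have := h1 o hcon le_rfl
    rw [Nat.sub_self] at this
    exact this (Ord.zero n M p)
  have h3 := card_ord n M p _ hQ
  have h4 := Finset.card_filter_add_card_filter_not (s := Finset.range ((n + 1) * M + γ + 1))
    (p := Ord n M p)
  rw [Finset.card_range] at h4
  have h5 : γ + 1 ≤ ((Finset.range ((n + 1) * M + γ + 1)).filter (fun o => ¬ Ord n M p o)).card := by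
    have h6 : (Finset.range (γ + 1)).image (fun i => o - i) ⊆
        (Finset.range ((n + 1) * M + γ + 1)).filter (fun o => ¬ Ord n M p o) := by
      intro x hx
      obtain ⟨i, hi, rfl⟩ := Finset.mem_image.1 hx
      rw [Finset.mem_range] at hi
      rw [Finset.mem_filter, Finset.mem_range]
      exact ⟨by omega, h1 i (by omega) (by omega)⟩
    have h7 := Finset.card_le_card h6
    rw [Finset.card_image_of_injOn, Finset.card_range] at h7
    · exact h7
    · intro i hi j hj hij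
      simp only [Finset.coe_range, Set.mem_Iio] at hi hj
      simp only at hij
      omega
  have h8 : (n + 1) * (M + 1) = (n + 1) * M + (n + 1) := by ring
  omega

/-- prescribed Taylor expansion -/
theorem surj_of_ord (n N : ℕ) (p : K[X]) (c : ℕ) (hc : ∀ o < c, Ord n N p o) (r : K[X]) :
    ∃ H : K[X][X], Bd n N H ∧ X ^ c ∣ H.eval p - r := by
  induction c with
  | zero => exact ⟨0, Bd.zero, by simp⟩
  | succ c ih =>
    obtain ⟨H, hH, s, hs⟩ := ih fun o ho => hc o (by omega)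
    obtain ⟨G, hG, ⟨t, ht⟩, hne⟩ := hc c (by omega)
    have ht0 : t.coeff 0 ≠ 0 := by
      rw [ht, coeff_X_pow_mul'] at hne
      simpa using hne
    refine ⟨H + C (C (-(s.coeff 0) / t.coeff 0)) * G,
      hH.add ((hG.smul (C (-(s.coeff 0) / t.coeff 0)) (j := 0) (by simp)).mono (by omega)), ?_⟩
    rw [eval_add, eval_mul, eval_C, ht]
    have h1 : H.eval p + C (-s.coeff 0 / t.coeff 0) * (X ^ c * t) - r =
        X ^ c * (s + C (-s.coeff 0 / t.coeff 0) * t) := by
      linear_combination hs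
    rw [h1, pow_succ]
    refine mul_dvd_mul_left _ ?_
    rw [X_dvd_iff, coeff_add, coeff_C_mul]
    field_simp
    ring

/-- the data for the induction -/
theorem exists_data (f : K[X][X]) (n : ℕ) (hirr : Irreducible f) (hf : f.natDegree = n + 1)
    (hn : 1 ≤ n) (h0 : (f.coeff 0).coeff 0 = 0) (h1 : (f.coeff 1).coeff 0 ≠ 0) (A : ℕ)
    (hA : ∀ i, (f.coeff i).natDegree ≤ A) (M : ℕ) :
    ∃ (N : ℕ) (p : K[X]), N = M + n * A + 1 ∧ p.coeff 0 = 0 ∧
      X ^ ((n + 1) * N + n * A + 1) ∣ f.eval p ∧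
      (∀ o ≤ (n + 1) * M + n * A, Ord n N p o) ∧
      ∃ G : K[X][X], Bd n N G ∧ X ^ ((n + 1) * M + n * A + 1) ∣ G.eval p ∧
        G.map (evalRingHom 0) = X ^ n := by
  obtain ⟨p, hp, hpf⟩ := exists_branch f h0 h1 ((n + 1) * (M + n * A + 1) + n * A + 1)
  have hQ : ∀ N' ≤ M + n * A + 1, ∀ G : K[X][X], Bd n N' G → G ≠ 0 →
      ¬ X ^ ((n + 1) * N' + n * A + 1) ∣ G.eval p := by
    intro N' hN' G hG hG0 hdvd
    have h2 : (n + 1) * N' ≤ (n + 1) * (M + n * A + 1) := Nat.mul_le_mul_left _ hN'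
    have h3 := (resultant_congr f G n hf hG.deg p ((n + 1) * N' + n * A + 1)
      ((pow_dvd_pow _ (by omega)).trans hpf)).2
    have h4 : X ^ ((n + 1) * N' + n * A + 1) ∣ resultant f G (n + 1) n := by
      have h5 := dvd_add h3 (hdvd.mul_right (resultant (f /ₘ (X - C p)) G n n))
      rwa [sub_add_cancel] at h5
    have h6 := natDegree_resultant_le (m := n + 1) (n := n) hA hG.coeff
    have h7 := natDegree_le_of_dvd h4 (resultant_ne_zero' f G n hirr hf hG.deg hG0)
    rw [natDegree_X_pow] at h7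
    omega
  have hord : ∀ o ≤ (n + 1) * M + n * A, Ord n (M + n * A) p o := fun o ho =>
    ord_of_le n A p M (hQ M (by omega)) o ho
  refine ⟨M + n * A + 1, p, rfl, hp, hpf, fun o ho => (hord o ho).shift (Nat.zero_le 1), ?_⟩
  obtain ⟨q, hq⟩ : X ∣ p := X_dvd_iff.2 hp
  obtain ⟨m, rfl⟩ : ∃ m, n = m + 1 := ⟨n - 1, by omega⟩
  obtain ⟨H, hH, hHe⟩ := surj_of_ord (m + 1) (M + (m + 1) * A) p ((m + 1 + 1) * M + (m + 1) * A)
    (fun o ho => hord o ho.le) (-(q * p ^ m))
  refine ⟨X ^ (m + 1) + C X * H, ?_, ?_, ?_⟩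
  · refine Bd.add ⟨by rw [natDegree_X_pow], fun i => ?_⟩
      ((hH.smul X (j := 1) (by rw [natDegree_X])).mono (by omega))
    rw [coeff_X_pow]
    split_ifs <;> simp
  · rw [eval_add, eval_pow, eval_X, eval_mul, eval_C]
    have h2 : p ^ (m + 1) + X * H.eval p = X * (H.eval p - -(q * p ^ m)) := by
      conv_lhs => rw [pow_succ', hq]
      rw [mul_pow]
      conv_rhs => rw [hq]
      ring
    rw [h2, pow_succ']
    exact mul_dvd_mul_left _ hHe
  · rw [Polynomial.map_add, Polynomial.map_mul, map_C, Polynomial.map_pow, map_X,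
      coe_evalRingHom, eval_X, C_0, zero_mul, add_zero]

end Pool.Agent.Helper51.HI
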