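import Pool.Agent.Helper51.HI.Induct

set_option autoImplicit false

/-!
Topological fields in which simple roots persist.
-/

namespace Pool.Agent.Helper51.HI

open Polynomial Filter Topology

/-- a V-topology on `F`, nondiscrete on `K`, in which simple roots persist -/
structure TopH (K F : Type*) [Field K] [Field F] [Algebra K F] [TopologicalSpace F] : Prop where
  t2 : T2Space F
  div : IsTopologicalDivisionRing F
  srp : ∀ (P : F[X][X]) (a : F), (P.map (evalRingHom 0)).eval a = 0 →
    (derivative (P.map (evalRingHom 0))).eval a ≠ 0 → ∀ U ∈ 𝓝 a, ∀ᶠ d in 𝓝 (0 : F),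
      ∃ x ∈ U, (P.map (evalRingHom d)).eval x = 0
  vtop : ∀ U ∈ 𝓝 (0 : F), ∀ W ∈ 𝓝 (0 : F), ∃ W' ∈ 𝓝 (0 : F), ∀ x ∉ U, ∀ w ∈ W', w / x ∈ W
  nd : ∀ W ∈ 𝓝 (0 : F), ∃ x : K, x ≠ 0 ∧ algebraMap K F x ∈ W

/-- `F` has such a topology -/
def TH (K F : Type*) [Field K] [Field F] [Algebra K F] : Prop :=
  ∃ _ : TopologicalSpace F, TopH K F

section

variable {F : Type*} [Field F] [TopologicalSpace F] [IsTopologicalRing F]

theorem continuous_eval₂ (P : F[X][X]) :
    Continuous fun p : F × F => (P.map (evalRingHom p.1)).eval p.2 := by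
  induction P using Polynomial.induction_on' with
  | add p q hp hq =>
    simp only [Polynomial.map_add, eval_add]
    exact hp.add hq
  | monomial n a =>
    simp only [map_monomial, eval_monomial, coe_evalRingHom]
    exact ((Polynomial.continuous a).comp continuous_fst).mul (continuous_snd.pow n)

end

theorem TopH.pers {K F : Type*} [Field K] [Field F] [Algebra K F] [TopologicalSpace F]
    (h : TopH K F) : Pers (comap (algebraMap K F) (𝓝 0)) F := by
  classical
  have := h.t2
  have := h.div
  intro P r hSR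
  obtain ⟨s, hs, hroot⟩ := hSR
  set PF : F[X][X] := P.map (mapRingHom (algebraMap K F)) with hPF
  have hmap : ∀ δ : K, PF.map (evalRingHom (algebraMap K F δ)) =
      (P.map (evalRingHom δ)).map (algebraMap K F) := by
    intro δ
    rw [hPF, Polynomial.map_map, Polynomial.map_map]
    congr 1
    ext z
    · simp
    · simp
  have hmap0 : PF.map (evalRingHom 0) = (P.map (evalRingHom 0)).map (algebraMap K F) := by
    have := hmap 0
    rwa [map_zero] at this
  have hroot' : ∀ a ∈ s, (PF.map (evalRingHom 0)).eval a = 0 ∧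
      (derivative (PF.map (evalRingHom 0))).eval a ≠ 0 := by
    intro a ha
    rw [hmap0, derivative_map, eval_map_algebraMap, eval_map_algebraMap]
    exact hroot a ha
  obtain ⟨U, hU, hdisj⟩ : ∃ U : F → Set F, (∀ a, a ∈ U a ∧ IsOpen (U a)) ∧
      (s : Set F).PairwiseDisjoint U := by
    obtain ⟨U, hU1, hU2⟩ := (s.finite_toSet).t2_separation
    exact ⟨U, hU1, hU2⟩
  have hcont := continuous_eval₂ (derivative PF)
  have hder : ∀ d : F, (derivative PF).map (evalRingHom d) = derivative (PF.map (evalRingHom d)) :=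
    fun d => (derivative_map _ _).symm
  have hev : ∀ a ∈ s, ∀ᶠ d in 𝓝 (0 : F), ∃ x ∈ U a, (PF.map (evalRingHom d)).eval x = 0 ∧
      (derivative (PF.map (evalRingHom d))).eval x ≠ 0 := by
    intro a ha
    have h1 : ∀ᶠ p in 𝓝 ((0 : F), a), ((derivative PF).map (evalRingHom p.1)).eval p.2 ≠ 0 := by
      apply hcont.continuousAt.eventually_ne
      rw [hder]
      exact (hroot' a ha).2
    rw [nhds_prod_eq, eventually_prod_iff] at h1
    obtain ⟨pa, hpa, pb, hpb, hab⟩ := h1
    have h2 : U a ∩ {x | pb x} ∈ 𝓝 a := inter_mem ((hU a).2.mem_nhds (hU a).1) hpb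
    filter_upwards [h.srp PF a (hroot' a ha).1 (hroot' a ha).2 _ h2, hpa] with d hd hd'
    obtain ⟨x, ⟨hxU, hxb⟩, hx⟩ := hd
    refine ⟨x, hxU, hx, ?_⟩
    rw [← hder]
    exact hab hd' hxb
  have hall : ∀ᶠ d in 𝓝 (0 : F), ∀ a ∈ s, ∃ x ∈ U a, (PF.map (evalRingHom d)).eval x = 0 ∧
      (derivative (PF.map (evalRingHom d))).eval x ≠ 0 := (Finset.eventually_all s).2 hev
  refine (tendsto_comap.eventually hall).mono fun δ hδ => ?_
  choose! g hgU hg using hδ
  refine ⟨s.image g, ?_, ?_⟩
  · rw [Finset.card_image_of_injOn]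
    · exact hs
    · intro a ha b hb hab
      by_contra hne
      have := Set.disjoint_left.1 (hdisj ha hb hne) (hgU a ha)
      rw [hab] at this
      exact this (hgU b hb)
  · intro b hb
    rw [Finset.mem_image] at hb
    obtain ⟨a, ha, rfl⟩ := hb
    have h3 := hg a ha
    rw [hmap, derivative_map, eval_map_algebraMap, eval_map_algebraMap] at h3
    exact h3

theorem Pers.mono {K F : Type*} [Field K] [Field F] [Algebra K F] {ℱ 𝒢 : Filter K}
    (h : Pers 𝒢 F) (hle : ℱ ≤ 𝒢) : Pers ℱ F :=
  fun P r hP => (h P r hP).filter_mono hle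

/-- the joint filter -/
noncomputable def joint {K ι : Type*} [Field K] (F : ι → Type*) [∀ i, Field (F i)]
    [∀ i, Algebra K (F i)] [∀ i, TopologicalSpace (F i)] (s : Finset ι) : Filter K :=
  (⨅ i ∈ s, comap (algebraMap K (F i)) (𝓝 0)) ⊓ 𝓟 {0}ᶜ

theorem joint_neBot {K ι : Type*} [Field K] (F : ι → Type*) [∀ i, Field (F i)]
    [∀ i, Algebra K (F i)] [∀ i, TopologicalSpace (F i)] (h : ∀ i, TopH K (F i))
    (s : Finset ι) : (joint (K := K) F s).NeBot := by
  classical
  induction s using Finset.induction_on with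
  | empty =>
    simp only [joint, Finset.notMem_empty, iInf_false, iInf_top, top_inf_eq, principal_neBot_iff]
    exact ⟨1, one_ne_zero⟩
  | insert k s hk ih =>
    have := (h k).t2
    have := (h k).div
    have hsplit : joint (K := K) F (insert k s) =
        joint (K := K) F s ⊓ comap (algebraMap K (F k)) (𝓝 0) := by
      unfold joint
      rw [Finset.iInf_insert]
      rw [inf_assoc, inf_comm]
    rw [hsplit]
    rcases s.eq_empty_or_nonempty with rfl | ⟨i₀, hi₀⟩
    · rw [inf_neBot_iff]
      intro S hS T hT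
      simp only [joint, Finset.notMem_empty, iInf_false, iInf_top, top_inf_eq,
        mem_principal] at hS
      rw [mem_comap] at hT
      obtain ⟨W, hW, hWT⟩ := hT
      obtain ⟨x, hx, hxW⟩ := (h k).nd W hW
      exact ⟨x, hS hx, hWT hxW⟩
    · by_contra hbot
      rw [not_neBot] at hbot
      have h1 : ∃ U ∈ 𝓝 (0 : F k), ∀ᶠ x in joint (K := K) F s, algebraMap K (F k) x ∉ U := by
        rw [← disjoint_iff, Filter.disjoint_iff] at hbot
        obtain ⟨S, hS, T, hT, hST⟩ := hbot
        rw [mem_comap] at hT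
        obtain ⟨U, hU, hUT⟩ := hT
        refine ⟨U, hU, ?_⟩
        filter_upwards [hS] with x hx hxU
        exact Set.disjoint_left.1 hST hx (hUT hxU)
      obtain ⟨U, hU, hUev⟩ := h1
      obtain ⟨W, hW, hW1⟩ : ∃ W ∈ 𝓝 (0 : F k), ∀ a ∈ W, ∀ b ∈ W, a - b ≠ 1 := by
        have h2 : Tendsto (fun p : F k × F k => p.1 - p.2) (𝓝 (0, 0)) (𝓝 ((0 : F k) - 0)) :=
          (continuous_fst.sub continuous_snd).tendsto (0, 0)
        rw [sub_zero] at h2
        have h3 : ∀ᶠ p in 𝓝 ((0 : F k), (0 : F k)), p.1 - p.2 ≠ 1 :=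
          h2.eventually_ne zero_ne_one
        rw [nhds_prod_eq, eventually_prod_iff] at h3
        obtain ⟨pa, hpa, pb, hpb, hab⟩ := h3
        exact ⟨{x | pa x} ∩ {x | pb x}, inter_mem hpa hpb, fun a ha b hb => hab ha.1 hb.2⟩
      obtain ⟨W', hW', hdiv⟩ := (h k).vtop U hU W hW
      obtain ⟨w, hw0, hwW'⟩ := (h k).nd W' hW'
      -- the map `x ↦ x / (1 - x / w)`
      have hlim : Tendsto (fun x : K => x / (1 - x / w)) (joint (K := K) F s)
          (⨅ i ∈ s, comap (algebraMap K (F i)) (𝓝 0)) := by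
        rw [tendsto_iInf]
        intro i
        rw [tendsto_iInf]
        intro hi
        rw [tendsto_comap_iff]
        have := (h i).div
        have h2 : Tendsto (algebraMap K (F i)) (joint (K := K) F s) (𝓝 0) :=
          tendsto_comap.mono_left (inf_le_left.trans (iInf₂_le i hi))
        have h3 : Tendsto (fun x : K => algebraMap K (F i) x /
            (1 - algebraMap K (F i) x / algebraMap K (F i) w)) (joint (K := K) F s)
            (𝓝 (0 / (1 - 0 / algebraMap K (F i) w))) := by
          refine h2.div (tendsto_const_nhds.sub (h2.div_const _)) ?_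
          rw [zero_div, sub_zero]
          exact one_ne_zero
        rw [zero_div] at h3
        refine h3.congr fun x => ?_
        simp only [Function.comp_apply, map_div₀, map_sub, map_one]
      have hne : ∀ᶠ x in joint (K := K) F s, x ≠ 0 ∧ 1 - x / w ≠ 0 := by
        have hx0 : ∀ᶠ x in joint (K := K) F s, x ≠ 0 := mem_inf_of_right (mem_principal_self _)
        refine hx0.and ?_
        have := (h i₀).div
        have := (h i₀).t2
        have h2 : Tendsto (algebraMap K (F i₀)) (joint (K := K) F s) (𝓝 0) :=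
          tendsto_comap.mono_left (inf_le_left.trans (iInf₂_le i₀ hi₀))
        have h3 : Tendsto (fun x : K =>
            (1 - algebraMap K (F i₀) x / algebraMap K (F i₀) w)) (joint (K := K) F s)
            (𝓝 ((1 - 0 / algebraMap K (F i₀) w))) :=
          tendsto_const_nhds.sub (h2.div_const _)
        have h4 : ∀ᶠ x in joint (K := K) F s,
            (1 - algebraMap K (F i₀) x / algebraMap K (F i₀) w) ≠ 0 :=
          h3.eventually_ne (by rw [zero_div, sub_zero]; exact one_ne_zero)
        filter_upwards [h4] with x hx hx'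
        apply hx
        rw [← map_div₀, ← map_one (algebraMap K (F i₀)), ← map_sub, hx', map_zero]
      have hlim2 : Tendsto (fun x : K => x / (1 - x / w)) (joint (K := K) F s)
          (joint (K := K) F s) := by
        refine tendsto_inf.2 ⟨hlim, ?_⟩
        rw [tendsto_principal]
        filter_upwards [hne] with x hx
        exact div_ne_zero hx.1 hx.2
      obtain ⟨x, hx1, hx2, hx0, hx3⟩ := (hUev.and ((hlim2.eventually hUev).and hne)).exists
      have h5 := hW1 _ (hdiv _ hx1 _ hwW') _ (hdiv _ hx2 _ hwW')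
      apply h5
      rw [← map_div₀, ← map_div₀, ← map_sub, ← map_one (algebraMap K (F k))]
      congr 1
      field_simp
      ring

theorem joint_le_cofinite {K ι : Type*} [Field K] (F : ι → Type*) [∀ i, Field (F i)]
    [∀ i, Algebra K (F i)] [∀ i, TopologicalSpace (F i)] (h : ∀ i, TopH K (F i))
    (s : Finset ι) (hs : s.Nonempty) : joint (K := K) F s ≤ cofinite := by
  obtain ⟨i, hi⟩ := hs
  have := (h i).t2
  have h1 : joint (K := K) F s ≤ comap (algebraMap K (F i)) (𝓝 0) ⊓ 𝓟 {0}ᶜ :=
    inf_le_inf_right _ (iInf₂_le i hi)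
  refine h1.trans ?_
  intro S hS
  rw [mem_cofinite] at hS
  have h2 : (algebraMap K (F i) '' (Sᶜ \ {0}))ᶜ ∈ 𝓝 (0 : F i) := by
    apply IsOpen.mem_nhds
    · exact ((hS.subset Set.sdiff_subset).image _).isClosed.isOpen_compl
    · rintro ⟨x, ⟨-, hx⟩, hx'⟩
      exact hx ((map_eq_zero _).1 hx')
  filter_upwards [mem_inf_of_left (preimage_mem_comap h2),
    mem_inf_of_right (mem_principal_self _)] with x hx hx0
  by_contra hxS
  exact hx ⟨x, ⟨hxS, hx0⟩, rfl⟩

/-- the joint filter for all indices -/
theorem exists_filter {K ι : Type*} [Field K] [Fintype ι] [Nonempty ι] (F : ι → Type*)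
    [∀ i, Field (F i)] [∀ i, Algebra K (F i)] (h : ∀ i, TH K (F i)) :
    ∃ ℱ : Filter K, ℱ.NeBot ∧ ℱ ≤ cofinite ∧ ∀ i, Pers ℱ (F i) := by
  choose τ hτ using h
  refine ⟨joint (K := K) F Finset.univ, joint_neBot F hτ _,
    joint_le_cofinite F hτ _ Finset.univ_nonempty, fun i => ?_⟩
  exact (hτ i).pers.mono (inf_le_left.trans (iInf₂_le i (Finset.mem_univ i)))

end Pool.Agent.Helper51.HI
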