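import Pool.Agent.Helper51.HI.Full

set_option autoImplicit false

/-!
Perturbing a totally split divisor.
-/

namespace Pool.Agent.Helper51.HI

open Polynomial Filter IntermediateField Module

section basic

variable {K : Type*} [Field K]

/-- a polynomial with as many simple roots as its degree splits -/
theorem sr_full {F : Type*} [Field F] [Algebra K F] (χ : K[X]) (D : ℕ) (hpos : 1 ≤ D)
    (hD : χ.natDegree ≤ D) (h : SR F χ D) :
    χ.natDegree = D ∧ χ.Separable ∧ (χ.map (algebraMap K F)).Splits := by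
  classical
  obtain ⟨s, hs, hroot⟩ := h
  have hχ : χ ≠ 0 := by
    rintro rfl
    obtain ⟨a, ha⟩ : s.Nonempty := Finset.card_pos.1 (by omega)
    apply (hroot a ha).2
    rw [derivative_zero, map_zero]
  set ψ := χ.map (algebraMap K F) with hψ
  have hψ0 : ψ ≠ 0 := (Polynomial.map_ne_zero_iff (algebraMap K F).injective).2 hχ
  have hsub : s ⊆ ψ.roots.toFinset := by
    intro a ha
    rw [Multiset.mem_toFinset, mem_roots hψ0, IsRoot.def, hψ, eval_map_algebraMap]
    exact (hroot a ha).1
  have h1 : s.card ≤ ψ.roots.toFinset.card := Finset.card_le_card hsub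
  have h2 : ψ.roots.toFinset.card ≤ Multiset.card ψ.roots := Multiset.toFinset_card_le _
  have h3 : Multiset.card ψ.roots ≤ ψ.natDegree := card_roots' _
  have h4 : ψ.natDegree = χ.natDegree := natDegree_map _
  have h5 : ψ.Splits := splits_iff_card_roots.2 (by omega)
  have h6 : ψ.roots.Nodup := Multiset.toFinset_card_eq_card_iff_nodup.1 (by omega)
  refine ⟨by omega, ?_, h5⟩
  have h7 : ψ.Separable := (nodup_roots_iff_of_splits hψ0 h5).1 h6
  exact (separable_map _).1 h7

/-- the degree is divisible by `p` if the degrees of the irreducible factors are -/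
theorem dvd_natDegree (p : ℕ) (χ : K[X]) (hχ : χ ≠ 0)
    (h : ∀ q : K[X], Irreducible q → q ∣ χ → p ∣ q.natDegree) : p ∣ χ.natDegree := by
  induction χ using WfDvdMonoid.induction_on_irreducible with
  | zero => exact absurd rfl hχ
  | unit u hu => rw [natDegree_eq_zero_of_isUnit hu]; exact dvd_zero p
  | mul a q ha hq ih =>
    rw [natDegree_mul hq.ne_zero ha]
    exact dvd_add (h q hq (dvd_mul_right _ _))
      (ih ha fun r hr hra => h r hr (hra.trans (dvd_mul_left _ _)))

/-- divisibility in a family -/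
theorem dvd_family [Infinite K] (Φ : K[X][X]) (m : K[X]) (hm : m.Monic)
    (h : ∀ δ : K, m ∣ Φ.map (evalRingHom δ)) : ∃ P : K[X][X], Φ = m.map C * P := by
  have hmC : (m.map (C : K →+* K[X])).Monic := hm.map C
  have hmap : ∀ δ : K, (m.map (C : K →+* K[X])).map (evalRingHom δ) = m := by
    intro δ
    rw [Polynomial.map_map]
    have : (evalRingHom δ).comp (C : K →+* K[X]) = RingHom.id K := by
      ext x
      simp
    rw [this, Polynomial.map_id]
  have h0 : Φ %ₘ (m.map C) = 0 := by
    ext1 d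
    rw [coeff_zero]
    apply Polynomial.funext
    intro δ
    rw [eval_zero]
    have h1 : ((Φ %ₘ (m.map C)).map (evalRingHom δ)) = 0 := by
      rw [map_modByMonic _ hmC, hmap]
      exact (modByMonic_eq_zero_iff_dvd hm).2 (h δ)
    have h2 := congrArg (fun q => coeff q d) h1
    simpa [coeff_map] using h2
  exact ((modByMonic_eq_zero_iff_dvd hmC).1 h0)

/-- the algebraic part -/
theorem exists_family_poly [Infinite K] (f : K[X][X]) (n : ℕ)
    (hf : f.natDegree = n + 1) (h0 : (f.coeff 0).coeff 0 = 0)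
    (h1 : (f.coeff 1).coeff 0 ≠ 0) (A : ℕ) (hA : ∀ i, (f.coeff i).natDegree ≤ A)
    (N : ℕ) (G : K[X][X]) (hG : Bd n N G) (w₁ v : K[X]) (u : K) (hu : u ≠ 0) (hv : v.Monic)
    (hres : resultant f G (n + 1) n = C u * (w₁ * v))
    (hw : (resultant f G (n + 1) n).coeff 0 ≠ 0)
    (hdeg : (resultant f G (n + 1) n).natDegree = (n + 1) * N + n * A)
    (hvN : v.natDegree ≤ N + 1) :
    ∃ P : K[X][X], P.map (evalRingHom 0) = C u * (X * w₁) ∧ P.coeff 0 ≠ 0 ∧
      (∀ δ : K, (P.map (evalRingHom δ)).natDegree ≤ 1 + w₁.natDegree) ∧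
      ∀ (δ x₀ : K), (f.coeff (n + 1)).eval x₀ ≠ 0 → x₀ ≠ 0 → v.eval x₀ ≠ 0 →
        (P.map (evalRingHom δ)).eval x₀ = 0 →
        (derivative (P.map (evalRingHom δ))).eval x₀ ≠ 0 →
        ∃ y : K, (f.map (evalRingHom x₀)).eval y = 0 := by
  obtain ⟨b, hb, hbf⟩ := exists_branch f h0 h1 (n + 1)
  set g := f /ₘ (X - C b) with hg
  have hgd : g.natDegree = n := (resultant_congr f G n hf hG.deg b _ hbf).1
  set H : K[X][X] := (g.map (evalRingHom 0)).map C with hH
  have hHd : H.natDegree ≤ n := natDegree_map_le.trans (natDegree_map_le.trans hgd.le)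
  have hHc : ∀ i, H.coeff i = C ((g.coeff i).coeff 0) := by
    intro i
    rw [hH, coeff_map, coeff_map, coe_evalRingHom, coeff_zero_eq_eval_zero]
  obtain ⟨k, hk⟩ : C X ∣ g - H := by
    rw [C_dvd_iff_dvd_coeff]
    intro i
    rw [coeff_sub, hHc, X_dvd_iff, coeff_sub, coeff_C_zero, sub_self]
  have hkd : k.natDegree ≤ n := by
    have h2 : (C X * k : K[X][X]).natDegree = k.natDegree := natDegree_C_mul X_ne_zero
    rw [← h2, ← hk]
    exact (natDegree_sub_le _ _).trans (max_le hgd.le hHd)
  -- the pencils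
  obtain ⟨Φ, hΦ⟩ := pencil f (C X * G) (C v * H) (n + 1) n
  obtain ⟨Ψ, hΨ⟩ := pencil g G (-(C v * k)) n n
  have hGd : ∀ δ : K, (C X * G + C (C δ) * (C v * H)).natDegree ≤ n := fun δ =>
    (natDegree_add_le _ _).trans (max_le ((natDegree_C_mul_le _ _).trans hG.deg)
      ((natDegree_C_mul_le _ _).trans ((natDegree_C_mul_le _ _).trans hHd)))
  have hGb : ∀ (δ : K) (i : ℕ), ((C X * G + C (C δ) * (C v * H)).coeff i).natDegree ≤ N + 1 := by
    intro δ i
    rw [coeff_add, coeff_C_mul, coeff_C_mul, coeff_C_mul, hHc]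
    refine (natDegree_add_le _ _).trans (max_le ?_ ?_)
    · refine natDegree_mul_le.trans ?_
      have := hG.coeff i
      rw [natDegree_X]
      omega
    · refine (natDegree_C_mul_le _ _).trans ((natDegree_mul_C_le _ _).trans hvN)
  have hΦ0 : Φ.map (evalRingHom 0) = X ^ (n + 1) * (C u * (w₁ * v)) := by
    rw [hΦ, C_0, C_0, zero_mul, add_zero, resultant_C_mul_right, hres]
  -- the branch
  have hcong : ∀ δ : K, X ^ (n + 1) ∣ Φ.map (evalRingHom δ) -
      (X * G.eval b + C δ * v * H.eval b) * (X ^ n * Ψ.map (evalRingHom δ)) := by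
    intro δ
    have h2 := (resultant_congr f (C X * G + C (C δ) * (C v * H)) n hf (hGd δ) b _ hbf).2
    have h3 : (C X * G + C (C δ) * (C v * H)).eval b =
        X * G.eval b + C δ * v * H.eval b := by
      rw [eval_add, eval_mul, eval_mul, eval_mul, eval_C, eval_C, eval_C]
      ring
    have h4 : resultant g (C X * G + C (C δ) * (C v * H)) n n =
        X ^ n * Ψ.map (evalRingHom δ) := by
      have h5 : C X * G + C (C δ) * (C v * H) =
          C X * (G + C (C δ) * (-(C v * k))) + g * C (C δ * v) := by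
        have h6 : H = g - C X * k := by rw [← hk]; ring
        rw [h6, C_mul]
        ring
      rw [h5, resultant_add_mul_right _ _ _ _ _ (by rw [natDegree_C]; omega) hgd.le,
        resultant_C_mul_right, hΨ]
    rw [← hg, h3, h4, ← hΦ] at h2
    exact h2
  have hXn : ∀ δ : K, X ^ n ∣ Φ.map (evalRingHom δ) := by
    intro δ
    have h2 := (pow_dvd_pow X (Nat.le_succ n)).trans (hcong δ)
    have h3 : X ^ n ∣ (X * G.eval b + C δ * v * H.eval b) * (X ^ n * Ψ.map (evalRingHom δ)) :=
      (dvd_mul_right _ _).mul_left _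
    have h4 := dvd_add h2 h3
    rwa [sub_add_cancel] at h4
  have hvd : ∀ δ : K, v ∣ Φ.map (evalRingHom δ) := by
    intro δ
    set I : Ideal K[X] := Ideal.span {v} with hI
    have hmem : ∀ z, v ∣ z ↔ Ideal.Quotient.mk I z = 0 := by
      intro z
      rw [Ideal.Quotient.eq_zero_iff_mem, hI, Ideal.mem_span_singleton]
    rw [hmem, hΦ, ← resultant_map_map]
    have h2 : (C X * G + C (C δ) * (C v * H)).map (Ideal.Quotient.mk I) =
        (C X * G).map (Ideal.Quotient.mk I) := by
      have h3 : (C v * H : K[X][X]).map (Ideal.Quotient.mk I) = 0 := by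
        rw [Polynomial.map_mul, map_C, (hmem v).1 dvd_rfl, C_0, zero_mul]
      rw [Polynomial.map_add, Polynomial.map_mul (Ideal.Quotient.mk I) (p := C (C δ)), h3, mul_zero,
        add_zero]
    rw [h2, resultant_map_map, ← hmem, resultant_C_mul_right, hres]
    exact Dvd.intro_left (X ^ (n + 1) * (C u * w₁)) (by ring)
  have hw0 : (C u * (w₁ * v)).coeff 0 ≠ 0 := by rw [← hres]; exact hw
  have hv0 : v.coeff 0 ≠ 0 := by
    intro h
    apply hw0
    rw [mul_coeff_zero, mul_coeff_zero, h, mul_zero, mul_zero]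
  set m : K[X] := X ^ n * v with hm
  have hmm : m.Monic := (monic_X_pow n).mul hv
  have hcop : IsCoprime (X ^ n : K[X]) v := by
    refine IsCoprime.pow_left ?_
    rw [irreducible_X.coprime_iff_not_dvd, X_dvd_iff]
    exact hv0
  obtain ⟨P, hP⟩ := dvd_family Φ m hmm fun δ => hcop.mul_dvd (hXn δ) (hvd δ)
  have hPδ : ∀ δ : K, Φ.map (evalRingHom δ) = m * P.map (evalRingHom δ) := by
    intro δ
    rw [hP, Polynomial.map_mul, Polynomial.map_map]
    have : (evalRingHom δ).comp (C : K →+* K[X]) = RingHom.id K := by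
      ext x
      simp
    rw [this, Polynomial.map_id]
  have hm0 : m ≠ 0 := hmm.ne_zero
  refine ⟨P, ?_, ?_, ?_, ?_⟩
  · have h2 := hPδ 0
    rw [hΦ0] at h2
    apply mul_left_cancel₀ hm0
    rw [← h2, hm]
    ring
  · intro hP0
    -- the coefficient of `X ^ n`
    have h2 : ∀ δ : K, (Φ.map (evalRingHom δ)).coeff n = 0 := by
      intro δ
      rw [hPδ, hm, mul_assoc, coeff_X_pow_mul', if_pos le_rfl, Nat.sub_self, mul_coeff_zero,
        coeff_map, hP0, map_zero, mul_zero]
    have h3 : ∀ δ : K, δ * (v.coeff 0 * (H.eval b).coeff 0) *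
        (Ψ.map (evalRingHom δ)).coeff 0 = 0 := by
      intro δ
      obtain ⟨z, hz⟩ := hcong δ
      have h4 := congrArg (fun q => coeff q n) hz
      simp only [coeff_sub] at h4
      rw [h2, coeff_X_pow_mul', if_neg (by omega), mul_left_comm, coeff_X_pow_mul', if_pos le_rfl,
        Nat.sub_self, mul_coeff_zero, coeff_add, coeff_X_mul_zero, zero_add, mul_coeff_zero,
        coeff_C_mul, zero_sub, neg_eq_zero] at h4
      rw [← h4]
      ring
    have hHb : (H.eval b).coeff 0 ≠ 0 := by
      rw [eval_eval_zero H b hb, hHc, coeff_C_zero]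
      have h5 := residual_coeff f b hb h0 0
      rw [coeff_map, coe_evalRingHom, ← coeff_zero_eq_eval_zero, ← hg] at h5
      rw [h5]
      exact h1
    have hΨ0 : Ψ.coeff 0 ≠ 0 := by
      intro h
      apply hw
      have h4 := (resultant_congr f G n hf hG.deg b _ hbf).2
      have h5 : resultant g G n n = Ψ.map (evalRingHom 0) := by
        rw [hΨ, C_0, C_0, zero_mul, add_zero]
      rw [← hg, h5] at h4
      have h6 : X ∣ resultant f G (n + 1) n - G.eval b * Ψ.map (evalRingHom 0) :=
        (dvd_pow_self X (Nat.succ_ne_zero n)).trans h4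
      rw [X_dvd_iff, coeff_sub, mul_coeff_zero, coeff_map, h, map_zero, mul_zero, sub_zero] at h6
      exact h6
    have h7 : X * Ψ.coeff 0 = 0 := by
      apply Polynomial.funext
      intro δ
      rw [eval_mul, eval_X, eval_zero]
      have h8 := h3 δ
      rw [coeff_map, coe_evalRingHom, mul_assoc, mul_eq_zero] at h8
      rcases h8 with h8 | h8
      · rw [h8, zero_mul]
      · rw [(mul_eq_zero.1 h8).resolve_left (mul_ne_zero hv0 hHb), mul_zero]
    exact hΨ0 ((mul_eq_zero.1 h7).resolve_left X_ne_zero)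
  · intro δ
    by_cases hz : P.map (evalRingHom δ) = 0
    · rw [hz, natDegree_zero]
      exact Nat.zero_le _
    have h2 : (Φ.map (evalRingHom δ)).natDegree ≤ (n + 1) * (N + 1) + n * A := by
      rw [hΦ]
      exact natDegree_resultant_le hA (hGb δ)
    rw [hPδ, natDegree_mul hm0 hz, hm, (monic_X_pow n).natDegree_mul hv, natDegree_X_pow] at h2
    have h3 : (C u * (w₁ * v)).natDegree = w₁.natDegree + v.natDegree := by
      have hw₁ : w₁ ≠ 0 := by
        rintro rfl
        apply hw0
        simp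
      rw [natDegree_C_mul hu, natDegree_mul hw₁ hv.ne_zero]
    rw [hres, h3] at hdeg
    have h4 : (n + 1) * (N + 1) = (n + 1) * N + (n + 1) := by ring
    omega
  · intro δ x₀ hlead hx hvx hr hr'
    have h2 : m.eval x₀ ≠ 0 := by
      rw [hm, eval_mul, eval_pow, eval_X]
      exact mul_ne_zero (pow_ne_zero _ hx) hvx
    refine exists_root_of_simple hf.le (hGd δ) x₀ hlead ?_ ?_
    · rw [← hΦ, hPδ, eval_mul, hr, mul_zero]
    · rw [← hΦ, hPδ, derivative_mul, eval_add, eval_mul, eval_mul, hr, mul_zero, zero_add]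
      exact mul_ne_zero h2 hr'

end basic

end Pool.Agent.Helper51.HI
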