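import Mathlib

set_option autoImplicit false

/-!
Resultants of bivariate polynomials: degree, behaviour modulo a power of the variable, and the
common zero above a simple root.
-/

namespace Pool.Agent.Helper51.HI

open Polynomial

section linalg

variable {K : Type*} [Field K]

/-- if a matrix of polynomials has two independent kernel vectors at `x₀`, the determinant has a
multiple root there -/
theorem derivative_det_eq_zero {ι : Type*} [Fintype ι] [DecidableEq ι]
    (M : Matrix ι ι K[X]) (x₀ : K) (u v : ι → K)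
    (hu : ((evalRingHom x₀).mapMatrix M).mulVec u = 0)
    (hv : ((evalRingHom x₀).mapMatrix M).mulVec v = 0)
    (a : ι) (hua : u a ≠ 0) (hva : v a = 0) (hv0 : v ≠ 0) :
    (derivative M.det).eval x₀ = 0 := by
  set M₀ : Matrix ι ι K := (evalRingHom x₀).mapMatrix M with hM₀
  set U : ι → K[X] := fun i => C (u i) with hU
  have h1 : ∀ i, (X - C x₀) ∣ M.mulVec U i := by
    intro i
    rw [dvd_iff_isRoot, IsRoot.def]
    have h2 := congrFun hu i
    rw [Pi.zero_apply] at h2
    rw [← h2]
    simp only [Matrix.mulVec, dotProduct, hM₀, hU, RingHom.mapMatrix_apply, Matrix.map_apply,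
      coe_evalRingHom]
    rw [eval_finsetSum]
    simp
  choose W hW using h1
  have h3 : M.adjugate.mulVec (M.mulVec U) = M.det • U := by
    rw [Matrix.mulVec_mulVec, Matrix.adjugate_mul, Matrix.smul_mulVec, Matrix.one_mulVec]
  have h4 : M.mulVec U = (X - C x₀) • W := by
    funext i
    rw [hW i]
    rfl
  rw [h4, Matrix.mulVec_smul] at h3
  have h5 := congrFun h3 a
  rw [Pi.smul_apply, Pi.smul_apply, smul_eq_mul, smul_eq_mul] at h5
  have h6 : (M.adjugate.mulVec W a).eval x₀ = 0 := by
    have h7 : (M.adjugate.mulVec W a).eval x₀ =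
        M₀.adjugate.mulVec (fun i => (W i).eval x₀) a := by
      have h8 : M₀.adjugate = (evalRingHom x₀).mapMatrix M.adjugate := by
        rw [hM₀, RingHom.map_adjugate]
      rw [h8]
      simp only [Matrix.mulVec, dotProduct, RingHom.mapMatrix_apply, Matrix.map_apply,
        coe_evalRingHom]
      rw [eval_finsetSum]
      simp
    rw [h7, ← Matrix.cramer_eq_adjugate_mulVec, Matrix.cramer_apply]
    apply Matrix.exists_mulVec_eq_zero_iff.1
    refine ⟨v, hv0, ?_⟩
    rw [← hv]
    funext i
    simp only [Matrix.mulVec, dotProduct]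
    refine Finset.sum_congr rfl fun j _ => ?_
    by_cases hj : j = a
    · rw [hj, hva, mul_zero, mul_zero]
    · rw [Matrix.updateCol_ne hj]
  have h9 := congrArg (fun p => (derivative p).eval x₀) h5
  simp only [derivative_mul, eval_add, eval_mul, derivative_sub, derivative_X, derivative_C,
    eval_sub, eval_X, eval_C, sub_self, zero_mul, add_zero, sub_zero, one_mul, h6, hU,
    mul_zero] at h9
  exact (mul_eq_zero.1 h9.symm).resolve_right hua

end linalg

section resultant

variable {K : Type*} [Field K]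

theorem natDegree_resultant_le {f G : K[X][X]} {m n A N : ℕ}
    (hf : ∀ i, (f.coeff i).natDegree ≤ A) (hG : ∀ i, (G.coeff i).natDegree ≤ N) :
    (resultant f G m n).natDegree ≤ m * N + n * A := by
  rw [resultant, Matrix.det_apply']
  refine natDegree_sum_le_of_forall_le _ _ fun σ _ => ?_
  refine (natDegree_mul_le).trans ?_
  have h1 : ((Equiv.Perm.sign σ : ℤ) : K[X]).natDegree = 0 := natDegree_intCast _
  rw [h1, zero_add]
  refine (natDegree_prod_le _ _).trans ?_
  rw [Fin.sum_univ_add]
  refine Nat.add_le_add ?_ ?_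
  · refine (Finset.sum_le_card_nsmul _ _ N fun i _ => ?_).trans (by simp)
    simp only [sylvester, Matrix.of_apply, Fin.addCases_left]
    split_ifs
    · exact hG _
    · simp
  · refine (Finset.sum_le_card_nsmul _ _ A fun i _ => ?_).trans (by simp)
    simp only [sylvester, Matrix.of_apply, Fin.addCases_right]
    split_ifs
    · exact hf _
    · simp

/-- the common zero above a simple root of the resultant is rational -/
theorem exists_root_of_simple {f G : K[X][X]} {n : ℕ} (hn : f.natDegree ≤ n + 1)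
    (hG : G.natDegree ≤ n) (x₀ : K) (hlead : (f.coeff (n + 1)).eval x₀ ≠ 0)
    (h0 : (resultant f G (n + 1) n).eval x₀ = 0)
    (h1 : (derivative (resultant f G (n + 1) n)).eval x₀ ≠ 0) :
    ∃ y : K, (f.map (evalRingHom x₀)).eval y = 0 := by
  classical
  set f₀ := f.map (evalRingHom x₀) with hf₀
  set G₀ := G.map (evalRingHom x₀) with hG₀
  have hc : f₀.coeff (n + 1) ≠ 0 := by
    rw [hf₀, coeff_map]
    exact hlead
  have hdeg : f₀.natDegree = n + 1 :=
    natDegree_eq_of_le_of_coeff_ne_zero ((natDegree_map_le).trans hn) hc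
  have hdegG : G₀.natDegree ≤ n := (natDegree_map_le).trans hG
  have hf0 : f₀ ≠ 0 := by
    intro h
    rw [h, coeff_zero] at hc
    exact hc rfl
  have hres : resultant f₀ G₀ (n + 1) n = 0 := by
    rw [hf₀, hG₀, resultant_map_map]
    exact h0
  have hnc : ¬ IsCoprime f₀ G₀ := by
    obtain ⟨k, hk⟩ := Nat.exists_eq_add_of_le hdegG
    have h2 := resultant_add_right_deg f₀ G₀ (n + 1) G₀.natDegree k le_rfl
    rw [← hk, hres] at h2
    rcases mul_eq_zero.1 h2.symm with h | h
    · exact absurd h (pow_ne_zero _ hc)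
    · rw [← hdeg] at h
      exact (resultant_eq_zero_iff.1 h).2
  set D := EuclideanDomain.gcd f₀ G₀ with hD
  obtain ⟨f₁, hf₁⟩ : D ∣ f₀ := EuclideanDomain.gcd_dvd_left _ _
  obtain ⟨G₁, hG₁⟩ : D ∣ G₀ := EuclideanDomain.gcd_dvd_right _ _
  have hD0 : D ≠ 0 := fun h => hf0 (by rw [hf₁, h, zero_mul])
  have hf10 : f₁ ≠ 0 := fun h => hf0 (by rw [hf₁, h, mul_zero])
  have hDpos : D.natDegree ≠ 0 := by
    intro h
    apply hnc
    have : IsUnit D := by
      rw [isUnit_iff_degree_eq_zero, degree_eq_natDegree hD0, h]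
      rfl
    exact EuclideanDomain.isCoprime_of_dvd (fun h => hf0 h.1) (fun z hz _ hzf hzG =>
      hz (isUnit_of_dvd_unit (EuclideanDomain.dvd_gcd hzf hzG) this))
  by_cases hD1 : D.natDegree = 1
  · obtain ⟨y, hy⟩ := exists_root_of_degree_eq_one
      (by rw [degree_eq_natDegree hD0, hD1]; rfl : D.degree = 1)
    refine ⟨y, ?_⟩
    rw [hf₁, eval_mul, hy.eq_zero, zero_mul]
  exfalso
  apply h1
  have hD2 : 2 ≤ D.natDegree := by omega
  have hdf1 : f₁.natDegree + 2 ≤ n + 1 := by
    rw [← hdeg, hf₁, natDegree_mul hD0 hf10]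
    omega
  have hdG1 : G₁ = 0 ∨ G₁.natDegree + 2 ≤ n := by
    by_cases hG10 : G₁ = 0
    · exact Or.inl hG10
    · right
      have : D.natDegree + G₁.natDegree ≤ n := by
        rw [← natDegree_mul hD0 hG10, ← hG₁]
        exact hdegG
      omega
  have hdG1' : ∀ i ≤ 1, (X ^ i * G₁ : K[X]).degree < ((n : ℕ) : WithBot ℕ) := by
    intro i hi
    rcases hdG1 with h | h
    · rw [h, mul_zero, degree_zero]
      exact WithBot.bot_lt_coe _
    · refine lt_of_le_of_lt degree_le_natDegree ?_
      have h3 : (X ^ i * G₁ : K[X]).natDegree ≤ i + G₁.natDegree := by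
        refine natDegree_mul_le.trans ?_
        rw [natDegree_X_pow]
      exact_mod_cast (by omega : (X ^ i * G₁ : K[X]).natDegree < n)
  have hdf1' : ∀ i ≤ 1, (X ^ i * f₁ : K[X]).degree < ((n + 1 : ℕ) : WithBot ℕ) := by
    intro i hi
    refine lt_of_le_of_lt degree_le_natDegree ?_
    have h3 : (X ^ i * f₁ : K[X]).natDegree ≤ i + f₁.natDegree := by
      refine natDegree_mul_le.trans ?_
      rw [natDegree_X_pow]
    exact_mod_cast (by omega : (X ^ i * f₁ : K[X]).natDegree < n + 1)
  let w : ∀ i : ℕ, i ≤ 1 → degreeLT K (n + 1) × degreeLT K n := fun i hi =>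
    (⟨X ^ i * f₁, mem_degreeLT.2 (hdf1' i hi)⟩, -⟨X ^ i * G₁, mem_degreeLT.2 (hdG1' i hi)⟩)
  have hdeg' : f₀.natDegree ≤ n + 1 := hdeg.le
  have hker : ∀ i (hi : i ≤ 1), sylvesterMap f₀ G₀ hdeg' hdegG (w i hi) = 0 := by
    intro i hi
    apply Subtype.ext
    simp only [w, sylvesterMap_apply_coe, ZeroMemClass.coe_zero, Submodule.coe_neg]
    rw [hf₁, hG₁]
    ring
  let b₁ := ((degreeLT.basis K (n + 1)).prod (degreeLT.basis K n)).reindex finSumFinEquiv
  let b₂ := degreeLT.basis K (n + 1 + n)
  have hmat : LinearMap.toMatrix b₁ b₂ (sylvesterMap f₀ G₀ hdeg' hdegG) =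
      (evalRingHom x₀).mapMatrix (sylvester f G (n + 1) n) := by
    rw [toMatrix_sylvesterMap', hf₀, hG₀, sylvester_map_map]
  have hmul : ∀ i (hi : i ≤ 1),
      ((evalRingHom x₀).mapMatrix (sylvester f G (n + 1) n)).mulVec (b₁.repr (w i hi)) = 0 := by
    intro i hi
    rw [← hmat, LinearMap.toMatrix_mulVec_repr, hker i hi, map_zero]
    rfl
  have hind : ∀ c d : K, c • w 0 (by omega) + d • w 1 le_rfl = 0 → c = 0 ∧ d = 0 := by
    intro c d h
    have h2 := congrArg (fun z => (z.1 : K[X])) h
    simp only [w, Prod.fst_add, Prod.smul_fst, Submodule.coe_add, Submodule.coe_smul,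
      Prod.fst_zero, ZeroMemClass.coe_zero, pow_zero, one_mul, pow_one] at h2
    have h3 : (C c + C d * X) * f₁ = 0 := by
      rw [← h2, smul_eq_C_mul, smul_eq_C_mul]
      ring
    have h4 : (C c + C d * X : K[X]) = 0 := (mul_eq_zero.1 h3).resolve_right hf10
    have h5 := congrArg (fun p => coeff p 0) h4
    have h6 := congrArg (fun p => coeff p 1) h4
    simp at h5 h6
    exact ⟨h5, h6⟩
  have hw0 : w 0 (by omega) ≠ 0 := by
    intro h
    have := (hind 1 0 (by rw [h, smul_zero, zero_smul, add_zero])).1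
    exact one_ne_zero this
  have hr0 : (b₁.repr (w 0 (by omega)) : Fin (n + 1 + n) → K) ≠ 0 := by
    intro h
    apply hw0
    apply b₁.repr.injective
    rw [map_zero]
    exact DFunLike.coe_injective h
  obtain ⟨a, ha⟩ : ∃ a, b₁.repr (w 0 (by omega)) a ≠ 0 := by
    by_contra hcon
    push Not at hcon
    exact hr0 (funext hcon)
  set z := b₁.repr (w 0 (by omega)) a • w 1 le_rfl - b₁.repr (w 1 le_rfl) a • w 0 (by omega)
    with hz
  refine derivative_det_eq_zero (sylvester f G (n + 1) n) x₀ (b₁.repr (w 0 (by omega)))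
    (b₁.repr z) (hmul 0 (by omega)) ?_ a ha ?_ ?_
  · rw [← hmat, LinearMap.toMatrix_mulVec_repr, hz, map_sub, map_smul, map_smul, hker 1 le_rfl,
      hker 0 (by omega)]
    simp
  · rw [hz, map_sub, map_smul, map_smul]
    simp only [Finsupp.coe_sub, Finsupp.coe_smul, Pi.sub_apply, Pi.smul_apply, smul_eq_mul]
    ring
  · intro h
    have h2 : z = 0 := by
      apply b₁.repr.injective
      rw [map_zero]
      exact DFunLike.coe_injective h
    have h3 : (-(b₁.repr (w 1 le_rfl) a)) • w 0 (by omega) +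
        (b₁.repr (w 0 (by omega)) a) • w 1 le_rfl = 0 := by
      rw [← h2, hz]
      module
    exact ha (hind _ _ h3).2

end resultant

end Pool.Agent.Helper51.HI
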